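import Pool.Agent.H840.KP.Defs
import Pool.Agent.H840.AS.Stm
set_option autoImplicit false

/-!
# Statements of the independent parts
-/

open Complex Filter Topology MeasureTheory Set Metric

open scoped ComplexConjugate

namespace Pool.Agent.H840.KP

open Pool.Agent.H840.AS (curve e0 Lat toC Cc)

/-- INT2.  The double integrals are absolutely convergent.

Paper proof.  `|log u| ≤ 4 (u ^ (-1/4) + u ^ (1/4))` and `|s - t| ≤ (1 + |s|) (1 + |t|)`.  With
`κ k s = |s - a k|⁻¹ (1 + |s - a k|)⁻²` we have `(1 + |s|) ^ 2 / |∏ (s - a k)| ≤ C ∑_k κ k s`, and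
`(1 + |s|) ^ (1/4) κ k s` is integrable.  The remaining term
`|s - t| ^ (-1/4) (κ k s) (κ l t)` is integrable on `ℂ × ℂ` because
`|s - t| ^ (-1/4) |s - a k|⁻¹ ≤ |s - t| ^ (-5/4) + |s - a k| ^ (-5/4)` (compare `|s - t|` with
`|s - a k|`), so that the integral over `s` with `|s - t| < 1` or `|s - a k| < 1` is bounded
independently of `t`, and the integral over the other `s` is bounded by `∫ κ k`.
(`Pool/Agent/H840/KO/Int.lean` contains `integrableOn_ball` and `integrableOn_compl_ball`,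
`Pool/Agent/H671/CNT.lean` the integrability of the integrals in one variable.) -/
def S_INT2 : Prop :=
  ∀ (a : Fin 5 → ℂ) (p q p' q' : ℕ), Function.Injective a → p ≤ 1 → q ≤ 1 → p' ≤ 1 → q' ≤ 1 →
    Integrable fun z : ℂ × ℂ =>
      ((Real.log ‖z.1 - z.2‖ / (‖∏ k, (z.1 - a k)‖ * ‖∏ k, (z.2 - a k)‖) : ℝ) : ℂ) *
      ((z.1 ^ p * conj z.1 ^ q) * (z.2 ^ p' * conj z.2 ^ q'))

/-- CNT2.  The double integrals depend continuously on the `a k`.

Paper proof.  Generalised dominated convergence (`Pool.Agent.H840.AS.gdct` in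
`Pool/Agent/H840/AS/Gdct.lean`) with the dominating functions from `S_INT2` (with `C` uniform for
`e` near `a`, where the `e k` are bounded and `|e k - e l| ≥ δ`); to have dominating functions
`G e` with `∫ G e → ∫ G a` replace `|s - t| ^ (-1/4) |s - e k|⁻¹` by
`|s - t| ^ (-5/4) + |s - e k| ^ (-5/4)` (and similarly at infinity), which gives sums of products
of functions of two of the three quantities `s - e k`, `t - e l`, `s - t`, and then the integral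
does not depend on `e` by the translation invariance, or one can use
`∫∫ g (s - e k) h (s - t)` = `(∫ g) (∫ h)`.  Any other proof is fine, for instance: the functions
of `(e, t)` given by `∫ log |s - t| (…) ds` are bounded by `C (1 + |t|) ^ (1/4)` and continuous at
`e = a` for fixed `t` by the one variable argument, so the integral over `t` is continuous. -/
def S_CNT2 : Prop :=
  ∀ (a : Fin 5 → ℂ) (p q p' q' : ℕ), Function.Injective a → p ≤ 1 → q ≤ 1 → p' ≤ 1 → q' ≤ 1 →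
    ContinuousAt (fun e : Fin 5 → ℂ => ∫ z : ℂ × ℂ,
      ((Real.log ‖z.1 - z.2‖ / (‖∏ k, (z.1 - e k)‖ * ‖∏ k, (z.2 - e k)‖) : ℝ) : ℂ) *
      ((z.1 ^ p * conj z.1 ^ q) * (z.2 ^ p' * conj z.2 ^ q'))) a

/-- ENE.  The logarithmic energy of a nonzero real measure of total mass zero is negative.

Paper proof.  Let `h x = (a + b Re x + c Im x + d |x| ^ 2) / |∏ (x - e k)|`, `∫ h = 0`.
For `u > 0`: `-log u = ½ ∫_0^∞ (exp (- r u ^ 2) - exp (- r)) dr / r` (Frullani), where the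
integral is absolutely convergent with `∫ |…| ≤ 2 |log u|` (the sign is constant).  So by Fubini
(with `S_INT2`) `∫∫ log |s - t| h s h t = - ½ ∫_0^∞ (∫∫ exp (- r |s - t| ^ 2) h s h t) dr / r`
(`∫∫ exp (-r) h s h t = 0`).  As
`exp (- r |s - t| ^ 2) = (4 r / π) ∫ exp (- 2 r |s - w| ^ 2) exp (- 2 r |t - w| ^ 2) dw`
(`2 |s-w|^2 + 2 |t-w|^2 = 4 |w - (s+t)/2|^2 + |s-t|^2`) the inner integral is
`(4 r / π) ∫ g r w ^ 2 dw ≥ 0` with `g r w = ∫ exp (- 2 r |s - w| ^ 2) h s ds`.  If it is zero for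
almost all `r` then `g r w = 0` for almost all `(r, w)`, and by continuity of `g` for all; but
`(2 r / π) g r w → h w` for `r → ∞` at every point `w` different from the `e k` (approximate
identity; or: `g r = 0` for all `w` implies `∫ h φ = 0` for the Gaussians `φ`, whose span is dense),
so `h = 0`, and then `a + b Re x + c Im x + d |x|^2` is zero almost everywhere, so
`a = b = c = d = 0`. -/
def S_ENE : Prop :=
  S_INT2 → ∀ (e : Fin 5 → ℂ) (a b c d : ℝ), Function.Injective e →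
    ¬(a = 0 ∧ b = 0 ∧ c = 0 ∧ d = 0) →
    ∫ x : ℂ, (a + b * x.re + c * x.im + d * ‖x‖ ^ 2) / ‖∏ k, (x - e k)‖ = 0 →
    ∫ z : ℂ × ℂ, Real.log ‖z.1 - z.2‖ / (‖∏ k, (z.1 - e k)‖ * ‖∏ k, (z.2 - e k)‖) *
      ((a + b * z.1.re + c * z.1.im + d * ‖z.1‖ ^ 2) *
        (a + b * z.2.re + c * z.2.im + d * ‖z.2‖ ^ 2)) < 0

/-- SGX.  The real part of the energy of `x / |∏ (x - e k)|` at `e0 = (-2, -1, 0, 1, 2)`
(numerically `-4.07`).

Paper proof.  Let `w x = 1 / |∏ (x - e k)|`, invariant under `x ↦ -x` and `x ↦ conj x`, so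
`∫ x w x = 0`.  With the heat kernel formula as in `S_ENE` it is enough that
`J r = Re ∫∫ exp (- r |s - t| ^ 2) s t (w s) (w t) > 0` for all `r > 0`.  Expanding
`exp (2 r Re (s conj t))` in `s conj t` and `conj s t`,
`J r = ∑_{a, b} r ^ (a + b) / (a! b!) m (a + 1) b * m (b + 1) a` with the real numbers
`m p q = ∫ s ^ p conj s ^ q exp (- r |s| ^ 2) w s`, which are zero if `p - q` is odd.  They are
`≥ 0`: `w s = |s|⁻¹ |1 - s ^ 2|⁻¹ |4 - s ^ 2|⁻¹` and
`|1 - z|⁻¹ = (π) ^ (-1/2) ∫_0^∞ exp (- u |1 - z| ^ 2) u ^ (-1/2) du`,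
`exp (- u |1 - z| ^ 2) = exp (- u (1 + |z| ^ 2)) exp (u z) exp (u conj z)`, and the integral of
`z ^ m conj z ^ n` times a positive function of `|z|` is `0` or positive; so `w` is a positive
mixture of functions (radial, positive) times `exp (λ s ^ 2 + λ conj s ^ 2)`, `λ > 0`, and
`s ^ p conj s ^ q exp (λ s ^ 2 + λ conj s ^ 2)` is a power series in `s` and `conj s` with
coefficients `≥ 0`.  And `m 1 1 > 0` and `m 2 0 = m 0 2 > 0` (`w x > w (i x)` for
`|Re x| > |Im x|`), which give the positive terms `(a, b) = (1, 0)`: `m 2 0 * m 1 1`.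
(Another proof: Fourier series of `w` on circles, which has coefficients `≥ 0`, and
`log |s - t| = log |s| - Re ∑ (t / s) ^ k / k` for `|t| < |s|`.) -/
def S_SGX : Prop :=
  S_INT2 → ∫ z : ℂ × ℂ, Real.log ‖z.1 - z.2‖ / (‖∏ k, (z.1 - e0 k)‖ * ‖∏ k, (z.2 - e0 k)‖) *
    (z.1.re * z.2.re - z.1.im * z.2.im) < 0

/-- INV.  Substitute `x = 2 / u`: `|∏ (2 / u - e k)| = 8 |∏ (u - e k)| / |u| ^ 6` at
`e0 = (-2, -1, 0, 1, 2)` and the Jacobian is `4 / |u| ^ 4`. -/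
def S_INV : Prop :=
  ∫ x : ℂ, ‖x‖ ^ 2 / ‖∏ k, (x - e0 k)‖ = 2 * ∫ x : ℂ, 1 / ‖∏ k, (x - e0 k)‖

/-- PER.  The same substitution for the integrals from `-2` to `-1`.

Paper proof.  See `int_one` in `Pool/Agent/H840/AS/EZ.lean`:
`Cc e0 p 2 = 2 (U p (-1) - U p (-2))` with `U p = Up (w e0 p)`, continuous on `[-2, -1]` with
derivative `w e0 p` on `(-2, -1)`, and `w e0 p x = x ^ p * (a positive number ρ x)`,
`ρ x ^ 2 = 1 / |∏ (x - e k)|`, so `ρ (2 / x) = |x| ^ 3 ρ x / (2 √2)`.  Hence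
`x ↦ U 1 x - √2 U 0 (2 / x)` has derivative zero on `(-2, -1)` and is continuous on `[-2, -1]`, so
`U 1 (-1) - U 1 (-2) = √2 (U 0 (-2) - U 0 (-1))`. -/
def S_PER : Prop := Cc e0 1 2 = -((Real.sqrt 2 : ℝ) : ℂ) * Cc e0 0 2

/-- The rank one Hermitian form. -/
noncomputable def rk {α : Type} (x : α → ℂ) : Matrix α α ℂ := Matrix.of fun I J => x I * conj (x J)

/-- LIN.  Hermitian forms on the second exterior power of `ℂ ^ n`.

Paper proof.  Write `h ζ (i,j) (k,l)` for the Hermitian form with the entries `ζ` at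
`((i,j),(k,l))` (and `-ζ` at `((j,i),(k,l))`, `((i,j),(l,k))`, and so on; `conj ζ` at
`((k,l),(i,j))` …); these span `H22`.  `x = α e_a + γ e_c`, `w = e_b` (polarising in `α`, `γ`) gives
all `h ζ` with two equal indices (one in each pair).  Let `a, b, c, d` be different.
`x = α e_a + γ e_c`, `w = e_b + e_d` gives modulo the former
`h ζ (a,b) (c,d) + h ζ (a,d) (c,b) ∈ W` for all `ζ`.  So modulo `W` the form
`h ζ (a,b) (c,d)` changes its sign when `b, d` or `a, c` or `a, b` or `c, d` are exchanged, hence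
is totally antisymmetric; as `h ζ (c,d) (a,b) = h (conj ζ) (a,b) (c,d)` and the permutation is
even, `h ζ - h (conj ζ) ∈ W`, so the purely imaginary `ζ` are in `W`.  Finally the form `Z` of the
second hypothesis is, modulo `W`, equal to `h t (a,b) (c,d)` with
`t = Re (Z (a,b) (c,d) - Z (a,c) (b,d) + Z (a,d) (b,c))` (each of the three terms appears once, with
the sign of the permutation), so the real `ζ` are in `W`, too. -/
def S_LIN : Prop :=
  ∀ (n : ℕ) (W : Submodule ℝ (Matrix (Fin n × Fin n) (Fin n × Fin n) ℂ)),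
    (∀ (a c : Fin n) (α γ : ℂ) (w : Fin n → ℤ),
      rk (wd (Pi.single a α + Pi.single c γ) (fun i => (w i : ℂ))) ∈ W) →
    (∀ a b c d : Fin n, a ≠ b → a ≠ c → a ≠ d → b ≠ c → b ≠ d → c ≠ d →
      ∃ Z ∈ W, Z ∈ H22 (Fin n) ∧
        (∀ i j k l, Z (i, j) (k, l) ≠ 0 → i ∈ ({a, b, c, d} : Set (Fin n)) ∧
          j ∈ ({a, b, c, d} : Set (Fin n)) ∧ k ∈ ({a, b, c, d} : Set (Fin n)) ∧
          l ∈ ({a, b, c, d} : Set (Fin n))) ∧
        (Z (a, b) (c, d) - Z (a, c) (b, d) + Z (a, d) (b, c)).re ≠ 0) →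
    ∀ Z ∈ H22 (Fin n), Z ∈ W

/-- The action of a linear map of `ℂ ^ 2` on `Ten`. -/
noncomputable def act (g : Matrix (Fin 2) (Fin 2) ℂ) (Z : Ten) : Ten :=
  (fun i j k l => ∑ a, ∑ b, ∑ c, ∑ d, g i a * conj (g j b) * g k c * conj (g l d) * Z.1 a b c d,
    ‖g.det‖ ^ 2 * Z.2)

/-- The real symmetric bilinear forms on the space of Hermitian forms. -/
def TenH : Set Ten :=
  {Z | (∀ i j k l, Z.1 i j k l = Z.1 k l i j) ∧ ∀ i j k l, conj (Z.1 i j k l) = Z.1 j i l k}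

/-- The symmetrised tensor product. -/
def s2 (A B : Matrix (Fin 2) (Fin 2) ℂ) (i j k l : Fin 2) : ℂ := A i j * B k l + B i j * A k l

/-- The alternating form. -/
def ee : Matrix (Fin 2) (Fin 2) ℂ := !![0, 1; -1, 0]

/-- GRP2.  The analogue of `Pool.Agent.H840.AS.S_GRP` (proved in `Pool/Agent/H722/GRP`) for `Ten`.

Paper proof.  `act` is multiplicative, `act g (s2 A B, 0) = (s2 (g A gᴴ) (g B gᴴ), 0)`, and
`act (N)` is the multiplication by `N ^ 4` for a real number `N`.  Write `S τ = S (Lat τ)`.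
(a) As in `S_GRP` (see `lemA`, `lemB`, `lemD` there): `act U⁻¹ (S (U τ Uᵀ + B)) ≤ S τ` for rational
`U` and rational symmetric `B`, and `act τ (S (-τ⁻¹)) ≤ S τ`.
(b) Let `V` be real with `V Vᵀ = Im τ`, `O` orthogonal, `U = T O⁻¹ V⁻¹`.  Approximating `U` and
`B = - U (Re τ) Uᵀ` by rational matrices and since `S τ` is closed, `act (V O) Z₀ ∈ S τ` for the
four `Z₀` of the hypothesis.
(c) Let `N` be the real subspace of all `Z` in `Ten` such that `act V Z ∈ S τ` for all symmetric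
`τ` with `Im τ` positive definite and all real `V` with `V Vᵀ = Im τ`.  It contains the four `Z₀`
and is stable under `act O`, `O` real orthogonal.
(d) `N` is stable under `act (diag (exp (i θ), 1))`.  Let `Z ∈ N`, `C = diag (c, 0)`,
`k = (C + i) (C ^ 2 + 1) ^ (-1/2) = i diag (exp (i θ), 1)` (`exp (iθ) = (c + i) / (i √(c ^ 2 + 1))`).
Put `X₁ = V C Vᵀ`; then
`Im (- (X₁ + i V Vᵀ)⁻¹) = W Wᵀ`, `W = V⁻ᵀ (C ^ 2 + 1) ^ (-1/2)`, and `(X₁ + i V Vᵀ) W = V k`.  For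
rational symmetric `B → X₁ - Re τ` we have `act (τ + B) (act W_B Z) ∈ S (τ + B) = S τ` where
`W_B W_Bᵀ = Im (-(τ + B)⁻¹)`, `W_B → W` (for `C_B = V⁻¹ (Re τ + B) V⁻ᵀ` take for instance
`W_B = V⁻ᵀ (Cholesky or any continuous square root of (C_B ^ 2 + 1)⁻¹)`), so the limit
`act V (act k Z)` is in `S τ`.  Finally `act (i) = 1`, and iterate to get all `θ`.
(e) `N` contains `TenH`: let `σ₁ = !![0, 1; 1, 0]`, `σ₂ = !![0, -i; i, 0]`, `σ₃ = !![1, 0; 0, -1]`.
A rotation by 45 degrees sends `σ₁` to `± σ₃`, and `diag (i, 1)` sends `σ₁` to `± σ₂`, so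
`s2 σ_a 1 ∈ N` for all `a`, and `s2 1 1 ∈ N`.  By its symmetries
`X = x₀ s2 1 1 + x₃ s2 1 σ₃ + α s2 σ₁ σ₁ + β s2 σ₂ σ₂ + γ s2 σ₃ σ₃` with
`α - β = X 1 0 1 0 / 2 * …  ≠ 0` and `α + β + γ ≠ 0` (a nonzero multiple of
`4 * X 0 1 1 0 + X 0 0 0 0 + X 1 1 1 1 - 2 * X 0 0 1 1`).  So
`α s2 σ₁ σ₁ + β s2 σ₂ σ₂ + γ s2 σ₃ σ₃ ∈ N`; applying `diag (i, 1)` exchanges `σ₁`, `σ₂` (up to
sign), so `s2 σ₁ σ₁ - s2 σ₂ σ₂ ∈ N`, and with the rotations (45 degrees exchanges `σ₁`, `σ₃`; and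
the rotations by half of these angles) all `s2 σ_a σ_b`, `a ≠ b`, and all
`s2 σ_a σ_a - s2 σ_b σ_b` are in `N`; hence all `s2 σ_a σ_a`.  As `ee i k * ee j l` is a
combination of `s2 1 1` and the `s2 σ_a σ_a` also `(0, 1) ∈ N`. -/
def S_GRP2 : Prop :=
  ∀ S : AddSubgroup (Fin 2 → ℂ) → Submodule ℝ Ten,
    (∀ (Λ' Λ : AddSubgroup (Fin 2 → ℂ)) (g : Matrix (Fin 2) (Fin 2) ℂ),
      (∀ v ∈ Λ', g.mulVec v ∈ Λ) → ∀ Z ∈ S Λ', act g Z ∈ S Λ) →
    ∀ (T : Matrix (Fin 2) (Fin 2) ℝ) (X : Fin 2 → Fin 2 → Fin 2 → Fin 2 → ℝ), T.det ≠ 0 →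
    (∀ i j k l, X i j k l = X k l i j) → (∀ i j k l, X i j k l = X j i l k) →
    (∀ i j k l : Fin 2, Odd ((i : ℕ) + j + k + l) → X i j k l = 0) → X 1 0 1 0 ≠ 0 →
    4 * X 0 1 1 0 + X 0 0 0 0 + X 1 1 1 1 - 2 * X 0 0 1 1 ≠ 0 →
    (∀ Z₀ ∈ ({(s2 1 1, 0), (s2 !![0, 1; 1, 0] 1, 0), (fun i j k l => (X i j k l : ℂ), 0),
        (fun i j k l => 2 * (ee i k * ee j l), 1)} : Set Ten), ∀ V ∈ 𝓝 (act (toC T) Z₀),
      ∀ᶠ τ in 𝓝 (Complex.I • toC (T * T.transpose)), τ.IsSymm → ∃ Z ∈ S (Lat τ), Z ∈ V) →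
    ∀ τ : Matrix (Fin 2) (Fin 2) ℂ, τ.IsSymm → (τ.map Complex.im).PosDef →
      ∀ Z ∈ TenH, Z ∈ S (Lat τ)

end Pool.Agent.H840.KP
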