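import Pool.Agent.H840.KP.Stm
set_option autoImplicit false

/-!
# S_LIN (proof by helper722)
-/

open Complex Matrix

open scoped ComplexConjugate

namespace Pool.Agent.H840.KP.Lin

open Pool.Agent.H840.KP

variable {n : ℕ}

abbrev MM (n : ℕ) := Matrix (Fin n × Fin n) (Fin n × Fin n) ℂ

/-- polarisation of `rk` -/
noncomputable def hh (x y : Fin n × Fin n → ℂ) : MM n :=
  Matrix.of fun I J => x I * conj (y J) + y I * conj (x J)

noncomputable def EE (i j : Fin n) : Fin n × Fin n → ℂ := wd (Pi.single i 1) (Pi.single j 1)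

noncomputable def FF (ζ : ℂ) (i j k l : Fin n) : MM n := hh (ζ • EE i j) (EE k l)

theorem EE_swap (i j : Fin n) : EE j i = - EE i j := by
  funext I
  simp only [EE, wd, Pi.neg_apply]; ring

theorem EE_real (i j : Fin n) (I : Fin n × Fin n) : conj (EE i j I) = EE i j I := by
  simp only [EE, wd, map_sub, map_mul]
  have h : ∀ a b : Fin n, conj ((Pi.single a (1 : ℂ) : Fin n → ℂ) b) =
      (Pi.single a (1 : ℂ) : Fin n → ℂ) b := by
    intro a b
    rw [Pi.single_apply]
    split <;> simp
  rw [h, h, h, h]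

theorem FF_apply (ζ : ℂ) (i j k l : Fin n) (I J : Fin n × Fin n) :
    FF ζ i j k l I J = ζ * EE i j I * EE k l J + conj ζ * EE k l I * EE i j J := by
  simp only [FF, hh, Matrix.of_apply, Pi.smul_apply, smul_eq_mul, map_mul, EE_real]
  ring

theorem FF_swap1 (ζ : ℂ) (i j k l : Fin n) : FF ζ j i k l = - FF ζ i j k l := by
  ext I J
  rw [Matrix.neg_apply, FF_apply, FF_apply, EE_swap i j]
  simp only [Pi.neg_apply]; ring

theorem FF_swap2 (ζ : ℂ) (i j k l : Fin n) : FF ζ i j l k = - FF ζ i j k l := by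
  ext I J
  rw [Matrix.neg_apply, FF_apply, FF_apply, EE_swap k l]
  simp only [Pi.neg_apply]; ring

theorem FF_conj (ζ : ℂ) (i j k l : Fin n) : FF ζ k l i j = FF (conj ζ) i j k l := by
  ext I J
  rw [FF_apply, FF_apply, Complex.conj_conj]
  ring

theorem FF_add (ζ ξ : ℂ) (i j k l : Fin n) : FF (ζ + ξ) i j k l = FF ζ i j k l + FF ξ i j k l := by
  ext I J
  rw [Matrix.add_apply, FF_apply, FF_apply, FF_apply, map_add]
  ring

theorem FF_smul (r : ℝ) (ζ : ℂ) (i j k l : Fin n) : FF (r * ζ) i j k l = r • FF ζ i j k l := by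
  ext I J
  rw [Matrix.smul_apply, FF_apply, FF_apply, map_mul, Complex.conj_ofReal, Complex.real_smul]
  ring

theorem sum_EE (x : Fin n × Fin n → ℂ) (hx : ∀ i j, x (i, j) = - x (j, i)) (I : Fin n × Fin n) :
    ∑ i, ∑ j, x (i, j) * EE i j I = 2 * x I := by
  obtain ⟨a, b⟩ := I
  have h1 : ∀ i j : Fin n, x (i, j) * EE i j (a, b) =
      (if i = a then (if j = b then x (i, j) else 0) else 0) -
      (if i = b then (if j = a then x (i, j) else 0) else 0) := by
    intro i j
    have e : ∀ p q : Fin n, (Pi.single p (1 : ℂ) : Fin n → ℂ) q = if p = q then 1 else 0 := by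
      intro p q
      rw [Pi.single_apply]
      exact if_congr eq_comm rfl rfl
    simp only [EE, wd, e]
    split_ifs <;> ring
  simp only [h1, Finset.sum_sub_distrib, Finset.sum_ite_eq', Finset.mem_univ, if_true,
    Finset.sum_ite_irrel, Finset.sum_const_zero]
  rw [hx b a]; ring

/-- decomposition of the elements of `H22` -/
theorem decomp (Z : MM n) (hZ : Z ∈ H22 (Fin n)) :
    Z = (1 / 8 : ℝ) • ∑ i, ∑ j, ∑ k, ∑ l, FF (Z (i, j) (k, l)) i j k l := by
  obtain ⟨hH, hA⟩ := hZ
  have hH' : ∀ I J, conj (Z J I) = Z I J := fun I J => hH.apply I J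
  have hA' : ∀ I k l, Z I (k, l) = - Z I (l, k) := by
    intro I k l
    rw [← hH' I (k, l), hA k l I, map_neg, hH']
  ext I J
  rw [Matrix.smul_apply, Matrix.sum_apply]
  simp only [Matrix.sum_apply, FF_apply]
  have h1 : ∑ i, ∑ j, ∑ k, ∑ l, (Z (i, j) (k, l) * EE i j I * EE k l J +
      conj (Z (i, j) (k, l)) * EE k l I * EE i j J) = 8 * Z I J := by
    have e1 : ∀ I' : Fin n × Fin n, ∑ k, ∑ l, Z I' (k, l) * EE k l J = 2 * Z I' J := fun I' =>
      sum_EE (fun K => Z I' K) (fun i j => hA' I' i j) J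
    have e2 : ∑ i, ∑ j, (Z (i, j) J) * EE i j I = 2 * Z I J :=
      sum_EE (fun K => Z K J) (fun i j => hA i j J) I
    have e3 : ∀ I' : Fin n × Fin n, ∑ k, ∑ l, conj (Z I' (k, l)) * EE k l I = 2 * Z I I' := by
      intro I'
      have := sum_EE (fun K => Z K I') (fun i j => hA i j I') I
      simp only [hH']
      exact this
    have e4 : ∑ i, ∑ j, (Z I (i, j)) * EE i j J = 2 * Z I J :=
      sum_EE (fun K => Z I K) (fun i j => hA' I i j) J
    calc ∑ i, ∑ j, ∑ k, ∑ l, (Z (i, j) (k, l) * EE i j I * EE k l J +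
          conj (Z (i, j) (k, l)) * EE k l I * EE i j J)
        = ∑ i, ∑ j, ((∑ k, ∑ l, Z (i, j) (k, l) * EE k l J) * EE i j I +
          (∑ k, ∑ l, conj (Z (i, j) (k, l)) * EE k l I) * EE i j J) := by
          refine Finset.sum_congr rfl fun i _ => Finset.sum_congr rfl fun j _ => ?_
          rw [Finset.sum_mul, Finset.sum_mul, ← Finset.sum_add_distrib]
          refine Finset.sum_congr rfl fun k _ => ?_
          rw [Finset.sum_mul, Finset.sum_mul, ← Finset.sum_add_distrib]
          refine Finset.sum_congr rfl fun l _ => ?_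
          ring
      _ = 4 * Z I J + 4 * Z I J := by
          simp only [e1, e3, Finset.sum_add_distrib]
          congr 1
          · have : ∀ i j : Fin n, 2 * Z (i, j) J * EE i j I = 2 * (Z (i, j) J * EE i j I) :=
              fun i j => by ring
            simp only [this, ← Finset.mul_sum, e2]
            ring
          · have : ∀ i j : Fin n, 2 * Z I (i, j) * EE i j J = 2 * (Z I (i, j) * EE i j J) :=
              fun i j => by ring
            simp only [this, ← Finset.mul_sum, e4]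
            ring
      _ = _ := by ring
  rw [h1, Complex.real_smul]
  push_cast
  ring

theorem s_LIN : Pool.Agent.H840.KP.S_LIN := by
  intro n W hW1 hW2
  -- the basic elements
  have hG : ∀ (a c : Fin n) (ζ : ℂ) (w : Fin n → ℤ),
      hh (ζ • wd (Pi.single a 1) (fun i => (w i : ℂ))) (wd (Pi.single c 1) (fun i => (w i : ℂ)))
        ∈ W := by
    intro a c ζ w
    have h := W.sub_mem (W.sub_mem (hW1 a c ζ 1 w) (hW1 a c ζ 0 w)) (hW1 a c 0 1 w)
    have e : rk (wd (Pi.single a ζ + Pi.single c 1) (fun i => (w i : ℂ))) -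
        rk (wd (Pi.single a ζ + Pi.single c 0) (fun i => (w i : ℂ))) -
        rk (wd (Pi.single a 0 + Pi.single c 1) (fun i => (w i : ℂ))) =
        hh (ζ • wd (Pi.single a 1) (fun i => (w i : ℂ))) (wd (Pi.single c 1)
          (fun i => (w i : ℂ))) := by
      have h0 : ∀ p, (Pi.single a ζ : Fin n → ℂ) p = ζ * (Pi.single a 1 : Fin n → ℂ) p := by
        intro p
        rw [Pi.single_apply, Pi.single_apply]
        split <;> simp
      have h1 : (fun I J : Fin n × Fin n => ((0 : ℂ))) = fun I J => 0 := rfl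
      ext I J
      simp only [rk, hh, wd, Matrix.sub_apply, Matrix.of_apply, Pi.add_apply, Pi.single_zero,
        Pi.zero_apply, h0, Pi.smul_apply, smul_eq_mul, map_sub, map_mul, map_add, map_zero,
        map_intCast]
      ring
    rwa [e] at h
  have hF1 : ∀ (ζ : ℂ) (a b c d : Fin n), FF ζ a b c d + FF ζ a d c b ∈ W := by
    intro ζ a b c d
    have h := W.sub_mem (W.sub_mem (hG a c ζ (Pi.single b 1 + Pi.single d 1))
      (hG a c ζ (Pi.single b 1))) (hG a c ζ (Pi.single d 1))
    have h0 : ∀ p q : Fin n, (((Pi.single p 1 : Fin n → ℤ) q : ℤ) : ℂ) =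
        (Pi.single p 1 : Fin n → ℂ) q := by
      intro p q
      rw [Pi.single_apply, Pi.single_apply]
      split <;> simp
    have e : hh (ζ • wd (Pi.single a 1) (fun i => (((Pi.single b 1 + Pi.single d 1 :
          Fin n → ℤ) i : ℤ) : ℂ))) (wd (Pi.single c 1) (fun i => (((Pi.single b 1 + Pi.single d 1 :
          Fin n → ℤ) i : ℤ) : ℂ))) -
        hh (ζ • wd (Pi.single a 1) (fun i => (((Pi.single b 1 :
          Fin n → ℤ) i : ℤ) : ℂ))) (wd (Pi.single c 1) (fun i => (((Pi.single b 1 :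
          Fin n → ℤ) i : ℤ) : ℂ))) -
        hh (ζ • wd (Pi.single a 1) (fun i => (((Pi.single d 1 :
          Fin n → ℤ) i : ℤ) : ℂ))) (wd (Pi.single c 1) (fun i => (((Pi.single d 1 :
          Fin n → ℤ) i : ℤ) : ℂ))) = FF ζ a b c d + FF ζ a d c b := by
      ext I J
      simp only [FF, EE, hh, wd, Matrix.sub_apply, Matrix.add_apply, Matrix.of_apply,
        Pi.add_apply, Pi.smul_apply, smul_eq_mul, map_sub, map_mul, Int.cast_add, h0, map_add]
      ring
    rwa [e] at h
  set π : MM n →ₗ[ℝ] (MM n ⧸ W) := W.mkQ with hπ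
  have hπ0 : ∀ Z : MM n, π Z = 0 ↔ Z ∈ W := fun Z => Submodule.Quotient.mk_eq_zero W
  have A1 : ∀ (ζ : ℂ) (i j k l : Fin n), π (FF ζ j i k l) = - π (FF ζ i j k l) := by
    intro ζ i j k l
    rw [FF_swap1, map_neg]
  have A2 : ∀ (ζ : ℂ) (i j k l : Fin n), π (FF ζ i j l k) = - π (FF ζ i j k l) := by
    intro ζ i j k l
    rw [FF_swap2, map_neg]
  have A3 : ∀ (ζ : ℂ) (i j k l : Fin n), π (FF ζ i l k j) = - π (FF ζ i j k l) := by
    intro ζ i j k l
    rw [eq_neg_iff_add_eq_zero, ← map_add, hπ0, add_comm]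
    exact hF1 ζ i j k l
  have A4 : ∀ (ζ : ℂ) (i j k l : Fin n), π (FF (conj ζ) i j k l) = π (FF ζ i j k l) := by
    intro ζ i j k l
    rw [← FF_conj, A3 ζ k j i l, A1 ζ j k i l, A2 ζ j k l i, A3 ζ j i l k, A1 ζ i j l k,
      A2 ζ i j k l]
    simp only [neg_neg]
  have A5 : ∀ (ζ : ℂ) (i j k l : Fin n), π (FF ζ i j k l) = ζ.re • π (FF 1 i j k l) := by
    intro ζ i j k l
    have h1 : π (FF ζ i j k l) + π (FF (conj ζ) i j k l) = (2 * ζ.re) • π (FF 1 i j k l) := by
      rw [← map_add, ← FF_add, Complex.add_conj, ← map_smul, ← FF_smul, mul_one]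
    rw [A4, ← two_smul ℝ, mul_smul] at h1
    exact smul_right_injective _ (two_ne_zero' ℝ) h1
  -- the alternating form
  let u : Fin n → Fin n → Fin n → Fin n → (MM n ⧸ W) := fun i j k l => π (FF 1 i j k l)
  have B1 : ∀ i j k l, u j i k l = - u i j k l := fun i j k l => A1 1 i j k l
  have B2 : ∀ i j k l, u i j l k = - u i j k l := fun i j k l => A2 1 i j k l
  have B3 : ∀ i j k l, u i l k j = - u i j k l := fun i j k l => A3 1 i j k l
  have B4 : ∀ i j k l, u i k j l = - u i j k l := by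
    intro i j k l
    rw [B2 i k l j, B3 i j l k, B2 i j k l]
    simp
  have Z0 : ∀ x : MM n ⧸ W, x = -x → x = 0 := by
    intro x hx
    have h1 : (2 : ℝ) • x = 0 := by
      rw [two_smul]
      nth_rewrite 2 [hx]
      exact add_neg_cancel x
    exact (smul_eq_zero.1 h1).resolve_left two_ne_zero
  have C1 : ∀ i k l, u i i k l = 0 := fun i k l => Z0 _ (B1 i i k l)
  have C2 : ∀ i j k, u i j k k = 0 := fun i j k => Z0 _ (B2 i j k k)
  have C3 : ∀ i j k, u i j k j = 0 := fun i j k => Z0 _ (B3 i j k j)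
  have C4 : ∀ i j l, u i j j l = 0 := fun i j l => Z0 _ (B4 i j j l)
  have C5 : ∀ i j l, u i j i l = 0 := fun i j l => by rw [B1 j i i l, C4, neg_zero]
  have C6 : ∀ i j k, u i j k i = 0 := fun i j k => by rw [B1 j i k i, C3, neg_zero]
  have hsum : ∀ Z ∈ H22 (Fin n), (8 : ℝ) • π Z =
      ∑ i, ∑ j, ∑ k, ∑ l, (Z (i, j) (k, l)).re • u i j k l := by
    intro Z hZ
    have h1 := congrArg π (decomp Z hZ)
    rw [map_smul] at h1
    simp only [map_sum, A5 (Z _ _)] at h1
    rw [h1, smul_smul, show (8 : ℝ) * (1 / 8) = 1 by norm_num, one_smul]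
  have hu : ∀ a b c d : Fin n, u a b c d = 0 := by
    intro a b c d
    by_cases hab : a = b
    · rw [hab]; exact C1 _ _ _
    by_cases hac : a = c
    · rw [hac]; exact C5 _ _ _
    by_cases had : a = d
    · rw [had]; exact C6 _ _ _
    by_cases hbc : b = c
    · rw [hbc]; exact C4 _ _ _
    by_cases hbd : b = d
    · rw [hbd]; exact C3 _ _ _
    by_cases hcd : c = d
    · rw [hcd]; exact C2 _ _ _
    obtain ⟨Z, hZW, hZ, hsupp, ht⟩ := hW2 a b c d hab hac had hbc hbd hcd
    have h1 := hsum Z hZ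
    rw [(hπ0 Z).2 hZW, smul_zero] at h1
    obtain ⟨hH, hA⟩ := hZ
    have hH' : ∀ I J, (Z J I).re = (Z I J).re := fun I J => by
      rw [← hH.apply I J, Complex.star_def, Complex.conj_re]
    have s1 : ∀ i j J, (Z (j, i) J).re = -(Z (i, j) J).re := by
      intro i j J
      rw [hA j i J, Complex.neg_re]
    have s2' : ∀ I k l, (Z I (l, k)).re = -(Z I (k, l)).re := by
      intro I k l
      rw [hH' (l, k) I, s1 k l I, hH']
    let f : Fin 4 → Fin n := ![a, b, c, d]
    have hf : Function.Injective f := by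
      intro p q
      fin_cases p <;> fin_cases q <;> simp [f, hab, hac, had, hbc, hbd, hcd, Ne.symm hab,
        Ne.symm hac, Ne.symm had, Ne.symm hbc, Ne.symm hbd, Ne.symm hcd]
    have hr : ∀ i ∉ Set.range f, i ∉ ({a, b, c, d} : Set (Fin n)) := by
      intro i hi h
      apply hi
      rcases h with h | h | h | h
      · exact ⟨0, h.symm⟩
      · exact ⟨1, h.symm⟩
      · exact ⟨2, h.symm⟩
      · exact ⟨3, h.symm⟩
    have z1 : ∀ i ∉ Set.range f, ∀ j k l, Z (i, j) (k, l) = 0 := by
      intro i hi j k l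
      by_contra h
      exact hr i hi (hsupp i j k l h).1
    have z2 : ∀ j ∉ Set.range f, ∀ i k l, Z (i, j) (k, l) = 0 := by
      intro i hi j k l
      by_contra h
      exact hr i hi (hsupp _ _ _ _ h).2.1
    have z3 : ∀ k ∉ Set.range f, ∀ i j l, Z (i, j) (k, l) = 0 := by
      intro i hi j k l
      by_contra h
      exact hr i hi (hsupp _ _ _ _ h).2.2.1
    have z4 : ∀ l ∉ Set.range f, ∀ i j k, Z (i, j) (k, l) = 0 := by
      intro i hi j k l
      by_contra h
      exact hr i hi (hsupp _ _ _ _ h).2.2.2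
    have h2 : ∑ i, ∑ j, ∑ k, ∑ l, (Z (i, j) (k, l)).re • u i j k l =
        ∑ p, ∑ q, ∑ r, ∑ s, (Z (f p, f q) (f r, f s)).re • u (f p) (f q) (f r) (f s) := by
      symm
      refine Fintype.sum_of_injective f hf _ _ (fun i hi => ?_) (fun p => ?_)
      · simp [z1 i hi]
      refine Fintype.sum_of_injective f hf _ _ (fun i hi => ?_) (fun q => ?_)
      · simp [z2 i hi]
      refine Fintype.sum_of_injective f hf _ _ (fun i hi => ?_) (fun r => ?_)
      · simp [z3 i hi]
      refine Fintype.sum_of_injective f hf _ _ (fun i hi => ?_) (fun s => rfl)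
      · simp [z4 i hi]
    rw [h2] at h1
    have f0 : f 0 = a := rfl
    have f1 : f 1 = b := rfl
    have f2 : f 2 = c := rfl
    have f3 : f 3 = d := rfl
    simp only [Fin.sum_univ_four, f0, f1, f2, f3, C1, C2, C3, C4, C5, C6, smul_zero, add_zero,
      zero_add] at h1
    -- sort the indices
    have u1 : u a b d c = - u a b c d := B2 a b c d
    have u2 : u a c b d = - u a b c d := B4 a b c d
    have u3 : u a c d b = u a b c d := by rw [B2 a c b d, u2, neg_neg]
    have u4 : u a d b c = u a b c d := by rw [B4 a b d c, u1, neg_neg]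
    have u5 : u a d c b = - u a b c d := B3 a b c d
    have u6 : u b a c d = - u a b c d := B1 a b c d
    have u7 : u b a d c = u a b c d := by rw [B1 a b d c, u1, neg_neg]
    have u8 : u b c a d = u a b c d := by rw [B4 b a c d, u6, neg_neg]
    have u9 : u b c d a = - u a b c d := by rw [B2 b c a d, u8]
    have u10 : u b d a c = - u a b c d := by rw [B4 b a d c, u7]
    have u11 : u b d c a = u a b c d := by rw [B2 b d a c, u10, neg_neg]
    have u12 : u c a b d = u a b c d := by rw [B1 a c b d, u2, neg_neg]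
    have u13 : u c a d b = - u a b c d := by rw [B1 a c d b, u3]
    have u14 : u c b a d = - u a b c d := by rw [B1 b c a d, u8]
    have u15 : u c b d a = u a b c d := by rw [B1 b c d a, u9, neg_neg]
    have u16 : u c d a b = u a b c d := by rw [B4 c a d b, u13, neg_neg]
    have u17 : u c d b a = - u a b c d := by rw [B4 c b d a, u15]
    have u18 : u d a b c = - u a b c d := by rw [B1 a d b c, u4]
    have u19 : u d a c b = u a b c d := by rw [B1 a d c b, u5, neg_neg]
    have u20 : u d b a c = u a b c d := by rw [B1 b d a c, u10, neg_neg]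
    have u21 : u d b c a = - u a b c d := by rw [B1 b d c a, u11]
    have u22 : u d c a b = - u a b c d := by rw [B1 c d a b, u16]
    have u23 : u d c b a = u a b c d := by rw [B1 c d b a, u17, neg_neg]
    rw [u1, u2, u3, u4, u5, u6, u7, u8, u9, u10, u11, u12, u13, u14, u15, u16, u17, u18, u19, u20,
      u21, u22, u23] at h1
    rw [s2' (a, b) c d, s2' (a, c) b d, s2' (a, d) b c, s1 a b (c, d), s1 a b (d, c), s2' (a, b) c d,
      s1 a c (b, d), s1 a c (d, b), s2' (a, c) b d, s1 a d (b, c), s1 a d (c, b), s2' (a, d) b c]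
      at h1
    have t1 : (Z (c, d) (a, b)).re = (Z (a, b) (c, d)).re := hH' _ _
    have t2 : (Z (b, d) (a, c)).re = (Z (a, c) (b, d)).re := hH' _ _
    have t3 : (Z (b, c) (a, d)).re = (Z (a, d) (b, c)).re := hH' _ _
    have t4 : (Z (c, d) (b, a)).re = -(Z (a, b) (c, d)).re := by rw [s2', t1]
    have t5 : (Z (b, d) (c, a)).re = -(Z (a, c) (b, d)).re := by rw [s2', t2]
    have t6 : (Z (b, c) (d, a)).re = -(Z (a, d) (b, c)).re := by rw [s2', t3]
    have t7 : (Z (d, c) (a, b)).re = -(Z (a, b) (c, d)).re := by rw [s1, t1]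
    have t8 : (Z (d, b) (a, c)).re = -(Z (a, c) (b, d)).re := by rw [s1, t2]
    have t9 : (Z (c, b) (a, d)).re = -(Z (a, d) (b, c)).re := by rw [s1, t3]
    have t10 : (Z (d, c) (b, a)).re = (Z (a, b) (c, d)).re := by rw [s1, t4, neg_neg]
    have t11 : (Z (d, b) (c, a)).re = (Z (a, c) (b, d)).re := by rw [s1, t5, neg_neg]
    have t12 : (Z (c, b) (d, a)).re = (Z (a, d) (b, c)).re := by rw [s1, t6, neg_neg]
    rw [t1, t2, t3, t4, t5, t6, t7, t8, t9, t10, t11, t12] at h1
    have h3 : (8 * (Z (a, b) (c, d) - Z (a, c) (b, d) + Z (a, d) (b, c)).re) • u a b c d = 0 := by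
      rw [Complex.add_re, Complex.sub_re]
      rw [h1]
      module
    exact (smul_eq_zero.1 h3).resolve_left (mul_ne_zero (by norm_num) ht)
  intro Z hZ
  have h1 := hsum Z hZ
  simp only [hu, smul_zero, Finset.sum_const_zero] at h1
  rw [← hπ0]
  exact (smul_eq_zero.1 h1).resolve_left (by norm_num)

end Pool.Agent.H840.KP.Lin
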