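import Pool.Agent.H840.KP.Fin
import Pool.Agent.H307.KP.Int2
import Pool.Agent.H585.KP.ENE
import Pool.Agent.H585.KP.Sgx
import Pool.Agent.H766.KP.Inv
import Pool.Agent.H766.KP.Per
import Pool.Agent.H840.KP.Lin
set_option autoImplicit false

/-!
# The theorems without hypotheses
-/

open scoped Matrix ComplexOrder

namespace Pool.Agent.H840.KP

theorem pow_main (Λ : AddSubgroup ℂ) (hspan : Submodule.span ℝ (Λ : Set ℂ) = ⊤) (n : ℕ) :
    closure (Submodule.span ℚ {Z : Matrix (Fin n × Fin n) (Fin n × Fin n) ℂ |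
      ∃ D : PChain (powE Λ n), D.reg = Z} :
        Set (Matrix (Fin n × Fin n) (Fin n × Fin n) ℂ)) = H22 (Fin n) :=
  powE_main Pool.Agent.H307.KP.t_INT2 Pool.Agent.H585.KP.ene Lin.s_LIN Λ hspan n

theorem square_main (Λ : AddSubgroup (Fin 2 → ℂ)) (H : Matrix (Fin 2) (Fin 2) ℂ) (hH : H.PosDef)
    (hspan : Submodule.span ℝ (Λ : Set (Fin 2 → ℂ)) = ⊤)
    (hint : ∀ u ∈ Λ, ∀ v ∈ Λ, ∃ k : ℤ, (star u ⬝ᵥ H.mulVec v).im = k) :
    closure (Submodule.span ℚ {Z : Ten | ∃ D : PChain (sqA Λ), cp D.reg = Z} : Set Ten) =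
      cp '' H22 (Fin 2 × Fin 2) :=
  sq_main Pool.Agent.H307.KP.t_INT2 Pool.Agent.H307.KP.t_CNT2 Pool.Agent.H585.KP.ene
    Pool.Agent.H585.KP.Sgx.sgx Pool.Agent.H766.KP.inv_sub Pool.Agent.H766.KP.per
    Pool.Agent.H722.GRP2.s_GRP2 Λ H hH hspan hint

end Pool.Agent.H840.KP
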