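import Pool.Agent.H840.KP.Thr
import Pool.Agent.H840.KP.All
import Pool.Agent.H722.GRP2.Main
import Pool.Agent.H103.KP.Lin2
set_option autoImplicit false

/-!
# The theorem for the product of the squares of two elliptic curves, without hypotheses
-/

namespace Pool.Agent.H840.KP

theorem two_final (Λ : Fin 2 → AddSubgroup ℂ)
    (hΛ : ∀ i, Submodule.span ℝ (Λ i : Set ℂ) = ⊤) :
    closure (Submodule.span ℚ ({Z | ∃ D : PChain (sqA (prE Λ)), D.reg = Z} ∪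
      {Z | ∃ D : RChain (sqA (prE Λ)), D.reg = Z}) :
      Set (Matrix ((Fin 2 × Fin 2) × (Fin 2 × Fin 2)) ((Fin 2 × Fin 2) × (Fin 2 × Fin 2)) ℂ)) =
    H22 (Fin 2 × Fin 2) :=
  two_main Pool.Agent.H307.KP.t_INT2 Pool.Agent.H307.KP.t_CNT2 Pool.Agent.H585.KP.ene
    Pool.Agent.H585.KP.Sgx.sgx Pool.Agent.H766.KP.inv_sub Pool.Agent.H766.KP.per
    Pool.Agent.H722.GRP2.s_GRP2 Pool.Agent.H103.KP.s_LIN2 Λ hΛ

end Pool.Agent.H840.KP
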