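import Mathlib
set_option autoImplicit false

/-!
# The closure of a rational span
-/

open Filter Topology Set

namespace Pool.Agent.H840.KP

variable {E : Type*} [AddCommGroup E] [Module ℝ E] [Module ℚ E] [TopologicalSpace E]
  [IsTopologicalAddGroup E] [ContinuousSMul ℝ E]

/-- The closure of the rational span contains the real span. -/
theorem mem_closure_span {s : Set E} {Z : E} (hZ : Z ∈ Submodule.span ℝ s) :
    Z ∈ closure (Submodule.span ℚ s : Set E) := by
  have hadd : ∀ a ∈ closure (Submodule.span ℚ s : Set E),
      ∀ b ∈ closure (Submodule.span ℚ s : Set E),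
      a + b ∈ closure (Submodule.span ℚ s : Set E) := by
    intro a ha b hb
    have := (Submodule.span ℚ s).toAddSubgroup.topologicalClosure.add_mem (x := a) (y := b) ha hb
    exact this
  have hq : ∀ (q : ℚ), ∀ a ∈ closure (Submodule.span ℚ s : Set E),
      ((q : ℝ)) • a ∈ closure (Submodule.span ℚ s : Set E) := by
    intro q a ha
    have hcont : Continuous fun x : E => (q : ℝ) • x := continuous_const_smul _
    have h1 := image_closure_subset_closure_image hcont ⟨a, ha, rfl⟩
    refine closure_mono ?_ h1
    rintro _ ⟨x, hx, rfl⟩
    have h2 := (Submodule.span ℚ s).smul_mem q hx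
    simp only
    rw [Rat.cast_smul_eq_qsmul ℝ q x]
    exact h2
  refine Submodule.span_induction (p := fun Z _ => Z ∈ closure
    (Submodule.span ℚ s : Set E)) ?_ ?_ ?_ ?_ hZ
  · intro x hx
    exact subset_closure (Submodule.subset_span hx)
  · exact subset_closure (zero_mem _)
  · intro a b _ _ ha hb
    exact hadd a ha b hb
  · intro r a _ ha
    have hclosed : IsClosed {t : ℝ | t • a ∈ closure (Submodule.span ℚ s : Set E)} := by
      have : Continuous fun t : ℝ => t • a := continuous_id.smul continuous_const
      exact isClosed_closure.preimage this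
    have hdense : Dense {t : ℝ | t • a ∈ closure (Submodule.span ℚ s : Set E)} := by
      refine Rat.denseRange_cast.mono ?_
      rintro _ ⟨q, rfl⟩
      exact hq q a ha
    have := hdense.closure_eq
    rw [hclosed.closure_eq] at this
    have h5 : r ∈ {t : ℝ | t • a ∈ closure (Submodule.span ℚ s : Set E)} := by
      rw [this]; exact mem_univ r
    exact h5

/-- The closure of the rational span is a closed real subspace. -/
theorem closure_span_eq {s : Set E} (W : Submodule ℝ E) (hW : IsClosed (W : Set E))
    (h1 : s ⊆ W) (h2 : ∀ Z ∈ W, Z ∈ Submodule.span ℝ s) :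
    closure (Submodule.span ℚ s : Set E) = W := by
  apply Subset.antisymm
  · refine closure_minimal ?_ hW
    intro Z hZ
    refine Submodule.span_induction (p := fun Z _ => Z ∈ W) ?_ ?_ ?_ ?_ hZ
    · intro x hx; exact h1 hx
    · exact zero_mem _
    · intro a b _ _ ha hb; exact add_mem ha hb
    · intro q a _ ha
      rw [← Rat.cast_smul_eq_qsmul ℝ q a]
      exact W.smul_mem _ ha
  · intro Z hZ
    exact mem_closure_span (h2 Z hZ)

end Pool.Agent.H840.KP
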