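import Pool.Agent.H840.KP.Stm
import Pool.Agent.H840.AS.EZ
import Pool.Agent.H840.AS.Phi
set_option autoImplicit false

/-!
# The periods at `e0`
-/

open Complex Filter Topology MeasureTheory Set Matrix

open scoped ComplexConjugate

namespace Pool.Agent.H840.KP

open Pool.Agent.H840.AS

/-- The data at `e0`. -/
theorem data2 (hP : S_PER) : ∃ (m : Matrix (Fin 2) (Fin 2) ℝ) (lam : ℝ), 0 < lam ∧
    m.det ≠ 0 ∧ Mt e0 = -I • toC m ∧
    Tm e0 = I • toC ((lam • (m * !![1, 0; 0, Real.sqrt 2])) *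
      (lam • (m * !![1, 0; 0, Real.sqrt 2]))ᵀ) := by
  obtain ⟨a₀, a₁, b₀, b₁, ha₀, ha₁, hb₀, hb₁, h02, h12, h03, h13, h01, h11, h04, h14⟩ := Cc_e0
  have hI : I * I = -1 := I_mul_I
  set δ : ℝ := b₀ * a₁ + a₀ * b₁ with hδ
  have hδ0 : 0 < δ := by positivity
  have hδc : (δ : ℂ) ≠ 0 := by exact_mod_cast hδ0.ne'
  have hdet : (Am e0).det = 4 * δ := by
    rw [det_Am, h03, h13, h01, h11, hδ]
    push_cast
    linear_combination (-4 * (b₀ * a₁ + a₀ * b₁ : ℂ)) * hI
  have hsym := Tm_symm near_e0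
  have hT : Tm e0 = I • toC !![2 * a₀ * a₁ / δ, (a₁ * (a₀ - b₀) + a₀ * (a₁ + b₁)) / δ;
      (b₀ * a₁ - a₀ * b₁) / δ, (b₀ * (a₁ + b₁) - b₁ * (a₀ - b₀)) / δ] := by
    rw [Tm_eq, hdet, h02, h12, h03, h13, h01, h11, h04, h14]
    ext i j
    fin_cases i <;> fin_cases j <;> simp [toC] <;> field_simp <;> ring_nf
  have hY : a₁ * (a₀ - b₀) + a₀ * (a₁ + b₁) = b₀ * a₁ - a₀ * b₁ := by
    have h1 := hsym.apply 0 1
    rw [hT] at h1
    simp [toC] at h1
    have h2 : (((a₁ * (a₀ - b₀) + a₀ * (a₁ + b₁)) / δ : ℝ) : ℂ) =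
        (((b₀ * a₁ - a₀ * b₁) / δ : ℝ) : ℂ) := by
      push_cast
      first | exact h1 | exact h1.symm
    have h3 : (a₁ * (a₀ - b₀) + a₀ * (a₁ + b₁)) / δ = (b₀ * a₁ - a₀ * b₁) / δ := by
      exact_mod_cast h2
    field_simp at h3
    linarith
  set s : ℝ := Real.sqrt 2 with hs
  have hs2 : s * s = 2 := Real.mul_self_sqrt (by norm_num)
  have hs0 : 0 < s := Real.sqrt_pos.2 (by norm_num)
  have ha : a₁ = s * a₀ := by
    have h1 : Cc e0 1 2 = -((Real.sqrt 2 : ℝ) : ℂ) * Cc e0 0 2 := hP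
    rw [h02, h12, ← hs] at h1
    have h2 : ((-2 * a₁ : ℝ) : ℂ) = ((-(s * (2 * a₀)) : ℝ) : ℂ) := by
      push_cast
      linear_combination h1
    have h3 : -2 * a₁ = -(s * (2 * a₀)) := by exact_mod_cast h2
    linarith
  have hb : s * a₀ = s * b₀ - b₁ := by
    have h1 : a₀ * (s * a₀) = a₀ * (s * b₀ - b₁) := by
      rw [ha] at hY
      linear_combination hY / 2
    exact mul_left_cancel₀ ha₀.ne' h1
  have hl : Real.sqrt (δ / s) * Real.sqrt (δ / s) = δ / s := Real.mul_self_sqrt (by positivity)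
  refine ⟨!![-a₁ / δ, a₀ / δ; b₁ / δ, b₀ / δ], Real.sqrt (δ / s),
    Real.sqrt_pos.2 (by positivity), ?_, ?_, ?_⟩
  · rw [Matrix.det_fin_two_of]
    have : -a₁ / δ * (b₀ / δ) - a₀ / δ * (b₁ / δ) = -(1 / δ) := by
      field_simp
      rw [hδ]; ring
    rw [this]
    simp [hδ0.ne']
  · rw [Mt, inv_Am, hdet, h03, h13, h01, h11]
    ext i j
    fin_cases i <;> fin_cases j <;> simp [toC] <;> field_simp <;> ring_nf
  · rw [hT]
    congr 2
    rw [Matrix.transpose_smul, Matrix.smul_mul, Matrix.mul_smul, smul_smul, hl]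
    have hb' : b₁ = s * b₀ - s * a₀ := by linarith
    have e00 : 2 * a₀ * a₁ / δ = δ / s * ((-a₁ / δ) * (-a₁ / δ) + (a₀ / δ * s) * (a₀ / δ * s)) := by
      field_simp
      rw [ha]
      linear_combination (-a₀ ^ 2 : ℝ) * hs2 + a₀ ^ 2 * hs2
    have e01 : (a₁ * (a₀ - b₀) + a₀ * (a₁ + b₁)) / δ =
        δ / s * ((-a₁ / δ) * (b₁ / δ) + (a₀ / δ * s) * (b₀ / δ * s)) := by
      field_simp
      rw [ha, hb']
      ring
    have e10 : (b₀ * a₁ - a₀ * b₁) / δ =
        δ / s * ((b₁ / δ) * (-a₁ / δ) + (b₀ / δ * s) * (a₀ / δ * s)) := by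
      field_simp
      rw [ha, hb']
      ring
    have e11 : (b₀ * (a₁ + b₁) - b₁ * (a₀ - b₀)) / δ =
        δ / s * ((b₁ / δ) * (b₁ / δ) + (b₀ / δ * s) * (b₀ / δ * s)) := by
      field_simp
      rw [ha, hb']
      ring
    ext i j
    fin_cases i <;> fin_cases j
    · rw [Matrix.smul_apply]
      simp only [Matrix.mul_apply, Fin.sum_univ_two, Matrix.transpose_apply, Matrix.of_apply,
        Matrix.cons_val_zero, Matrix.cons_val_one, Matrix.cons_val', Matrix.cons_val_fin_one,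
        Fin.zero_eta, Fin.mk_one, mul_one, mul_zero, add_zero, zero_add, smul_eq_mul]
      exact e00
    · rw [Matrix.smul_apply]
      simp only [Matrix.mul_apply, Fin.sum_univ_two, Matrix.transpose_apply, Matrix.of_apply,
        Matrix.cons_val_zero, Matrix.cons_val_one, Matrix.cons_val', Matrix.cons_val_fin_one,
        Fin.zero_eta, Fin.mk_one, mul_one, mul_zero, add_zero, zero_add, smul_eq_mul]
      exact e01
    · rw [Matrix.smul_apply]
      simp only [Matrix.mul_apply, Fin.sum_univ_two, Matrix.transpose_apply, Matrix.of_apply,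
        Matrix.cons_val_zero, Matrix.cons_val_one, Matrix.cons_val', Matrix.cons_val_fin_one,
        Fin.zero_eta, Fin.mk_one, mul_one, mul_zero, add_zero, zero_add, smul_eq_mul]
      exact e10
    · rw [Matrix.smul_apply]
      simp only [Matrix.mul_apply, Fin.sum_univ_two, Matrix.transpose_apply, Matrix.of_apply,
        Matrix.cons_val_zero, Matrix.cons_val_one, Matrix.cons_val', Matrix.cons_val_fin_one,
        Fin.zero_eta, Fin.mk_one, mul_one, mul_zero, add_zero, zero_add, smul_eq_mul]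
      exact e11

end Pool.Agent.H840.KP
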