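import Pool.Agent.H840.AS.Defs
set_option autoImplicit false

/-!
Products of two copies of a curve of genus two mapped to complex tori, rational functions on them
such that the image of the divisor is zero, and the real regulator.
-/

open MeasureTheory Filter Topology

open scoped ComplexConjugate

namespace Pool.Agent.H840.KP

open Pool.Agent.H840.AS (curve)

/-- A holomorphic map `φ` from the curve `C : y ^ 2 = ∏ (x - e k)` to `ℂ ^ ι / L` with
`φ ^* (d z_i) = (M i 0 + M i 1 x) dx / y` which is zero at the points `(e k, 0)`. -/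
structure Mor (e : Fin 5 → ℂ) {ι : Type} (L : AddSubgroup (ι → ℂ)) where
  φ : curve e → (ι → ℂ) ⧸ L
  M : Matrix ι (Fin 2) ℂ
  cont : Continuous φ
  hol : ∀ p : curve e, p.1.2 ≠ 0 → ∃ (s : ℂ → ℂ) (l : ℂ → ι → ℂ), s p.1.1 = p.1.2 ∧
    ContinuousAt s p.1.1 ∧ ∀ᶠ x in 𝓝 p.1.1, ∃ h : s x ^ 2 = ∏ k, (x - e k),
      φ ⟨(x, s x), h⟩ = QuotientAddGroup.mk (l x) ∧
      ∀ i, HasDerivAt (fun x => l x i) ((s x)⁻¹ * M.mulVec ![1, x] i) x
  zero : ∀ p : curve e, p.1.2 = 0 → φ p = 0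

/-- A formal sum of surfaces `C × C → ℂ ^ ι / L`, `(p, q) ↦ φ k p + ψ k q`, with the rational
functions `f k = c k * (∏ j, (x p - e j) ^ a k j) * (x p - x q) ^ r k`.
As `x p - x q` is zero for `q = p` and for `q = - p`, and has poles of order two at the two curves
at infinity, the image of the divisor is
`∑ k, r k ((φ k + ψ k)(C) + (φ k - ψ k)(C) - 2 φ k (C) - 2 ψ k (C))`.  The maps `χ` and `- χ` have
the same image, and the image for `χ = 0` is zero; by `bdry` the sum is zero. -/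
structure PChain {ι : Type} (L : AddSubgroup (ι → ℂ)) where
  e : Fin 5 → ℂ
  inj : Function.Injective e
  m : ℕ
  φ : Fin m → Mor e L
  ψ : Fin m → Mor e L
  c : Fin m → ℂ
  c_ne : ∀ k, c k ≠ 0
  a : Fin m → Fin 5 → ℤ
  sum_a : ∀ k, ∑ j, a k j = 0
  r : Fin m → ℤ
  bdry : ∀ θ : (curve e → (ι → ℂ) ⧸ L) → ℤ, θ 0 = 0 → (∀ χ, θ (-χ) = θ χ) →
    ∑ k, r k * (θ ((φ k).φ + (ψ k).φ) + θ ((φ k).φ - (ψ k).φ) - 2 * θ (φ k).φ -
      2 * θ (ψ k).φ) = 0

/-- The coordinates of `u ∧ v`. -/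
def wd {ι : Type} (u v : ι → ℂ) (I : ι × ι) : ℂ := u I.1 * v I.2 - u I.2 * v I.1

/-- The integrals of `log |f| Φ ^* (d z_i ∧ d z_j ∧ d conj z_k ∧ d conj z_l)` over `C × C`, up to
a constant; `C` covers the `x`-plane twice and `|y| ^ 2 = |∏ (x - e k)|`. -/
noncomputable def PChain.reg {ι : Type} {L : AddSubgroup (ι → ℂ)} (D : PChain L) :
    Matrix (ι × ι) (ι × ι) ℂ :=
  Matrix.of fun I J => ∑ k, ∫ z : ℂ × ℂ,
    ((4 * Real.log ‖D.c k * (∏ j, (z.1 - D.e j) ^ D.a k j) * (z.1 - z.2) ^ D.r k‖ /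
      (‖∏ j, (z.1 - D.e j)‖ * ‖∏ j, (z.2 - D.e j)‖) : ℝ) : ℂ) *
      (wd ((D.φ k).M.mulVec ![1, z.1]) ((D.ψ k).M.mulVec ![1, z.2]) I *
        conj (wd ((D.φ k).M.mulVec ![1, z.1]) ((D.ψ k).M.mulVec ![1, z.2]) J))

/-- The real classes of type `(2, 2)`: Hermitian forms on the second exterior power. -/
def H22 (ι : Type) : Set (Matrix (ι × ι) (ι × ι) ℂ) :=
  {Z | Z.IsHermitian ∧ ∀ i j J, Z (i, j) J = -Z (j, i) J}

/-- The lattice of the power `E ^ n` of the elliptic curve `E = ℂ / Λ`. -/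
def powE (Λ : AddSubgroup ℂ) (n : ℕ) : AddSubgroup (Fin n → ℂ) where
  carrier := {v | ∀ i, v i ∈ Λ}
  zero_mem' := fun _ => zero_mem _
  add_mem' := fun h h' i => add_mem (h i) (h' i)
  neg_mem' := fun h i => neg_mem (h i)

/-- The lattice of the square `A × A` of the abelian surface `A = ℂ ^ 2 / Λ`. -/
def sqA (Λ : AddSubgroup (Fin 2 → ℂ)) : AddSubgroup (Fin 2 × Fin 2 → ℂ) where
  carrier := {v | ∀ r, (fun i => v (r, i)) ∈ Λ}
  zero_mem' := fun _ => zero_mem _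
  add_mem' := fun h h' r => add_mem (h r) (h' r)
  neg_mem' := fun h r => neg_mem (h r)

/-- Real symmetric bilinear forms on the space of Hermitian forms, and one real number. -/
abbrev Ten : Type := (Fin 2 → Fin 2 → Fin 2 → Fin 2 → ℂ) × ℝ

/-- The component in `Sym ^ 2 H ^ 2 (A)` of a class of type `(2, 2)` on `A × A`. -/
def cp (Z : Matrix ((Fin 2 × Fin 2) × (Fin 2 × Fin 2)) ((Fin 2 × Fin 2) × (Fin 2 × Fin 2)) ℂ) :
    Ten :=
  (fun i j k l => Z ((0, i), (1, k)) ((0, j), (1, l)) + Z ((0, k), (1, i)) ((0, l), (1, j)),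
    (Z ((0, 0), (0, 1)) ((1, 0), (1, 1))).re)

end Pool.Agent.H840.KP
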