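import Pool.Agent.H840.KP.Defs
set_option autoImplicit false

/-!
Products of two different curves of genus two mapped to complex tori, functions from the first
factor.
-/

open MeasureTheory Filter Topology

open scoped ComplexConjugate

namespace Pool.Agent.H840.KP

/-- A formal sum of surfaces `C × C' → ℂ ^ ι / L`, `(p, q) ↦ φ k p + ψ k q`, with the functions
`f k = c k * ∏ j, (x p - e j) ^ a k j` from the first factor.  The divisor of `f k` is the sum of
the curves `(e j, 0) × C'` with the multiplicities `2 a k j`; as `φ` is zero at the points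
`(e j, 0)` and `∑ j, a k j = 0` its image is zero. -/
structure RChain {ι : Type} (L : AddSubgroup (ι → ℂ)) where
  m : ℕ
  e : Fin m → Fin 5 → ℂ
  e' : Fin m → Fin 5 → ℂ
  inj : ∀ k, Function.Injective (e k)
  inj' : ∀ k, Function.Injective (e' k)
  φ : ∀ k, Mor (e k) L
  ψ : ∀ k, Mor (e' k) L
  c : Fin m → ℂ
  c_ne : ∀ k, c k ≠ 0
  a : Fin m → Fin 5 → ℤ
  sum_a : ∀ k, ∑ j, a k j = 0

/-- The integrals of `log |f| Φ ^* (d z_i ∧ d z_j ∧ d conj z_k ∧ d conj z_l)` over `C × C'`, up to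
a constant. -/
noncomputable def RChain.reg {ι : Type} {L : AddSubgroup (ι → ℂ)} (D : RChain L) :
    Matrix (ι × ι) (ι × ι) ℂ :=
  Matrix.of fun I J => ∑ k, ∫ z : ℂ × ℂ,
    ((4 * Real.log ‖D.c k * ∏ j, (z.1 - D.e k j) ^ D.a k j‖ /
      (‖∏ j, (z.1 - D.e k j)‖ * ‖∏ j, (z.2 - D.e' k j)‖) : ℝ) : ℂ) *
      (wd ((D.φ k).M.mulVec ![1, z.1]) ((D.ψ k).M.mulVec ![1, z.2]) I *
        conj (wd ((D.φ k).M.mulVec ![1, z.1]) ((D.ψ k).M.mulVec ![1, z.2]) J))

/-- The lattice of the product of two elliptic curves. -/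
def prE (Λ : Fin 2 → AddSubgroup ℂ) : AddSubgroup (Fin 2 → ℂ) where
  carrier := {v | ∀ i, v i ∈ Λ i}
  zero_mem' := fun _ => zero_mem _
  add_mem' := fun h h' i => add_mem (h i) (h' i)
  neg_mem' := fun h i => neg_mem (h i)

end Pool.Agent.H840.KP
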