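import Pool.Agent.H840.KP.One
set_option autoImplicit false

/-!
# The double integrals at `e0`
-/

open Complex Filter Topology MeasureTheory Set

open scoped ComplexConjugate

namespace Pool.Agent.H840.KP

open Pool.Agent.H840.AS Pool.Agent.H840.AS.Sgn

theorem int_neg2 (f : ℂ × ℂ → ℂ) : ∫ z : ℂ × ℂ, f (-z.1, -z.2) = ∫ z : ℂ × ℂ, f z := by
  have h1 := (Measure.measurePreserving_neg (volume : Measure ℂ)).prod
    (Measure.measurePreserving_neg (volume : Measure ℂ))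
  exact h1.integral_comp ((Homeomorph.neg ℂ).prodCongr (Homeomorph.neg ℂ)).measurableEmbedding f

theorem int_conj2 (f : ℂ × ℂ → ℂ) : ∫ z : ℂ × ℂ, f (conj z.1, conj z.2) = ∫ z : ℂ × ℂ, f z := by
  have h1 := (Complex.conjLIE.measurePreserving).prod (Complex.conjLIE.measurePreserving)
  exact h1.integral_comp
    (Complex.conjLIE.toHomeomorph.prodCongr Complex.conjLIE.toHomeomorph).measurableEmbedding f

theorem X0_odd {i j k l : Fin 2} (h : Odd ((i : ℕ) + j + k + l)) : X0 e0 i j k l = 0 := by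
  have h1 : X0 e0 i j k l = -X0 e0 i j k l := by
    conv_lhs => rw [X0, ← int_neg2]
    rw [X0, ← integral_neg]
    congr 1
    ext z
    have h2 : ‖-z.1 - -z.2‖ = ‖z.1 - z.2‖ := by
      rw [← norm_neg]; congr 1; ring
    have h3 : mon i j k l (-z.1, -z.2) = -mon i j k l z := by
      have h4 : ((-1 : ℂ)) ^ ((i : ℕ) + j + k + l) = -1 := h.neg_one_pow
      simp only [mon, map_neg]
      rw [neg_pow z.1, neg_pow (conj z.1), neg_pow z.2, neg_pow (conj z.2)]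
      rw [pow_add, pow_add, pow_add] at h4
      linear_combination (z.1 ^ (i : ℕ) * conj z.1 ^ (j : ℕ)) * (z.2 ^ (k : ℕ) *
        conj z.2 ^ (l : ℕ)) * h4
    simp only [norm_prod_neg, h2, h3]
    ring
  have h2 : (2 : ℂ) * X0 e0 i j k l = 0 := by linear_combination h1
  simpa using h2

theorem X0_re (i j k l : Fin 2) : X0 e0 i j k l = ((X0 e0 i j k l).re : ℂ) := by
  refine (Complex.conj_eq_iff_re.1 ?_).symm
  rw [X0_conj]
  conv_lhs => rw [X0, ← int_conj2]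
  rw [X0]
  congr 1
  ext z
  have h2 : ‖conj z.1 - conj z.2‖ = ‖z.1 - z.2‖ := by
    rw [← map_sub, Complex.norm_conj]
  have h3 : mon j i l k (conj z.1, conj z.2) = mon i j k l z := by
    simp only [mon, Complex.conj_conj]
    ring
  simp only [norm_prod_conj, h2, h3]

theorem X0_re_eq (h : S_INT2) (i j k l : Fin 2) : (X0 e0 i j k l).re = ∫ z : ℂ × ℂ,
    Real.log ‖z.1 - z.2‖ / (‖∏ k, (z.1 - e0 k)‖ * ‖∏ k, (z.2 - e0 k)‖) *
      (mon i j k l z).re := by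
  have h1 := Complex.reCLM.integral_comp_comm (int_X0 h e0_inj i j k l)
  simp only [Complex.reCLM_apply] at h1
  rw [X0, ← h1]
  congr 1
  ext z
  rw [Complex.re_ofReal_mul]

theorem int_re (h : S_INT2) (i j k l : Fin 2) : Integrable fun z : ℂ × ℂ =>
    Real.log ‖z.1 - z.2‖ / (‖∏ k, (z.1 - e0 k)‖ * ‖∏ k, (z.2 - e0 k)‖) *
      (mon i j k l z).re := by
  have h1 := Complex.reCLM.integrable_comp (int_X0 h e0_inj i j k l)
  refine h1.congr (Eventually.of_forall fun z => ?_)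
  simp only [Complex.reCLM_apply]
  rw [Complex.re_ofReal_mul]

theorem X0_1010 (h : S_INT2) (hS : S_SGX) : (X0 e0 1 0 1 0).re < 0 := by
  rw [X0_re_eq h]
  refine lt_of_eq_of_lt ?_ (hS h)
  congr 1
  ext z
  simp [mon, Complex.mul_re]

theorem odd_real (f : ℂ → ℝ) (h : ∀ x, f (-x) = -f x) : ∫ x, f x = 0 := by
  have h1 : ∫ x, f x = -∫ x, f x := by
    conv_lhs => rw [← integral_neg_eq_self]
    rw [← integral_neg]
    congr 1
    ext x
    exact h x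
  linarith

theorem trace_neg (h : S_INT2) (hE : S_ENE) (hI : S_INV) :
    2 * (X0 e0 0 1 1 0).re + (X0 e0 0 0 0 0).re + (X0 e0 1 1 1 1).re / 4 -
      (X0 e0 0 0 1 1).re < 0 := by
  have hre := hE h e0 0 1 0 0 e0_inj (by simp) (by
    refine odd_real _ fun x => ?_
    rw [norm_prod_neg]
    simp
    ring)
  have him := hE h e0 0 0 1 0 e0_inj (by simp) (by
    refine odd_real _ fun x => ?_
    rw [norm_prod_neg]
    simp
    ring)
  -- integrability on the plane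
  have i1 : Integrable fun x : ℂ => 1 / ‖∏ k, (x - e0 k)‖ := by
    have h1 := (Complex.reCLM.integrable_comp (int_Pm e0_inj 0 0)).const_mul (1 / 2)
    refine h1.congr (Eventually.of_forall fun x => ?_)
    simp only [Complex.reCLM_apply, Fin.val_zero, pow_zero, mul_one, Complex.ofReal_re]
    ring
  have i2 : Integrable fun x : ℂ => ‖x‖ ^ 2 / ‖∏ k, (x - e0 k)‖ := by
    have h1 := (Complex.reCLM.integrable_comp (int_Pm e0_inj 1 1)).const_mul (1 / 2)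
    refine h1.congr (Eventually.of_forall fun x => ?_)
    simp only [Complex.reCLM_apply, Fin.val_one, pow_one]
    rw [Complex.mul_conj, ← Complex.ofReal_mul, Complex.ofReal_re, Complex.normSq_eq_norm_sq]
    ring
  have hd := hE h e0 1 0 0 (-1 / 2) e0_inj (by simp) (by
    have h1 : (fun x : ℂ => ((1 : ℝ) + 0 * x.re + 0 * x.im + (-1 / 2) * ‖x‖ ^ 2) /
        ‖∏ k, (x - e0 k)‖) = fun x : ℂ => 1 / ‖∏ k, (x - e0 k)‖ +
          (-1 / 2) * (‖x‖ ^ 2 / ‖∏ k, (x - e0 k)‖) := by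
      ext x
      ring
    rw [h1, integral_add i1 (i2.const_mul _), integral_const_mul, hI]
    ring)
  have j1 := int_re h 0 1 1 0
  have j2 := int_re h 0 0 0 0
  have j3 := int_re h 1 1 1 1
  have j4 := int_re h 0 0 1 1
  have j5 := int_re h 1 1 0 0
  have e1 := X0_re_eq h 0 1 1 0
  have e2 := X0_re_eq h 0 0 0 0
  have e3 := X0_re_eq h 1 1 1 1
  have e4 := X0_re_eq h 0 0 1 1
  have e5 := X0_re_eq h 1 1 0 0
  have e6 : (X0 e0 1 1 0 0).re = (X0 e0 0 0 1 1).re := by rw [X0_swap]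
  have hxy : (∫ z : ℂ × ℂ, Real.log ‖z.1 - z.2‖ / (‖∏ k, (z.1 - e0 k)‖ * ‖∏ k, (z.2 - e0 k)‖) *
      (((0 : ℝ) + 1 * z.1.re + 0 * z.1.im + 0 * ‖z.1‖ ^ 2) *
        (0 + 1 * z.2.re + 0 * z.2.im + 0 * ‖z.2‖ ^ 2))) +
      (∫ z : ℂ × ℂ, Real.log ‖z.1 - z.2‖ / (‖∏ k, (z.1 - e0 k)‖ * ‖∏ k, (z.2 - e0 k)‖) *
      (((0 : ℝ) + 0 * z.1.re + 1 * z.1.im + 0 * ‖z.1‖ ^ 2) *
        (0 + 0 * z.2.re + 1 * z.2.im + 0 * ‖z.2‖ ^ 2))) = (X0 e0 0 1 1 0).re := by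
    have k1 := int_re h 1 0 1 0
    have a1 : Integrable fun z : ℂ × ℂ => Real.log ‖z.1 - z.2‖ /
        (‖∏ k, (z.1 - e0 k)‖ * ‖∏ k, (z.2 - e0 k)‖) *
        (((0 : ℝ) + 1 * z.1.re + 0 * z.1.im + 0 * ‖z.1‖ ^ 2) *
        (0 + 1 * z.2.re + 0 * z.2.im + 0 * ‖z.2‖ ^ 2)) := by
      have := (j1.add k1).const_mul (1 / 2)
      refine this.congr (Eventually.of_forall fun z => ?_)
      simp [mon, Complex.mul_re]
      ring
    have a2 : Integrable fun z : ℂ × ℂ => Real.log ‖z.1 - z.2‖ /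
        (‖∏ k, (z.1 - e0 k)‖ * ‖∏ k, (z.2 - e0 k)‖) *
        (((0 : ℝ) + 0 * z.1.re + 1 * z.1.im + 0 * ‖z.1‖ ^ 2) *
        (0 + 0 * z.2.re + 1 * z.2.im + 0 * ‖z.2‖ ^ 2)) := by
      have := (j1.sub k1).const_mul (1 / 2)
      refine this.congr (Eventually.of_forall fun z => ?_)
      simp [mon, Complex.mul_re]
      ring
    rw [← integral_add a1 a2, e1]
    congr 1
    ext z
    simp [mon, Complex.mul_re]
    ring
  have hz : (∫ z : ℂ × ℂ, Real.log ‖z.1 - z.2‖ / (‖∏ k, (z.1 - e0 k)‖ * ‖∏ k, (z.2 - e0 k)‖) *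
      (((1 : ℝ) + 0 * z.1.re + 0 * z.1.im + (-1 / 2) * ‖z.1‖ ^ 2) *
        (1 + 0 * z.2.re + 0 * z.2.im + (-1 / 2) * ‖z.2‖ ^ 2))) =
      (X0 e0 0 0 0 0).re + (X0 e0 1 1 1 1).re / 4 - (X0 e0 0 0 1 1).re := by
    have h3 : (X0 e0 0 0 0 0).re + (X0 e0 1 1 1 1).re / 4 - (X0 e0 0 0 1 1).re =
        ((X0 e0 0 0 0 0).re + (1 / 4) * (X0 e0 1 1 1 1).re) -
          ((1 / 2) * (X0 e0 0 0 1 1).re + (1 / 2) * (X0 e0 1 1 0 0).re) := by
      rw [e6]; ring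
    have k1 : Integrable fun z : ℂ × ℂ => Real.log ‖z.1 - z.2‖ /
        (‖∏ k, (z.1 - e0 k)‖ * ‖∏ k, (z.2 - e0 k)‖) * (mon 0 0 0 0 z).re +
        1 / 4 * (Real.log ‖z.1 - z.2‖ /
        (‖∏ k, (z.1 - e0 k)‖ * ‖∏ k, (z.2 - e0 k)‖) * (mon 1 1 1 1 z).re) :=
      j2.add (j3.const_mul _)
    have k2 : Integrable fun z : ℂ × ℂ => 1 / 2 * (Real.log ‖z.1 - z.2‖ /
        (‖∏ k, (z.1 - e0 k)‖ * ‖∏ k, (z.2 - e0 k)‖) * (mon 0 0 1 1 z).re) +
        1 / 2 * (Real.log ‖z.1 - z.2‖ /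
        (‖∏ k, (z.1 - e0 k)‖ * ‖∏ k, (z.2 - e0 k)‖) * (mon 1 1 0 0 z).re) :=
      (j4.const_mul _).add (j5.const_mul _)
    rw [h3, e2, e3, e4, e5, ← integral_const_mul, ← integral_const_mul, ← integral_const_mul,
      ← integral_add j2 (j3.const_mul _), ← integral_add (j4.const_mul _) (j5.const_mul _),
      ← integral_sub k1 k2]
    congr 1
    ext z
    have m1 : (mon 0 0 0 0 z).re = 1 := by simp [mon]
    have m2 : (mon 0 0 1 1 z).re = ‖z.2‖ ^ 2 := by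
      simp only [mon, Fin.val_zero, Fin.val_one, pow_zero, pow_one, one_mul]
      rw [Complex.mul_conj, Complex.ofReal_re, Complex.normSq_eq_norm_sq]
    have m3 : (mon 1 1 0 0 z).re = ‖z.1‖ ^ 2 := by
      simp only [mon, Fin.val_zero, Fin.val_one, pow_zero, pow_one, mul_one]
      rw [Complex.mul_conj, Complex.ofReal_re, Complex.normSq_eq_norm_sq]
    have m4 : (mon 1 1 1 1 z).re = ‖z.1‖ ^ 2 * ‖z.2‖ ^ 2 := by
      simp only [mon, Fin.val_one, pow_one]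
      rw [Complex.mul_conj, Complex.mul_conj, ← Complex.ofReal_mul, Complex.ofReal_re,
        Complex.normSq_eq_norm_sq, Complex.normSq_eq_norm_sq]
    rw [m1, m2, m3, m4]
    ring
  rw [hz] at hd
  linarith

/-- The matrix `Pm e0`. -/
theorem Pm_e0 (hI : S_INV) : ∃ p : ℝ, 0 < p ∧ Pm e0 = toC !![p, 0; 0, 2 * p] := by
  obtain ⟨-, p₁, p₂, hp₁, hp₂, hP⟩ := Pool.Agent.H840.AS.Sgn.main Pool.Agent.H671.CNT.main
  have hP' : Pm e0 = toC !![p₁, 0; 0, p₂] := hP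
  refine ⟨p₁, hp₁, ?_⟩
  have h00 : Pm e0 0 0 = p₁ := by rw [hP']; simp [toC]
  have h11 : Pm e0 1 1 = p₂ := by rw [hP']; simp [toC]
  have h1 : Pm e0 0 0 = ((2 * ∫ x : ℂ, 1 / ‖∏ k, (x - e0 k)‖ : ℝ) : ℂ) := by
    rw [Pm_eq, ← integral_const_mul]
    refine Eq.trans ?_ integral_ofReal
    show _ = ∫ x : ℂ, (((2 * (1 / ‖∏ k, (x - e0 k)‖)) : ℝ) : ℂ)
    congr 1
    ext x
    simp only [Fin.val_zero, pow_zero, mul_one]
    push_cast
    ring
  have h2 : Pm e0 1 1 = ((2 * ∫ x : ℂ, ‖x‖ ^ 2 / ‖∏ k, (x - e0 k)‖ : ℝ) : ℂ) := by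
    rw [Pm_eq, ← integral_const_mul]
    refine Eq.trans ?_ integral_ofReal
    show _ = ∫ x : ℂ, (((2 * (‖x‖ ^ 2 / ‖∏ k, (x - e0 k)‖)) : ℝ) : ℂ)
    congr 1
    ext x
    simp only [Fin.val_one, pow_one]
    rw [Complex.mul_conj, Complex.normSq_eq_norm_sq]
    push_cast
    ring
  rw [h00] at h1
  rw [h11] at h2
  have h3 : p₁ = 2 * ∫ x : ℂ, 1 / ‖∏ k, (x - e0 k)‖ := by exact_mod_cast h1
  have h4 : p₂ = 2 * ∫ x : ℂ, ‖x‖ ^ 2 / ‖∏ k, (x - e0 k)‖ := by exact_mod_cast h2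
  rw [hI] at h4
  have h5 : p₂ = 2 * p₁ := by rw [h3, h4]
  rw [hP', h5]

end Pool.Agent.H840.KP
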