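import Pool.Agent.H840.KP.Mor
set_option autoImplicit false

/-!
# Curves of genus two in every torus
-/

open Complex Filter Topology MeasureTheory Set Matrix

open scoped ComplexConjugate

namespace Pool.Agent.H840.KP

open Pool.Agent.H840.AS Pool.Agent.H722.GRP

theorem latA (τ : M2) (x : Fin 7 → ℝ) (N : ℕ) (hN : 0 < N) (z : Fin 7 → ℤ)
    (hx : ∀ i, x i = z i / N) :
    ∀ v ∈ Lat (Hx τ x), (((N : ℝ) ^ 3) • Adx x).mulVec v ∈ Lat τ := by
  have hN' : (N : ℂ) ≠ 0 := by exact_mod_cast hN.ne'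
  have hxc : ∀ i, ((x i : ℝ) : ℂ) = z i / N := by
    intro i; rw [hx i]; push_cast; rfl
  rintro v ⟨a, b, hv⟩
  refine ⟨![N ^ 2 * (z 3 * a 0 - z 1 * a 1) +
      N * ((z 3 * z 4 - z 1 * z 5) * b 0 + (z 3 * z 5 - z 1 * z 6) * b 1),
    N ^ 2 * (- z 2 * a 0 + z 0 * a 1) +
      N * ((- z 2 * z 4 + z 0 * z 5) * b 0 + (- z 2 * z 5 + z 0 * z 6) * b 1)],
    ![(z 0 * z 3 - z 1 * z 2) * (z 0 * b 0 + z 2 * b 1),
      (z 0 * z 3 - z 1 * z 2) * (z 1 * b 0 + z 3 * b 1)], fun i => ?_⟩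
  have hv0 := hv 0
  have hv1 := hv 1
  fin_cases i
  · simp only [Fin.zero_eta, Matrix.mulVec, dotProduct, Fin.sum_univ_two, hv0, hv1]
    simp only [Hx, Adx, Ux, Bx, toC, Matrix.add_apply, Matrix.mul_apply, Fin.sum_univ_two,
      Matrix.smul_apply, Matrix.map_apply, Matrix.transpose_apply, Matrix.of_apply,
      Matrix.cons_val_zero, Matrix.cons_val_one, Matrix.cons_val', Matrix.cons_val_fin_one,
      Complex.real_smul, Complex.ofReal_neg, hxc]
    push_cast
    field_simp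
    ring
  · simp only [Fin.mk_one, Matrix.mulVec, dotProduct, Fin.sum_univ_two, hv0, hv1]
    simp only [Hx, Adx, Ux, Bx, toC, Matrix.add_apply, Matrix.mul_apply, Fin.sum_univ_two,
      Matrix.smul_apply, Matrix.map_apply, Matrix.transpose_apply, Matrix.of_apply,
      Matrix.cons_val_zero, Matrix.cons_val_one, Matrix.cons_val', Matrix.cons_val_fin_one,
      Complex.real_smul, Complex.ofReal_neg, hxc]
    push_cast
    field_simp
    ring

theorem Mt_det {e : Fin 5 → ℂ} (hd : (Am e).det ≠ 0) : (Mt e).det ≠ 0 := by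
  unfold Mt
  rw [Matrix.det_smul]
  refine mul_ne_zero (by simp) ?_
  rw [Matrix.det_nonsing_inv]
  simpa using hd

/-- There are curves of genus two in all principally polarised tori. -/
theorem exists_mor {τ : M2} (h1 : τ.IsSymm) (h2 : (τ.map Complex.im).PosDef) :
    ∃ (e : Fin 5 → ℂ) (_ : Function.Injective e) (f : Mor e (Lat τ)), f.M.det ≠ 0 := by
  obtain ⟨hd, Y, m, hY, hm, hTY, hM⟩ := data_e0
  have hE := exists_near (P := fun _ => True) (Eventually.of_forall fun _ => trivial)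
  rw [hTY] at hE
  obtain ⟨T, hT, hTd⟩ := chol Y hY
  obtain ⟨V, hV, hVd⟩ := chol _ h2
  set U : M2R := T * V⁻¹ with hU
  have hVu : IsUnit V.det := hVd.ne'.isUnit
  have hUd : U.det ≠ 0 := by
    rw [hU, Matrix.det_mul, Matrix.det_nonsing_inv]
    refine mul_ne_zero hTd.ne' ?_
    simpa using hVd.ne'
  have hUV : U * (τ.map Complex.im) * Uᵀ = Y := by
    rw [← hV, hU, Matrix.transpose_mul, Matrix.transpose_nonsing_inv]
    have hVtu : IsUnit Vᵀ.det := by rwa [Matrix.det_transpose]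
    calc T * V⁻¹ * (V * Vᵀ) * (Vᵀ⁻¹ * Tᵀ) = T * (V⁻¹ * V) * (Vᵀ * Vᵀ⁻¹) * Tᵀ := by
          simp only [Matrix.mul_assoc]
      _ = T * Tᵀ := by
          rw [Matrix.nonsing_inv_mul _ hVu, Matrix.mul_nonsing_inv _ hVtu, Matrix.mul_one,
            Matrix.mul_one]
      _ = Y := hT
  set X : M2R := τ.map Complex.re with hX
  set Y' : M2R := τ.map Complex.im with hY'
  have hXs : Xᵀ = X := by
    rw [hX]
    have : τᵀ = τ := h1
    conv_rhs => rw [← this]
    rfl
  set Bm : M2R := - (U * X * Uᵀ) with hB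
  have hBs : Bm 1 0 = Bm 0 1 := by
    have : Bmᵀ = Bm := by
      rw [hB]
      simp only [Matrix.transpose_neg, Matrix.transpose_mul, Matrix.transpose_transpose, hXs,
        Matrix.mul_assoc]
    exact congrFun (congrFun this 0) 1
  have hx : Hx τ (xOf U Bm) = Complex.I • toC Y := by
    unfold Hx
    rw [Ux_xOf, Bx_xOf _ _ hBs, ← toC_transpose]
    conv_lhs => rw [decomp τ, ← hX, ← hY']
    rw [Matrix.mul_add, Matrix.add_mul, ← Pool.Agent.H722.GRP.toC_mul,
      ← Pool.Agent.H722.GRP.toC_mul, hB, toC_neg]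
    rw [Matrix.mul_smul, Matrix.smul_mul, ← Pool.Agent.H722.GRP.toC_mul,
      ← Pool.Agent.H722.GRP.toC_mul, hUV]
    abel
  have hcU : Continuous (fun x => toC (Ux x)) := by
    unfold Ux toC
    refine continuous_matrix fun i j => ?_
    fin_cases i <;> fin_cases j <;> simp <;> fun_prop
  have hcB : Continuous (fun x => toC (Bx x)) := by
    unfold Bx toC
    refine continuous_matrix fun i j => ?_
    fin_cases i <;> fin_cases j <;> simp <;> fun_prop
  have hcH : Continuous (Hx τ) := by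
    unfold Hx
    exact ((hcU.matrix_mul continuous_const).matrix_mul hcU.matrix_transpose).add hcB
  have hcD : Continuous fun x : Fin 7 → ℝ => x 0 * x 3 - x 1 * x 2 := by fun_prop
  have hD0 : ∀ᶠ x in 𝓝 (xOf U Bm), x 0 * x 3 - x 1 * x 2 ≠ 0 := by
    refine hcD.continuousAt.eventually_ne ?_
    have : U.det = xOf U Bm 0 * xOf U Bm 3 - xOf U Bm 1 * xOf U Bm 2 := by
      rw [Matrix.det_fin_two]; simp [xOf]
    rw [← this]
    exact hUd
  rw [← hx] at hE
  have hE2 := hcH.continuousAt.eventually hE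
  obtain ⟨y, ⟨hy1, hy2⟩, q, hq⟩ := (mem_closure_iff_nhds.1 (dense_rat (xOf U Bm))) _ (hE2.and hD0)
  have hsym : (Hx τ y).IsSymm := by
    unfold Matrix.IsSymm at h1 ⊢
    unfold Hx
    rw [Matrix.transpose_add, Matrix.transpose_mul, Matrix.transpose_mul, Matrix.transpose_transpose,
      h1, Matrix.mul_assoc]
    congr 1
    ext i j
    fin_cases i <;> fin_cases j <;> simp [toC, Bx]
  obtain ⟨e, he, hd', hTe, -⟩ := hy1 hsym
  obtain ⟨N, z, hN, hz⟩ := common_den q
  have hyz : ∀ i, y i = z i / N := by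
    intro i
    rw [← hq]
    show ((q i : ℚ) : ℝ) = z i / N
    rw [hz i]
    push_cast
    rfl
  have hl := latA τ y N hN z hyz
  rw [← hTe] at hl
  refine ⟨e, he.inj, (jac he hd').push _ hl, ?_⟩
  rw [push_M, Matrix.det_mul]
  refine mul_ne_zero ?_ (Mt_det hd')
  have hr : ((N : ℝ) ^ 3) • Adx y = (((N : ℝ) ^ 3 : ℝ) : ℂ) • Adx y := by
    ext i j
    simp [Matrix.smul_apply]
  rw [hr, Matrix.det_smul]
  refine mul_ne_zero ?_ ?_
  · refine pow_ne_zero _ ?_
    exact_mod_cast (pow_pos (by exact_mod_cast hN : (0:ℝ) < N) 3).ne'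
  · have : (Adx y).det = ((y 0 * y 3 - y 1 * y 2 : ℝ) : ℂ) := by
      rw [Matrix.det_fin_two]
      simp only [Adx, toC, Matrix.map_apply, Matrix.of_apply, Matrix.cons_val_zero,
        Matrix.cons_val_one, Matrix.cons_val', Matrix.cons_val_fin_one]
      push_cast
      ring
    rw [this]
    exact_mod_cast hy2

/-- Integral matrices map powers to powers. -/
theorem zm_mem (Λ : AddSubgroup ℂ) {m n : ℕ} (N : Matrix (Fin m) (Fin n) ℤ) :
    ∀ v ∈ powE Λ n, (N.map (fun z => (z : ℂ))).mulVec v ∈ powE Λ m := by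
  intro v hv i
  simp only [Matrix.mulVec, dotProduct, Matrix.map_apply]
  refine sum_mem fun j _ => ?_
  rw [← zsmul_eq_mul]
  exact zsmul_mem (hv j) _

/-- A lattice contains a multiple of `ℤ + τ ℤ`. -/
theorem exists_tau (Λ : AddSubgroup ℂ) (hspan : Submodule.span ℝ (Λ : Set ℂ) = ⊤) :
    ∃ ω t : ℂ, ω ≠ 0 ∧ ω ∈ Λ ∧ ω * t ∈ Λ ∧ 0 < t.im := by
  obtain ⟨ω, hω, h0⟩ : ∃ ω ∈ Λ, ω ≠ 0 := by
    by_contra hcon
    push Not at hcon
    have h1 : Submodule.span ℝ (Λ : Set ℂ) ≤ ⊥ := by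
      rw [Submodule.span_le]
      intro x hx
      exact hcon x hx
    rw [hspan] at h1
    have h2 : (1 : ℂ) ∈ (⊥ : Submodule ℝ ℂ) := h1 trivial
    rw [Submodule.mem_bot] at h2
    exact one_ne_zero h2
  obtain ⟨ω', hω', h1⟩ : ∃ ω' ∈ Λ, (ω' / ω).im ≠ 0 := by
    by_contra hcon
    push Not at hcon
    let φ : ℂ →ₗ[ℝ] ℝ :=
      { toFun := fun x => (x / ω).im
        map_add' := by intro x y; rw [add_div, Complex.add_im]
        map_smul' := by
          intro r x
          simp only [Complex.real_smul, RingHom.id_apply, smul_eq_mul]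
          rw [mul_div_assoc, Complex.im_ofReal_mul] }
    have h1 : Submodule.span ℝ (Λ : Set ℂ) ≤ LinearMap.ker φ := by
      rw [Submodule.span_le]
      intro x hx
      exact hcon x hx
    rw [hspan] at h1
    have h2 : φ (ω * I) = 0 := h1 trivial
    have h3 : φ (ω * I) = 1 := by
      show (ω * I / ω).im = 1
      rw [mul_div_cancel_left₀ _ h0]
      simp
    rw [h3] at h2
    exact one_ne_zero h2
  rcases lt_or_gt_of_ne h1 with h | h
  · refine ⟨ω, -(ω' / ω), h0, hω, ?_, ?_⟩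
    · have : ω * -(ω' / ω) = -ω' := by field_simp
      rw [this]
      exact neg_mem hω'
    · simpa using h
  · refine ⟨ω, ω' / ω, h0, hω, ?_, h⟩
    have : ω * (ω' / ω) = ω' := by field_simp
    rw [this]
    exact hω'

/-- The matrix of the product of two equal elliptic curves. -/
theorem diag_data {t : ℂ} (ht : 0 < t.im) : (!![t, 0; 0, t] : M2).IsSymm ∧
    ((!![t, 0; 0, t] : M2).map Complex.im).PosDef := by
  constructor
  · unfold Matrix.IsSymm
    ext i j
    fin_cases i <;> fin_cases j <;> simp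
  · refine Pool.Agent.H722.GRP.posDef_two _ ?_ ?_ ?_
    · simp
    · simpa using ht
    · simpa using mul_pos ht ht

theorem diag_map {Λ : AddSubgroup ℂ} {ω t : ℂ} (hω : ω ∈ Λ) (ht : ω * t ∈ Λ) :
    ∀ v ∈ Lat (!![t, 0; 0, t] : M2), (ω • (1 : M2)).mulVec v ∈ powE Λ 2 := by
  rintro v ⟨a, b, hv⟩ i
  have h1 : (ω • (1 : M2)).mulVec v i = a i • ω + b i • (ω * t) := by
    rw [Matrix.smul_mulVec, Matrix.one_mulVec, Pi.smul_apply, hv i, zsmul_eq_mul, zsmul_eq_mul,
      smul_eq_mul]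
    fin_cases i <;> simp [Fin.sum_univ_two] <;> ring
  rw [h1]
  exact add_mem (zsmul_mem hω _) (zsmul_mem ht _)

theorem exists_powE (Λ : AddSubgroup ℂ) (hspan : Submodule.span ℝ (Λ : Set ℂ) = ⊤) :
    ∃ (e : Fin 5 → ℂ) (_ : Function.Injective e) (f : Mor e (powE Λ 2)), f.M.det ≠ 0 := by
  obtain ⟨ω, t, h0, hω, ht, h1⟩ := exists_tau Λ hspan
  obtain ⟨h2, h3⟩ := diag_data h1
  obtain ⟨e, he, f, hf⟩ := exists_mor h2 h3
  refine ⟨e, he, f.push _ (diag_map hω ht), ?_⟩
  rw [push_M, Matrix.det_mul, Matrix.det_smul, Matrix.det_one]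
  exact mul_ne_zero (by simpa using h0) hf

theorem herm_powE (Λ : AddSubgroup ℂ) (hspan : Submodule.span ℝ (Λ : Set ℂ) = ⊤)
    {Z : M2} (hZ : Z.IsHermitian) : Z ∈ Sp0 (powE Λ 2) := by
  obtain ⟨ω, t, h0, hω, ht, h1⟩ := exists_tau Λ hspan
  obtain ⟨h2, h3⟩ := diag_data h1
  set g : M2 := ω • (1 : M2) with hg
  have hu : IsUnit g.det := by
    rw [hg, Matrix.det_smul, Matrix.det_one]
    exact isUnit_iff_ne_zero.2 (by simpa using h0)
  have h5 : Z = g * (g⁻¹ * Z * g⁻¹.conjTranspose) * g.conjTranspose := by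
    have h4 : g⁻¹.conjTranspose * g.conjTranspose = 1 := by
      rw [← Matrix.conjTranspose_mul, Matrix.mul_nonsing_inv _ hu, Matrix.conjTranspose_one]
    rw [Matrix.mul_assoc, Matrix.mul_assoc (g⁻¹ * Z), h4, Matrix.mul_one, ← Matrix.mul_assoc,
      Matrix.mul_nonsing_inv _ hu, Matrix.one_mul]
  rw [h5]
  refine Sp0_push _ _ g (diag_map hω ht) _ ?_
  exact hermitian_mem0 h2 h3 (Matrix.isHermitian_mul_mul_conjTranspose _ hZ)

end Pool.Agent.H840.KP
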