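import Pool.Agent.H840.KP.TwoM
set_option autoImplicit false

/-!
# Squares of abelian surfaces: the final theorem
-/

open Complex Filter Topology MeasureTheory Set Matrix

open scoped ComplexConjugate Matrix ComplexOrder

namespace Pool.Agent.H840.KP

open Pool.Agent.H840.AS

/-- `TenH` as a real subspace. -/
def TenHs : Submodule ℝ Ten where
  carrier := TenH
  zero_mem' := ⟨fun i j k l => rfl, fun i j k l => by simp⟩
  add_mem' := by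
    rintro a b ⟨ha, ha'⟩ ⟨hb, hb'⟩
    refine ⟨fun i j k l => ?_, fun i j k l => ?_⟩
    · simp only [Prod.fst_add, Pi.add_apply, ha i j k l, hb i j k l]
    · simp only [Prod.fst_add, Pi.add_apply, map_add, ha' i j k l, hb' i j k l]
  smul_mem' := by
    rintro r a ⟨ha, ha'⟩
    refine ⟨fun i j k l => ?_, fun i j k l => ?_⟩
    · simp only [Prod.smul_fst, Pi.smul_apply, ha i j k l]
    · simp only [Prod.smul_fst, Pi.smul_apply, Complex.real_smul, map_mul, Complex.conj_ofReal,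
        ha' i j k l]

/-- A preimage under `cp`. -/
noncomputable def lif (Z : Ten) :
    Matrix ((Fin 2 × Fin 2) × (Fin 2 × Fin 2)) ((Fin 2 × Fin 2) × (Fin 2 × Fin 2)) ℂ :=
  Matrix.of fun I J =>
    if I.1.1 = 0 ∧ I.2.1 = 1 ∧ J.1.1 = 0 ∧ J.2.1 = 1 then Z.1 I.1.2 J.1.2 I.2.2 J.2.2 / 2
    else if I.1.1 = 1 ∧ I.2.1 = 0 ∧ J.1.1 = 0 ∧ J.2.1 = 1 then -(Z.1 I.2.2 J.1.2 I.1.2 J.2.2) / 2
    else if I.1.1 = 0 ∧ I.2.1 = 1 ∧ J.1.1 = 1 ∧ J.2.1 = 0 then -(Z.1 I.1.2 J.2.2 I.2.2 J.1.2) / 2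
    else if I.1.1 = 1 ∧ I.2.1 = 0 ∧ J.1.1 = 1 ∧ J.2.1 = 0 then Z.1 I.2.2 J.2.2 I.1.2 J.1.2 / 2
    else if I.1.1 = 0 ∧ I.2.1 = 0 ∧ J.1.1 = 1 ∧ J.2.1 = 1 then Z.2 * (ee I.1.2 I.2.2 * ee J.1.2 J.2.2)
    else if I.1.1 = 1 ∧ I.2.1 = 1 ∧ J.1.1 = 0 ∧ J.2.1 = 0 then Z.2 * (ee I.1.2 I.2.2 * ee J.1.2 J.2.2)
    else 0

theorem ee_swap (i k : Fin 2) : ee i k = -ee k i := by
  fin_cases i <;> fin_cases k <;> simp [ee]

theorem ee_conj (i k : Fin 2) : conj (ee i k) = ee i k := by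
  fin_cases i <;> fin_cases k <;> simp [ee]

theorem lif_mem {Z : Ten} (hZ : Z ∈ TenH) : lif Z ∈ H22 (Fin 2 × Fin 2) := by
  obtain ⟨h1, h2⟩ := hZ
  constructor
  · ext I J
    obtain ⟨⟨r, i⟩, ⟨s, k⟩⟩ := I
    obtain ⟨⟨r', j⟩, ⟨s', l⟩⟩ := J
    rw [Matrix.conjTranspose_apply, Complex.star_def]
    have h3 : conj (2 : ℂ) = 2 := map_ofNat _ 2
    fin_cases r <;> fin_cases s <;> fin_cases r' <;> fin_cases s' <;>
      simp [lif, h2, ee_conj, h3] <;> first | ring1 | (left; ring1)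
  · rintro ⟨r, i⟩ ⟨s, k⟩ ⟨⟨r', j⟩, ⟨s', l⟩⟩
    fin_cases r <;> fin_cases s <;> fin_cases r' <;> fin_cases s' <;>
      simp [lif] <;> first | ring1 | (rw [ee_swap i k]; ring1)

theorem cp_lif {Z : Ten} (hZ : Z ∈ TenH) : cp (lif Z) = Z := by
  obtain ⟨h1, h2⟩ := hZ
  refine Prod.ext ?_ ?_
  · funext i j k l
    simp [cp, lif]
    rw [← h1 i j k l]
    ring
  · simp [cp, lif, ee]

theorem cp_mem {Z : Matrix ((Fin 2 × Fin 2) × (Fin 2 × Fin 2))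
    ((Fin 2 × Fin 2) × (Fin 2 × Fin 2)) ℂ} (hZ : Z ∈ H22 (Fin 2 × Fin 2)) : cp Z ∈ TenH := by
  have h1 : ∀ I J, conj (Z I J) = Z J I := by
    intro I J
    have := congrFun (congrFun hZ.1 J) I
    rw [Matrix.conjTranspose_apply] at this
    exact this
  refine ⟨fun i j k l => ?_, fun i j k l => ?_⟩
  · simp only [cp]
    ring
  · simp only [cp, map_add, h1]

theorem image_H22 : cp '' H22 (Fin 2 × Fin 2) = TenH := by
  apply Subset.antisymm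
  · rintro _ ⟨Z, hZ, rfl⟩
    exact cp_mem hZ
  · intro Z hZ
    exact ⟨lif Z, lif_mem hZ, cp_lif hZ⟩

theorem sq_main (h : S_INT2) (hC : S_CNT2) (hE : S_ENE) (hS : S_SGX) (hI : S_INV) (hP : S_PER)
    (hG : S_GRP2) (Λ : AddSubgroup (Fin 2 → ℂ)) (H : Matrix (Fin 2) (Fin 2) ℂ) (hH : H.PosDef)
    (hspan : Submodule.span ℝ (Λ : Set (Fin 2 → ℂ)) = ⊤)
    (hint : ∀ u ∈ Λ, ∀ v ∈ Λ, ∃ k : ℤ, (star u ⬝ᵥ H.mulVec v).im = k) :
    closure (Submodule.span ℚ {Z : Ten | ∃ D : PChain (sqA Λ), cp D.reg = Z} : Set Ten) =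
      cp '' H22 (Fin 2 × Fin 2) := by
  rw [image_H22]
  refine closure_span_eq TenHs (Pool.Agent.H722.GRP2.closedTen _) ?_ ?_
  · rintro _ ⟨D, rfl⟩
    exact cp_mem (reg_mem D)
  · intro Z hZ
    obtain ⟨τ, g, h1, h2, hg, h3⟩ := Pool.Agent.H840.AS.Pol.h_POL Λ H hH hspan hint
    have hu : IsUnit g.det := isUnit_iff_ne_zero.2 hg
    have h4 : Z = act g (act g⁻¹ Z) := by
      rw [← Pool.Agent.H722.GRP2.act_mul, Matrix.mul_nonsing_inv _ hu,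
        Pool.Agent.H722.GRP2.act_one]
    rw [h4]
    exact SS_le h Λ (SS_push _ _ g h3 _ (SS_full h hC hE hS hI hP hG τ h1 h2 _
      (Pool.Agent.H722.GRP2.act_TenH g⁻¹ Z hZ)))

end Pool.Agent.H840.KP
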