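import Pool.Agent.H840.KP.Stm
import Pool.Agent.H840.AS.All
set_option autoImplicit false

/-!
# Morphisms
-/

open Complex Filter Topology MeasureTheory Set

open scoped ComplexConjugate

namespace Pool.Agent.H840.KP

open Pool.Agent.H840.AS

section push

variable {e : Fin 5 → ℂ} {ι κ : Type} [Fintype ι] {L : AddSubgroup (ι → ℂ)}
  {L' : AddSubgroup (κ → ℂ)}

/-- A matrix as an additive map. -/
noncomputable def mh (g : Matrix κ ι ℂ) : (ι → ℂ) →+ (κ → ℂ) :=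
  (Matrix.mulVecLin g).toAddMonoidHom

/-- The map between the tori. -/
noncomputable def tm (g : Matrix κ ι ℂ) (hg : ∀ v ∈ L, g.mulVec v ∈ L') :
    (ι → ℂ) ⧸ L →+ (κ → ℂ) ⧸ L' :=
  QuotientAddGroup.map L L' (mh g) hg

theorem tm_mk (g : Matrix κ ι ℂ) (hg : ∀ v ∈ L, g.mulVec v ∈ L') (v : ι → ℂ) :
    tm g hg (QuotientAddGroup.mk v) = QuotientAddGroup.mk (g.mulVec v) := rfl

theorem tm_cont (g : Matrix κ ι ℂ) (hg : ∀ v ∈ L, g.mulVec v ∈ L') : Continuous (tm g hg) := by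
  refine continuous_quot_lift _ ?_
  have h4 : Continuous fun v : ι → ℂ => g.mulVec v := by fun_prop
  exact continuous_quot_mk.comp h4

/-- Composition with a homomorphism of tori. -/
noncomputable def Mor.push (f : Mor e L) (g : Matrix κ ι ℂ) (hg : ∀ v ∈ L, g.mulVec v ∈ L') :
    Mor e L' where
  φ := fun p => tm g hg (f.φ p)
  M := g * f.M
  cont := (tm_cont g hg).comp f.cont
  hol := by
    intro p hy
    obtain ⟨s, l, h1, h2, h3⟩ := f.hol p hy
    refine ⟨s, fun x => g.mulVec (l x), h1, h2, ?_⟩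
    filter_upwards [h3] with x hx
    obtain ⟨h, h4, h5⟩ := hx
    refine ⟨h, ?_, ?_⟩
    · rw [h4, tm_mk]
    · intro i
      have h6 : HasDerivAt (fun x => ∑ j, g i j * l x j)
          (∑ j, g i j * ((s x)⁻¹ * f.M.mulVec ![1, x] j)) x :=
        HasDerivAt.fun_sum fun j _ => (h5 j).const_mul (g i j)
      have h7 : (s x)⁻¹ * (g * f.M).mulVec ![1, x] i =
          ∑ j, g i j * ((s x)⁻¹ * f.M.mulVec ![1, x] j) := by
        rw [← Matrix.mulVec_mulVec]
        show (s x)⁻¹ * (∑ j, g i j * f.M.mulVec ![1, x] j) = _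
        rw [Finset.mul_sum]
        exact Finset.sum_congr rfl fun j _ => by ring
      rw [h7]
      exact h6
  zero := fun p hp => by
    show tm g hg (f.φ p) = 0
    rw [f.zero p hp, map_zero]

@[simp] theorem push_M (f : Mor e L) (g : Matrix κ ι ℂ) (hg : ∀ v ∈ L, g.mulVec v ∈ L') :
    (f.push g hg).M = g * f.M := rfl

theorem push_φ (f : Mor e L) (g : Matrix κ ι ℂ) (hg : ∀ v ∈ L, g.mulVec v ∈ L') :
    (f.push g hg).φ = fun p => tm g hg (f.φ p) := rfl

theorem push_add (f : Mor e L) (g g' : Matrix κ ι ℂ) (hg : ∀ v ∈ L, g.mulVec v ∈ L')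
    (hg' : ∀ v ∈ L, g'.mulVec v ∈ L') (h : ∀ v ∈ L, (g + g').mulVec v ∈ L') :
    (f.push (g + g') h).φ = (f.push g hg).φ + (f.push g' hg').φ := by
  ext p
  rw [push_φ, push_φ, push_φ]
  simp only [Pi.add_apply]
  obtain ⟨v, hv⟩ := QuotientAddGroup.mk_surjective (f.φ p)
  rw [← hv, tm_mk, tm_mk, tm_mk, Matrix.add_mulVec]
  rfl

theorem push_sub (f : Mor e L) (g g' : Matrix κ ι ℂ) (hg : ∀ v ∈ L, g.mulVec v ∈ L')
    (hg' : ∀ v ∈ L, g'.mulVec v ∈ L') (h : ∀ v ∈ L, (g - g').mulVec v ∈ L') :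
    (f.push (g - g') h).φ = (f.push g hg).φ - (f.push g' hg').φ := by
  ext p
  rw [push_φ, push_φ, push_φ]
  simp only [Pi.sub_apply]
  obtain ⟨v, hv⟩ := QuotientAddGroup.mk_surjective (f.φ p)
  rw [← hv, tm_mk, tm_mk, tm_mk, Matrix.sub_mulVec]
  rfl

/-- Push-forward of a chain. -/
noncomputable def PChain.push (D : PChain L) (g : Matrix κ ι ℂ) (hg : ∀ v ∈ L, g.mulVec v ∈ L') :
    PChain L' where
  e := D.e
  inj := D.inj
  m := D.m
  φ := fun k => (D.φ k).push g hg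
  ψ := fun k => (D.ψ k).push g hg
  c := D.c
  c_ne := D.c_ne
  a := D.a
  sum_a := D.sum_a
  r := D.r
  bdry := by
    intro θ h0 h1
    have h2 := D.bdry (fun χ => θ fun p => tm g hg (χ p)) (by
      show θ (fun p => tm g hg 0) = 0
      rw [map_zero]; exact h0) (by
      intro χ
      show θ (fun p => tm g hg (-χ p)) = θ fun p => tm g hg (χ p)
      rw [← h1 (fun p => tm g hg (χ p))]
      congr 1
      ext p
      rw [Pi.neg_apply, map_neg])
    rw [← h2]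
    refine Finset.sum_congr rfl fun k _ => ?_
    have e1 : ((D.φ k).push g hg).φ + ((D.ψ k).push g hg).φ =
        fun p => tm g hg (((D.φ k).φ + (D.ψ k).φ) p) := by
      ext p; simp only [push_φ, Pi.add_apply, map_add]
    have e2 : ((D.φ k).push g hg).φ - ((D.ψ k).push g hg).φ =
        fun p => tm g hg (((D.φ k).φ - (D.ψ k).φ) p) := by
      ext p; simp only [push_φ, Pi.sub_apply, map_sub]
    rw [e1, e2]
    rfl

end push

/-- The map from the curve to its torus. -/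
noncomputable def jac {e : Fin 5 → ℂ} (he : Near e) (hd : (Am e).det ≠ 0) :
    Mor e (Lat (Tm e)) where
  φ := fun p => phi e p.1
  M := Mt e
  cont := continuousOn_iff_continuous_domRestrict.1 (phi_cont he hd)
  hol := by
    rintro ⟨p, hp⟩ hy
    obtain ⟨s, l, h1, h2, h3⟩ := phi_hol he hd hp hy
    refine ⟨s, l, h1, h2, ?_⟩
    filter_upwards [h3] with x hx
    refine ⟨hx.1, hx.2.1, fun i => ?_⟩
    have := hasDerivAt_pi.1 hx.2.2 i
    exact this
  zero := by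
    rintro ⟨⟨x, y⟩, hp⟩ hy
    simp only at hy
    subst hy
    have h1 : ∏ k, (x - e k) = 0 := by
      have : (0:ℂ) ^ 2 = ∏ k, (x - e k) := hp
      rw [← this]; norm_num
    obtain ⟨k, -, hk⟩ := Finset.prod_eq_zero_iff.1 h1
    have hk' : x = e k := sub_eq_zero.1 hk
    subst hk'
    exact phi_branch k 0 hp

/-- All symmetric matrices near `Tm e0` are `Tm e` with `e` near `e0`. -/
theorem exists_near {P : (Fin 5 → ℂ) → Prop} (hP : ∀ᶠ e in 𝓝 e0, P e) :
    ∀ᶠ τ in 𝓝 (Tm e0), τ.IsSymm → ∃ e, Near e ∧ (Am e).det ≠ 0 ∧ Tm e = τ ∧ P e := by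
  have hD := Pool.Agent.H840.AS.Der.der
  have hT := Pool.Agent.H988.TOR.tor
  have he := near_e0
  have hd := data_e0.1
  have h1 : ∀ᶠ e' in 𝓝 e0, (Am e').det ≠ 0 := (continuousAt_det hD he).eventually_ne hd
  have h2 : ∀ᶠ e' in 𝓝 e0, Near e' := isOpen_Near.mem_nhds he
  have h4 : Gm '' {e' | (Am e').det ≠ 0 ∧ Near e' ∧ P e'} ∈ 𝓝 (Gm e0) := by
    rw [← Gm_open hD hT he hd]
    exact image_mem_map (h1.and (h2.and hP))
  have h5 : Continuous fun τ : Matrix (Fin 2) (Fin 2) ℂ => (![τ 0 0, τ 0 1, τ 1 1] : Fin 3 → ℂ) := by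
    refine continuous_pi fun i => ?_
    fin_cases i
    · exact continuous_apply_apply 0 0
    · exact continuous_apply_apply 0 1
    · exact continuous_apply_apply 1 1
  have h6 := (h5.tendsto (Tm e0)) h4
  filter_upwards [h6] with τ hτ hsym
  obtain ⟨e', ⟨hd', he', hV'⟩, hG⟩ := hτ
  have h7 : Tm e' = τ := by
    have g0 : Tm e' 0 0 = τ 0 0 := congrFun hG 0
    have g1 : Tm e' 0 1 = τ 0 1 := congrFun hG 1
    have g2 : Tm e' 1 1 = τ 1 1 := congrFun hG 2
    have s1 := (Tm_symm he').apply 0 1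
    have s2 := hsym.apply 0 1
    ext i k
    fin_cases i <;> fin_cases k
    · exact g0
    · exact g1
    · show Tm e' 1 0 = τ 1 0
      rw [s1, s2, g1]
    · exact g2
  exact ⟨e', he', hd', h7, hV'⟩

/-- The real span of the regulators of the chains whose branch points are mapped to zero. -/
noncomputable def Sp0 (Λ : AddSubgroup (Fin 2 → ℂ)) : Submodule ℝ (Matrix (Fin 2) (Fin 2) ℂ) :=
  Submodule.span ℝ {R | ∃ (e : Fin 5 → ℂ) (_ : Function.Injective e) (f : Mor e Λ)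
    (a : Fin 5 → ℤ) (_ : ∑ k, a k = 0) (c : ℂ) (_ : c ≠ 0),
    R = f.M * Rm e a c * f.M.conjTranspose}

theorem Sp0_push (Λ' Λ : AddSubgroup (Fin 2 → ℂ)) (g : Matrix (Fin 2) (Fin 2) ℂ)
    (hg : ∀ v ∈ Λ', g.mulVec v ∈ Λ) (Z : Matrix (Fin 2) (Fin 2) ℂ) (hZ : Z ∈ Sp0 Λ') :
    g * Z * g.conjTranspose ∈ Sp0 Λ := by
  refine Submodule.span_induction (p := fun Z _ => g * Z * g.conjTranspose ∈ Sp0 Λ)
    ?_ ?_ ?_ ?_ hZ
  · rintro _ ⟨e, he, f, a, ha, c, hc, rfl⟩
    refine Submodule.subset_span ⟨e, he, f.push g hg, a, ha, c, hc, ?_⟩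
    simp only [push_M, Matrix.conjTranspose_mul, Matrix.mul_assoc]
  · simp
  · intro a b _ _ ha hb
    rw [Matrix.mul_add, Matrix.add_mul]
    exact add_mem ha hb
  · intro r a _ ha
    rw [Matrix.mul_smul, Matrix.smul_mul]
    exact Submodule.smul_mem _ r ha

theorem loc0 {n : Fin 5 → ℤ} (hn : ∑ k, n k = 0) {c : ℂ} (hc : c ≠ 0) :
    ∀ V ∈ 𝓝 (Mt e0 * Rm e0 n c * (Mt e0).conjTranspose), ∀ᶠ τ in 𝓝 (Tm e0), τ.IsSymm →
      ∃ Z ∈ Sp0 (Lat τ), Z ∈ V := by
  intro V hV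
  have h3 : ∀ᶠ e' in 𝓝 e0, Mt e' * Rm e' n c * (Mt e').conjTranspose ∈ V :=
    (continuousAt_reg Pool.Agent.H840.AS.Der.der Pool.Agent.H671.CNT.main near_e0 data_e0.1 hn
      hc) hV
  filter_upwards [exists_near h3] with τ hτ hsym
  obtain ⟨e, he, hd, rfl, hV'⟩ := hτ hsym
  exact ⟨_, Submodule.subset_span ⟨e, he.inj, jac he hd, n, hn, c, hc, rfl⟩, hV'⟩

theorem hermitian_mem0 {τ : Matrix (Fin 2) (Fin 2) ℂ} (h1 : τ.IsSymm)
    (h2 : (τ.map Complex.im).PosDef) {Z : Matrix (Fin 2) (Fin 2) ℂ} (hZ : Z.IsHermitian) :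
    Z ∈ Sp0 (Lat τ) := by
  obtain ⟨hd, Y, m, hY, hm, hTY, hM⟩ := data_e0
  obtain ⟨⟨r, hr, hR⟩, p₁, p₂, hp₁, hp₂, hP⟩ :=
    Pool.Agent.H840.AS.Sgn.main Pool.Agent.H671.CNT.main
  have hMt : Mt e0 = -I • toC m := hM
  have hmne : m.det ≠ 0 := hm.ne_zero
  refine Pool.Agent.H722.GRP.s_GRP Sp0 Sp0_push Y (m * !![0, r; r, 0] * m.transpose)
    (m * !![p₁, 0; 0, p₂] * m.transpose) hY ?_ ?_ ?_ ?_ ?_ τ h1 h2 Z hZ
  · unfold Matrix.IsSymm
    rw [Matrix.transpose_mul, Matrix.transpose_mul, Matrix.transpose_transpose, Matrix.mul_assoc]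
    congr 1
    congr 1
    ext i k
    fin_cases i <;> fin_cases k <;> simp
  · rw [Matrix.det_mul, Matrix.det_mul, Matrix.det_transpose, Matrix.det_fin_two_of]
    have h3 : m.det * (0 * 0 - r * r) * m.det = -(m.det ^ 2 * r ^ 2) := by ring
    rw [h3]
    have h4 : 0 < m.det ^ 2 := by positivity
    have h5 : 0 < r ^ 2 := by nlinarith
    have := mul_pos h4 h5
    linarith
  · have h3 : (!![p₁, 0; 0, p₂] : Matrix (Fin 2) (Fin 2) ℝ).PosDef :=
      posDef_two hp₁ (by simpa using mul_pos hp₁ hp₂)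
    have h4 := h3.mul_mul_conjTranspose_same (B := m)
      (Matrix.vecMul_injective_of_isUnit ((Matrix.isUnit_iff_isUnit_det _).2 hm))
    rwa [Matrix.conjTranspose_eq_transpose_of_trivial] at h4
  · have h3 := loc0 (n := ![0, -1, 0, 1, 0]) (by decide) (c := 1) one_ne_zero
    rw [hMt, hR, conj_toC, hTY] at h3
    exact h3
  · have h3 := loc0 (n := 0) (by simp) (c := Complex.exp 1)
      (Complex.exp_ne_zero 1)
    rw [hMt, hP, conj_toC, hTY] at h3
    exact h3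

end Pool.Agent.H840.KP
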