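import Pool.Agent.H840.KP.Reg
import Pool.Agent.H840.KP.Ex
set_option autoImplicit false

/-!
# Powers of elliptic curves
-/

open Complex Filter Topology MeasureTheory Set

open scoped ComplexConjugate

namespace Pool.Agent.H840.KP

open Pool.Agent.H840.AS

theorem int_Pm {e : Fin 5 → ℂ} (he : Function.Injective e) (i j : Fin 2) : Integrable fun x : ℂ =>
    ((2 / ‖∏ k, (x - e k)‖ : ℝ) : ℂ) * (x ^ (i : ℕ) * conj x ^ (j : ℕ)) := by
  have h1 := int_Rm he (a := 0) (by simp) (Complex.exp_ne_zero 1) i j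
  refine h1.congr (Eventually.of_forall fun x => ?_)
  simp only [log_Pm, mul_one]

theorem Pm_eq (e : Fin 5 → ℂ) (i j : Fin 2) : Pm e i j = ∫ x : ℂ,
    ((2 / ‖∏ k, (x - e k)‖ : ℝ) : ℂ) * (x ^ (i : ℕ) * conj x ^ (j : ℕ)) := by
  unfold Pm Rm
  simp only [Matrix.of_apply, log_Pm, mul_one]

/-- Linear combinations of the entries of `Pm`. -/
theorem Pm_comb {e : Fin 5 → ℂ} (he : Function.Injective e) (u v : Fin 2 → ℂ) :
    (Integrable fun x : ℂ => ((2 / ‖∏ k, (x - e k)‖ : ℝ) : ℂ) *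
      ((u 0 + u 1 * x) * conj (v 0 + v 1 * x))) ∧
    ∑ a, ∑ b, u a * conj (v b) * Pm e a b = ∫ x : ℂ, ((2 / ‖∏ k, (x - e k)‖ : ℝ) : ℂ) *
      ((u 0 + u 1 * x) * conj (v 0 + v 1 * x)) := by
  have h := int_Pm he
  have h1 : (fun x : ℂ => ((2 / ‖∏ k, (x - e k)‖ : ℝ) : ℂ) *
      ((u 0 + u 1 * x) * conj (v 0 + v 1 * x))) = fun x => ∑ a : Fin 2, ∑ b : Fin 2,
        (u a * conj (v b)) * (((2 / ‖∏ k, (x - e k)‖ : ℝ) : ℂ) *
          (x ^ (a : ℕ) * conj x ^ (b : ℕ))) := by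
    ext x
    simp only [Fin.sum_univ_two, map_add, map_mul, Fin.val_zero, Fin.val_one, pow_zero, pow_one]
    ring
  have h2 : ∀ a b : Fin 2, Integrable fun x : ℂ => (u a * conj (v b)) *
      (((2 / ‖∏ k, (x - e k)‖ : ℝ) : ℂ) * (x ^ (a : ℕ) * conj x ^ (b : ℕ))) :=
    fun a b => (h a b).const_mul _
  have h3 : ∀ a : Fin 2, Integrable fun x : ℂ => ∑ b : Fin 2, (u a * conj (v b)) *
      (((2 / ‖∏ k, (x - e k)‖ : ℝ) : ℂ) * (x ^ (a : ℕ) * conj x ^ (b : ℕ))) :=
    fun a => integrable_finsetSum _ fun b _ => h2 a b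
  rw [h1]
  refine ⟨integrable_finsetSum _ fun a _ => h3 a, ?_⟩
  rw [integral_finsetSum _ fun a _ => h3 a]
  refine Finset.sum_congr rfl fun a _ => ?_
  rw [integral_finsetSum _ fun b _ => h2 a b]
  refine Finset.sum_congr rfl fun b _ => ?_
  rw [integral_const_mul, Pm_eq]

theorem Pm_pos {e : Fin 5 → ℂ} (he : Function.Injective e) (v : Fin 2 → ℂ) (hv : v ≠ 0) :
    ∃ ρ : ℝ, 0 < ρ ∧ ∑ a, ∑ b, v a * conj (v b) * Pm e a b = ρ := by
  obtain ⟨h1, h2⟩ := Pm_comb he v v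
  have h3 : (fun x : ℂ => ((2 / ‖∏ k, (x - e k)‖ : ℝ) : ℂ) *
      ((v 0 + v 1 * x) * conj (v 0 + v 1 * x))) = fun x =>
        ((2 / ‖∏ k, (x - e k)‖ * ‖v 0 + v 1 * x‖ ^ 2 : ℝ) : ℂ) := by
    ext x
    rw [Complex.mul_conj, Complex.normSq_eq_norm_sq]
    push_cast
    ring
  rw [h3] at h1 h2
  have h4 : Integrable fun x : ℂ => 2 / ‖∏ k, (x - e k)‖ * ‖v 0 + v 1 * x‖ ^ 2 := by
    have := Complex.reCLM.integrable_comp h1
    simpa only [Complex.reCLM_apply, Complex.ofReal_re] using this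
  refine ⟨∫ x : ℂ, 2 / ‖∏ k, (x - e k)‖ * ‖v 0 + v 1 * x‖ ^ 2, ?_, ?_⟩
  · have h0 : 0 ≤ fun x : ℂ => 2 / ‖∏ k, (x - e k)‖ * ‖v 0 + v 1 * x‖ ^ 2 := fun x => by positivity
    rw [lt_iff_le_and_ne]
    refine ⟨integral_nonneg h0, fun h5 => ?_⟩
    have h6 := (integral_eq_zero_iff_of_nonneg h0 h4).1 h5.symm
    have h7 : ∀ᵐ x : ℂ, v 0 + v 1 * x ≠ 0 := by
      by_cases h8 : v 1 = 0
      · refine Eventually.of_forall fun x hx => hv ?_
        ext i
        fin_cases i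
        · simpa [h8] using hx
        · exact h8
      · filter_upwards [Measure.ae_ne volume (-v 0 / v 1)] with x hx h9
        apply hx
        rw [eq_div_iff h8]
        linear_combination h9
    have h8 : ∀ᵐ x : ℂ, False := by
      filter_upwards [h6, h7, ae_all_iff.2 fun k => Measure.ae_ne volume (e k)] with x h9 h10 h11
      have h12 : ‖∏ k, (x - e k)‖ ≠ 0 :=
        norm_ne_zero_iff.2 (Finset.prod_ne_zero_iff.2 fun k _ => sub_ne_zero.2 (h11 k))
      have h13 : ‖v 0 + v 1 * x‖ ≠ 0 := norm_ne_zero_iff.2 h10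
      have h14 : 2 / ‖∏ k, (x - e k)‖ * ‖v 0 + v 1 * x‖ ^ 2 ≠ 0 := by positivity
      exact h14 h9
    exact h8.exists.elim fun _ h => h
  · rw [h2]
    exact integral_ofReal

/-- The real span of the regulators. -/
noncomputable def WW (Λ : AddSubgroup ℂ) (n : ℕ) :
    Submodule ℝ (Matrix (Fin n × Fin n) (Fin n × Fin n) ℂ) :=
  Submodule.span ℝ {Z | ∃ D : PChain (powE Λ n), D.reg = Z}

theorem tr_mul (M R P : Matrix (Fin 2) (Fin 2) ℂ) (i j k l : Fin 2) :
    tr M (fun i j k l => R i j * P k l) i j k l =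
      (M * R * M.conjTranspose) i j * (M * P * M.conjTranspose) k l := by
  simp only [tr, Matrix.mul_apply, Matrix.conjTranspose_apply, Fin.sum_univ_two,
    Complex.star_def]
  ring

/-- The matrix with columns `e_a`, `e_b`. -/
def cm {n : ℕ} (a b : Fin n) : Matrix (Fin n) (Fin 2) ℤ :=
  Matrix.of fun i j => if i = (![a, b] : Fin 2 → Fin n) j then 1 else 0

/-- The matrix with column number `k` equal to `w`. -/
def wm {n : ℕ} (w : Fin n → ℤ) (k : Fin 2) : Matrix (Fin n) (Fin 2) ℤ :=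
  Matrix.of fun i j => if j = k then w i else 0

/-- Complexification. -/
noncomputable abbrev zc {m n : ℕ} (N : Matrix (Fin m) (Fin n) ℤ) : Matrix (Fin m) (Fin n) ℂ :=
  N.map (fun z => (z : ℂ))

/-- A linear map. -/
noncomputable def Psi {n : ℕ} (a c : Fin n) (w : Fin n → ℤ) :
    Matrix (Fin 2) (Fin 2) ℂ →ₗ[ℝ] Matrix (Fin n × Fin n) (Fin n × Fin n) ℂ where
  toFun A := Matrix.of fun I J => ∑ i, ∑ j, A i j *
    (wd (fun x => zc (cm a c) x i) (fun x => (w x : ℂ)) I *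
      conj (wd (fun x => zc (cm a c) x j) (fun x => (w x : ℂ)) J))
  map_add' A B := by
    ext I J
    simp only [Matrix.of_apply, Matrix.add_apply, add_mul, Finset.sum_add_distrib]
  map_smul' r A := by
    ext I J
    simp only [Matrix.of_apply, Matrix.smul_apply, RingHom.id_apply, Finset.smul_sum,
      smul_mul_assoc]

theorem Psi_apply {n : ℕ} (a c : Fin n) (w : Fin n → ℤ) (A : Matrix (Fin 2) (Fin 2) ℂ)
    (I J : Fin n × Fin n) : Psi a c w A I J = ∑ i, ∑ j, A i j *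
    (wd (fun x => zc (cm a c) x i) (fun x => (w x : ℂ)) I *
      conj (wd (fun x => zc (cm a c) x j) (fun x => (w x : ℂ)) J)) := rfl

theorem con_wm {n : ℕ} (a c : Fin n) (w : Fin n → ℤ) (k : Fin 2)
    (A B : Matrix (Fin 2) (Fin 2) ℂ) (I J : Fin n × Fin n) :
    con (zc (cm a c)) (zc (wm w k)) (fun i j k l => A i j * B k l) I J =
      B k k * Psi a c w A I J := by
  rw [Psi_apply]
  fin_cases k
  · simp [con, Fin.sum_univ_two, wd, wm]
    ring
  · simp [con, Fin.sum_univ_two, wd, wm]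
    ring

theorem Psi_mem (h : S_INT2) (Λ : AddSubgroup ℂ) {n : ℕ} (a c : Fin n) (w : Fin n → ℤ)
    {R : Matrix (Fin 2) (Fin 2) ℂ} (hR : R ∈ Sp0 (powE Λ 2)) : Psi a c w R ∈ WW Λ n := by
  have h1 : Sp0 (powE Λ 2) ≤ (WW Λ n).comap (Psi a c w) := by
    unfold Sp0
    rw [Submodule.span_le]
    rintro _ ⟨e, he, f, a', ha', c', hc', rfl⟩
    show Psi a c w (f.M * Rm e a' c' * f.M.conjTranspose) ∈ WW Λ n
    by_cases hM : f.M = 0
    · rw [hM, Matrix.zero_mul, Matrix.zero_mul, map_zero]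
      exact zero_mem _
    obtain ⟨k, hk⟩ : ∃ k, f.M k ≠ 0 := by
      by_contra hcon
      push Not at hcon
      apply hM
      ext i j
      rw [hcon i]
      rfl
    obtain ⟨ρ, hρ, h2⟩ := Pm_pos he (f.M k) hk
    have h3 : (f.M * Pm e * f.M.conjTranspose) k k = ρ := by
      rw [← h2]
      simp only [Matrix.mul_apply, Matrix.conjTranspose_apply, Fin.sum_univ_two,
        Complex.star_def]
      ring
    have h4 : (triv he (f.push (zc (cm a c)) (zm_mem Λ _)) (f.push (zc (wm w k)) (zm_mem Λ _))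
        ha' hc').reg = ρ • Psi a c w (f.M * Rm e a' c' * f.M.conjTranspose) := by
      ext I J
      rw [reg_triv h he _ _ ha' hc', push_M, push_M, con_mul]
      have h5 : tr f.M (fun i j k l => Rm e a' c' i j * Pm e k l) = fun i j k l =>
          (f.M * Rm e a' c' * f.M.conjTranspose) i j * (f.M * Pm e * f.M.conjTranspose) k l := by
        ext i j k l
        exact tr_mul _ _ _ _ _ _ _
      rw [h5, con_wm, h3, Matrix.smul_apply, Complex.real_smul]
    have h6 : Psi a c w (f.M * Rm e a' c' * f.M.conjTranspose) = ρ⁻¹ •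
        (triv he (f.push (zc (cm a c)) (zm_mem Λ _)) (f.push (zc (wm w k)) (zm_mem Λ _))
        ha' hc').reg := by
      rw [h4, smul_smul, inv_mul_cancel₀ hρ.ne', one_smul]
    rw [h6]
    exact Submodule.smul_mem _ _ (Submodule.subset_span ⟨_, rfl⟩)
  exact h1 hR

theorem hyp1 (h : S_INT2) (Λ : AddSubgroup ℂ) (hspan : Submodule.span ℝ (Λ : Set ℂ) = ⊤)
    {n : ℕ} (a c : Fin n) (α γ : ℂ) (w : Fin n → ℤ) :
    rk (wd (Pi.single a α + Pi.single c γ) (fun i => (w i : ℂ))) ∈ WW Λ n := by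
  set v : Fin 2 → ℂ := ![α, γ] with hv
  have h1 : (Matrix.of fun i j => v i * conj (v j) : Matrix (Fin 2) (Fin 2) ℂ).IsHermitian := by
    ext i j
    simp only [Matrix.conjTranspose_apply, Matrix.of_apply, Complex.star_def, map_mul,
      Complex.conj_conj]
    ring
  have h2 := Psi_mem h Λ a c w (herm_powE Λ hspan h1)
  convert h2 using 1
  ext I J
  rw [Psi_apply]
  have h3 : ∀ I, wd (Pi.single a α + Pi.single c γ) (fun i => (w i : ℂ)) I =
      ∑ i, v i * wd (fun x => zc (cm a c) x i) (fun x => (w x : ℂ)) I := by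
    intro I
    have k0 : ∀ x, zc (cm a c) x 0 = if x = a then 1 else 0 := by
      intro x; by_cases hx : x = a <;> simp [cm, hx]
    have k1 : ∀ x, zc (cm a c) x 1 = if x = c then 1 else 0 := by
      intro x; by_cases hx : x = c <;> simp [cm, hx]
    simp only [wd, Fin.sum_univ_two, hv, Matrix.cons_val_zero, Matrix.cons_val_one, Pi.add_apply,
      Pi.single_apply, k0, k1]
    split_ifs <;> ring
  simp only [rk, Matrix.of_apply]
  rw [h3, h3]
  simp only [Fin.sum_univ_two, map_add, map_mul]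
  ring

/-- The alternating sum. -/
noncomputable def alt {n : ℕ} (a b c d : Fin n)
    (Z : Matrix (Fin n × Fin n) (Fin n × Fin n) ℂ) : ℂ :=
  Z (a, b) (c, d) - Z (a, c) (b, d) + Z (a, d) (b, c)

theorem con_row {ι : Type} (P Q : Matrix ι (Fin 2) ℂ) (T : T4) (I J : ι × ι) (x : ι)
    (hP : ∀ j, P x j = 0) (hQ : ∀ j, Q x j = 0)
    (hx : I.1 = x ∨ I.2 = x ∨ J.1 = x ∨ J.2 = x) : con P Q T I J = 0 := by
  unfold con
  refine Finset.sum_eq_zero fun i _ => Finset.sum_eq_zero fun j _ => Finset.sum_eq_zero fun k _ =>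
    Finset.sum_eq_zero fun l _ => ?_
  rcases hx with h | h | h | h
  · rw [h, hP, hQ]; simp
  · rw [h, hP, hQ]; simp
  · rw [h, hP, hQ]; simp
  · rw [h, hP, hQ]; simp

theorem cm_row {n : ℕ} (a b x : Fin n) (ha : x ≠ a) (hb : x ≠ b) (j : Fin 2) :
    zc (cm a b) x j = 0 := by
  fin_cases j <;> simp [cm, ha, hb]

section alt

variable {n : ℕ} {a b c d : Fin n} (hab : a ≠ b) (hac : a ≠ c) (had : a ≠ d) (hbc : b ≠ c)
  (hbd : b ≠ d) (hcd : c ≠ d)

include hab hac had hbc hbd hcd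

theorem alt_triv (T : T4) : alt a b c d (Matrix.of (con (zc (cm a b)) (zc (cm c d)) T)) =
    T 0 1 1 0 - T 0 1 0 1 := by
  have h1 : (zc (cm a b) : Matrix (Fin n) (Fin 2) ℂ) a 0 = 1 := by simp [cm]
  have h2 : (zc (cm a b) : Matrix (Fin n) (Fin 2) ℂ) a 1 = 0 := by simp [cm, hab]
  have h3 : (zc (cm a b) : Matrix (Fin n) (Fin 2) ℂ) b 0 = 0 := by simp [cm, hab.symm]
  have h4 : (zc (cm a b) : Matrix (Fin n) (Fin 2) ℂ) b 1 = 1 := by simp [cm]
  have h5 := cm_row a b c hac.symm hbc.symm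
  have h6 := cm_row a b d had.symm hbd.symm
  have g1 : (zc (cm c d) : Matrix (Fin n) (Fin 2) ℂ) c 0 = 1 := by simp [cm]
  have g2 : (zc (cm c d) : Matrix (Fin n) (Fin 2) ℂ) c 1 = 0 := by simp [cm, hcd]
  have g3 : (zc (cm c d) : Matrix (Fin n) (Fin 2) ℂ) d 0 = 0 := by simp [cm, hcd.symm]
  have g4 : (zc (cm c d) : Matrix (Fin n) (Fin 2) ℂ) d 1 = 1 := by simp [cm]
  have g5 := cm_row c d a hac had
  have g6 := cm_row c d b hbc hbd
  simp only [alt, Matrix.of_apply, con, Fin.sum_univ_two, h1, h2, h3, h4, h5, h6, g1, g2, g3, g4,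
    g5, g6, mul_zero, zero_mul, sub_zero, mul_one, one_mul, map_zero, map_one,
    add_zero, zero_add, zero_sub]
  ring

theorem alt_kap (T : T4) (hT : T 1 0 0 1 = T 0 1 1 0) :
    alt a b c d (Matrix.of fun I J => 4 * (con (zc (cm a b) + zc (cm c d))
      (zc (cm a b) - zc (cm c d)) T I J + 2 * con (zc (cm a b)) (zc (cm c d)) T I J -
        con (zc (cm a b)) (zc (cm a b)) T I J - con (zc (cm c d)) (zc (cm c d)) T I J)) =
    24 * (T 0 1 1 0 - T 0 1 0 1) := by
  have h1 : (zc (cm a b) : Matrix (Fin n) (Fin 2) ℂ) a 0 = 1 := by simp [cm]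
  have h2 : (zc (cm a b) : Matrix (Fin n) (Fin 2) ℂ) a 1 = 0 := by simp [cm, hab]
  have h3 : (zc (cm a b) : Matrix (Fin n) (Fin 2) ℂ) b 0 = 0 := by simp [cm, hab.symm]
  have h4 : (zc (cm a b) : Matrix (Fin n) (Fin 2) ℂ) b 1 = 1 := by simp [cm]
  have h5 := cm_row a b c hac.symm hbc.symm
  have h6 := cm_row a b d had.symm hbd.symm
  have g1 : (zc (cm c d) : Matrix (Fin n) (Fin 2) ℂ) c 0 = 1 := by simp [cm]
  have g2 : (zc (cm c d) : Matrix (Fin n) (Fin 2) ℂ) c 1 = 0 := by simp [cm, hcd]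
  have g3 : (zc (cm c d) : Matrix (Fin n) (Fin 2) ℂ) d 0 = 0 := by simp [cm, hcd.symm]
  have g4 : (zc (cm c d) : Matrix (Fin n) (Fin 2) ℂ) d 1 = 1 := by simp [cm]
  have g5 := cm_row c d a hac had
  have g6 := cm_row c d b hbc hbd
  simp only [alt, Matrix.of_apply, con, Fin.sum_univ_two, Matrix.add_apply, Matrix.sub_apply,
    h1, h2, h3, h4, h5, h6, g1, g2, g3, g4,
    g5, g6, mul_zero, zero_mul, sub_zero, zero_sub, mul_one, one_mul, map_zero, map_one, map_neg,
    add_zero, zero_add, sub_self, map_sub]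
  linear_combination 8 * hT

end alt

theorem tr_X0 (h : S_INT2) {e : Fin 5 → ℂ} (he : Function.Injective e)
    (M : Matrix (Fin 2) (Fin 2) ℂ) (i j k l : Fin 2) :
    (Integrable fun z : ℂ × ℂ => ((Real.log ‖z.1 - z.2‖ /
      (‖∏ k, (z.1 - e k)‖ * ‖∏ k, (z.2 - e k)‖) : ℝ) : ℂ) *
      ((M.mulVec ![1, z.1] i * conj (M.mulVec ![1, z.1] j)) *
        (M.mulVec ![1, z.2] k * conj (M.mulVec ![1, z.2] l)))) ∧
    tr M (X0 e) i j k l = ∫ z : ℂ × ℂ, ((Real.log ‖z.1 - z.2‖ /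
      (‖∏ k, (z.1 - e k)‖ * ‖∏ k, (z.2 - e k)‖) : ℝ) : ℂ) *
      ((M.mulVec ![1, z.1] i * conj (M.mulVec ![1, z.1] j)) *
        (M.mulVec ![1, z.2] k * conj (M.mulVec ![1, z.2] l))) := by
  set K : ℂ × ℂ → ℂ := fun z => ((Real.log ‖z.1 - z.2‖ /
      (‖∏ k, (z.1 - e k)‖ * ‖∏ k, (z.2 - e k)‖) : ℝ) : ℂ) with hK
  have h1 : (fun z : ℂ × ℂ => K z *
      ((M.mulVec ![1, z.1] i * conj (M.mulVec ![1, z.1] j)) *
        (M.mulVec ![1, z.2] k * conj (M.mulVec ![1, z.2] l)))) = fun z =>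
      ∑ a, ∑ b, ∑ c, ∑ d, (M i a * conj (M j b) * M k c * conj (M l d)) *
        (K z * mon a b c d z) := by
    ext z
    simp only [mon, Matrix.mulVec, dotProduct, Fin.sum_univ_two, Matrix.cons_val_zero,
      Matrix.cons_val_one, map_add, map_mul, Fin.val_zero, Fin.val_one, pow_zero,
      pow_one, mul_one, one_mul]
    ring
  have hi := int_X0 h he
  have h2 : ∀ a b c d : Fin 2, Integrable fun z => (M i a * conj (M j b) * M k c *
      conj (M l d)) * (K z * mon a b c d z) := fun a b c d => (hi a b c d).const_mul _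
  refine ⟨?_, ?_⟩
  · rw [h1]
    exact integrable_finsetSum _ fun a _ => integrable_finsetSum _ fun b _ =>
      integrable_finsetSum _ fun c _ => integrable_finsetSum _ fun d _ => h2 a b c d
  · rw [h1, integral_sum4 (fun a b c d => M i a * conj (M j b) * M k c * conj (M l d))
      (fun a b c d z => K z * mon a b c d z) hi]
    rfl

/-- The coefficients of the imaginary part. -/
theorem im_coeff (M : Matrix (Fin 2) (Fin 2) ℂ) (x : ℂ) :
    (M.mulVec ![1, x] 0 * conj (M.mulVec ![1, x] 1)).im =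
      (M 0 0 * conj (M 1 0)).im + (M 0 1 * conj (M 1 0) - conj (M 0 0) * M 1 1).im * x.re +
      (M 0 1 * conj (M 1 0) - conj (M 0 0) * M 1 1).re * x.im +
      (M 0 1 * conj (M 1 1)).im * ‖x‖ ^ 2 := by
  simp only [Matrix.mulVec, dotProduct, Fin.sum_univ_two, Matrix.cons_val_zero,
      Matrix.cons_val_one, mul_one, ← Complex.normSq_eq_norm_sq, Complex.normSq_apply,
      Complex.mul_im, Complex.mul_re, Complex.add_re, Complex.add_im, Complex.conj_re,
      Complex.conj_im, Complex.sub_re, Complex.sub_im]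
  ring

theorem coeff_ne {M : Matrix (Fin 2) (Fin 2) ℂ} (hM : M.det ≠ 0) :
    ¬((M 0 0 * conj (M 1 0)).im = 0 ∧ (M 0 1 * conj (M 1 0) - conj (M 0 0) * M 1 1).im = 0 ∧
      (M 0 1 * conj (M 1 0) - conj (M 0 0) * M 1 1).re = 0 ∧
      (M 0 1 * conj (M 1 1)).im = 0) := by
  rintro ⟨h1, h2, h3, -⟩
  have h4 : M 0 1 * conj (M 1 0) - conj (M 0 0) * M 1 1 = 0 := Complex.ext h3 h2
  have h5 : M 0 0 * conj (M 1 0) = conj (M 0 0) * M 1 0 := by
    have h6 : conj (M 0 0 * conj (M 1 0)) = M 0 0 * conj (M 1 0) := Complex.conj_eq_iff_im.2 h1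
    rw [map_mul, Complex.conj_conj] at h6
    exact h6.symm
  apply hM
  rw [Matrix.det_fin_two]
  by_cases h0 : M 0 0 = 0
  · rw [h0, map_zero, zero_mul, sub_zero] at h4
    rcases mul_eq_zero.1 h4 with h6 | h6
    · rw [h0, h6]; ring
    · have h7 : M 1 0 = 0 := by simpa using h6
      rw [h0, h7]; ring
  · have h6 : conj (M 0 0) ≠ 0 := by simpa using h0
    have h7 : conj (M 0 0) * (M 0 0 * M 1 1 - M 0 1 * M 1 0) = 0 := by
      linear_combination (-M 0 0) * h4 + M 0 1 * h5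
    exact (mul_eq_zero.1 h7).resolve_left h6

theorem Pm_herm (e : Fin 5 → ℂ) (i j : Fin 2) : conj (Pm e i j) = Pm e j i := by
  rw [Pm_eq, Pm_eq, ← integral_conj]
  congr 1
  ext x
  simp only [map_mul, map_pow, Complex.conj_ofReal, Complex.conj_conj]
  ring

theorem hyp2 (h : S_INT2) (hE : S_ENE) (Λ : AddSubgroup ℂ)
    (hspan : Submodule.span ℝ (Λ : Set ℂ) = ⊤) {n : ℕ} (a b c d : Fin n) (hab : a ≠ b)
    (hac : a ≠ c) (had : a ≠ d) (hbc : b ≠ c) (hbd : b ≠ d) (hcd : c ≠ d) :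
    ∃ Z ∈ WW Λ n, Z ∈ H22 (Fin n) ∧
        (∀ i j k l, Z (i, j) (k, l) ≠ 0 → i ∈ ({a, b, c, d} : Set (Fin n)) ∧
          j ∈ ({a, b, c, d} : Set (Fin n)) ∧ k ∈ ({a, b, c, d} : Set (Fin n)) ∧
          l ∈ ({a, b, c, d} : Set (Fin n))) ∧
        (Z (a, b) (c, d) - Z (a, c) (b, d) + Z (a, d) (b, c)).re ≠ 0 := by
  obtain ⟨e, he, f, hf⟩ := exists_powE Λ hspan
  set F : Mor e (powE Λ n) := f.push (zc (cm a b)) (zm_mem Λ _) with hF
  set G : Mor e (powE Λ n) := f.push (zc (cm c d)) (zm_mem Λ _) with hG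
  -- rows which are zero
  have hrow : ∀ x : Fin n, x ∉ ({a, b, c, d} : Set (Fin n)) →
      (∀ j, zc (cm a b) x j = 0) ∧ ∀ j, zc (cm c d) x j = 0 := by
    intro x hx
    simp only [mem_insert_iff, mem_singleton_iff, not_or] at hx
    exact ⟨cm_row a b x hx.1 hx.2.1, cm_row c d x hx.2.2.1 hx.2.2.2⟩
  have hsupp : ∀ (Z : Matrix (Fin n × Fin n) (Fin n × Fin n) ℂ),
      (∀ x : Fin n, x ∉ ({a, b, c, d} : Set (Fin n)) → ∀ I J : Fin n × Fin n,
        (I.1 = x ∨ I.2 = x ∨ J.1 = x ∨ J.2 = x) → Z I J = 0) →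
      ∀ i j k l, Z (i, j) (k, l) ≠ 0 → i ∈ ({a, b, c, d} : Set (Fin n)) ∧
          j ∈ ({a, b, c, d} : Set (Fin n)) ∧ k ∈ ({a, b, c, d} : Set (Fin n)) ∧
          l ∈ ({a, b, c, d} : Set (Fin n)) := by
    intro Z hZ i j k l hne
    refine ⟨?_, ?_, ?_, ?_⟩
    · by_contra hx; exact hne (hZ i hx _ _ (Or.inl rfl))
    · by_contra hx; exact hne (hZ j hx _ _ (Or.inr (Or.inl rfl)))
    · by_contra hx; exact hne (hZ k hx _ _ (Or.inr (Or.inr (Or.inl rfl))))
    · by_contra hx; exact hne (hZ l hx _ _ (Or.inr (Or.inr (Or.inr rfl))))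
  by_cases hP : ((f.M * Pm e * f.M.conjTranspose) 0 1).im = 0
  · -- the chain `kap`
    have hS : ∀ v ∈ powE Λ 2, (zc (cm a b) + zc (cm c d)).mulVec v ∈ powE Λ n := by
      intro v hv
      rw [Matrix.add_mulVec]
      exact add_mem (zm_mem Λ _ v hv) (zm_mem Λ _ v hv)
    have hD : ∀ v ∈ powE Λ 2, (zc (cm a b) - zc (cm c d)).mulVec v ∈ powE Λ n := by
      intro v hv
      rw [Matrix.sub_mulVec]
      exact sub_mem (zm_mem Λ _ v hv) (zm_mem Λ _ v hv)
    set S : Mor e (powE Λ n) := f.push _ hS with hS'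
    set D : Mor e (powE Λ n) := f.push _ hD with hD'
    have e1 : S.φ = F.φ + G.φ := push_add f _ _ _ _ _
    have e2 : D.φ = F.φ - G.φ := push_sub f _ _ _ _ _
    have hreg : ∀ I J, (kap he F G S D e1 e2).reg I J = 4 * (con (zc (cm a b) + zc (cm c d))
      (zc (cm a b) - zc (cm c d)) (tr f.M (X0 e)) I J +
        2 * con (zc (cm a b)) (zc (cm c d)) (tr f.M (X0 e)) I J -
        con (zc (cm a b)) (zc (cm a b)) (tr f.M (X0 e)) I J -
        con (zc (cm c d)) (zc (cm c d)) (tr f.M (X0 e)) I J) := by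
      intro I J
      rw [reg_kap h, hS', hD', hF, hG, push_M, push_M, push_M, push_M, con_mul, con_mul, con_mul,
        con_mul]
    refine ⟨(kap he F G S D e1 e2).reg, Submodule.subset_span ⟨_, rfl⟩, reg_mem _, ?_, ?_⟩
    · refine hsupp _ fun x hx I J hIJ => ?_
      obtain ⟨r1, r2⟩ := hrow x hx
      rw [hreg, con_row _ _ _ I J x r1 r2 hIJ, con_row _ _ _ I J x r1 r1 hIJ,
        con_row _ _ _ I J x r2 r2 hIJ, con_row _ _ _ I J x (fun j => by
          rw [Matrix.add_apply, r1, r2, add_zero]) (fun j => by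
          rw [Matrix.sub_apply, r1, r2, sub_zero]) hIJ]
      ring
    · have h1 : (kap he F G S D e1 e2).reg = Matrix.of fun I J =>
          4 * (con (zc (cm a b) + zc (cm c d))
          (zc (cm a b) - zc (cm c d)) (tr f.M (X0 e)) I J +
          2 * con (zc (cm a b)) (zc (cm c d)) (tr f.M (X0 e)) I J -
          con (zc (cm a b)) (zc (cm a b)) (tr f.M (X0 e)) I J -
          con (zc (cm c d)) (zc (cm c d)) (tr f.M (X0 e)) I J) := by
        ext I J
        exact hreg I J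
      show (alt a b c d (kap he F G S D e1 e2).reg).re ≠ 0
      obtain ⟨i1, v1⟩ := tr_X0 h he f.M 0 1 1 0
      obtain ⟨i2, v2⟩ := tr_X0 h he f.M 0 1 0 1
      obtain ⟨i3, v3⟩ := tr_X0 h he f.M 1 0 0 1
      have hsw : tr f.M (X0 e) 1 0 0 1 = tr f.M (X0 e) 0 1 1 0 := by
        simp only [tr, Fin.sum_univ_two]
        rw [X0_swap e 0 0 0 1, X0_swap e 0 0 1 0, X0_swap e 0 0 1 1, X0_swap e 0 1 1 0,
          X0_swap e 0 1 1 1, X0_swap e 1 0 1 1]
        ring
      rw [h1, alt_kap hab hac had hbc hbd hcd _ hsw, v1, v2, ← integral_sub i1 i2]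
      have h2 : (fun z : ℂ × ℂ => ((Real.log ‖z.1 - z.2‖ /
          (‖∏ k, (z.1 - e k)‖ * ‖∏ k, (z.2 - e k)‖) : ℝ) : ℂ) *
          ((f.M.mulVec ![1, z.1] 0 * conj (f.M.mulVec ![1, z.1] 1)) *
            (f.M.mulVec ![1, z.2] 1 * conj (f.M.mulVec ![1, z.2] 0))) -
          ((Real.log ‖z.1 - z.2‖ /
          (‖∏ k, (z.1 - e k)‖ * ‖∏ k, (z.2 - e k)‖) : ℝ) : ℂ) *
          ((f.M.mulVec ![1, z.1] 0 * conj (f.M.mulVec ![1, z.1] 1)) *
            (f.M.mulVec ![1, z.2] 0 * conj (f.M.mulVec ![1, z.2] 1)))) = fun z =>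
          ((Real.log ‖z.1 - z.2‖ /
          (‖∏ k, (z.1 - e k)‖ * ‖∏ k, (z.2 - e k)‖) : ℝ) : ℂ) *
          ((f.M.mulVec ![1, z.1] 0 * conj (f.M.mulVec ![1, z.1] 1)) *
          (conj (f.M.mulVec ![1, z.2] 0 * conj (f.M.mulVec ![1, z.2] 1)) -
            f.M.mulVec ![1, z.2] 0 * conj (f.M.mulVec ![1, z.2] 1))) := by
        ext z
        rw [map_mul, Complex.conj_conj]
        ring
      have i4 := i1.sub i2
      have i5 : Integrable fun z : ℂ × ℂ => ((Real.log ‖z.1 - z.2‖ /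
          (‖∏ k, (z.1 - e k)‖ * ‖∏ k, (z.2 - e k)‖) : ℝ) : ℂ) *
          ((f.M.mulVec ![1, z.1] 0 * conj (f.M.mulVec ![1, z.1] 1)) *
          (conj (f.M.mulVec ![1, z.2] 0 * conj (f.M.mulVec ![1, z.2] 1)) -
            f.M.mulVec ![1, z.2] 0 * conj (f.M.mulVec ![1, z.2] 1))) := by
        rw [← h2]
        exact i4
      rw [h2]
      have h3 : ∀ x : ℂ, Complex.re (24 * x) = 24 * x.re := by intro x; simp
      rw [h3]
      have h4 := Complex.reCLM.integral_comp_comm i5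
      simp only [Complex.reCLM_apply] at h4
      rw [← h4]
      have h5 : (fun z : ℂ × ℂ => (((Real.log ‖z.1 - z.2‖ /
          (‖∏ k, (z.1 - e k)‖ * ‖∏ k, (z.2 - e k)‖) : ℝ) : ℂ) *
          ((f.M.mulVec ![1, z.1] 0 * conj (f.M.mulVec ![1, z.1] 1)) *
          (conj (f.M.mulVec ![1, z.2] 0 * conj (f.M.mulVec ![1, z.2] 1)) -
            f.M.mulVec ![1, z.2] 0 * conj (f.M.mulVec ![1, z.2] 1)))).re) = fun z : ℂ × ℂ =>
          2 * (Real.log ‖z.1 - z.2‖ /
          (‖∏ k, (z.1 - e k)‖ * ‖∏ k, (z.2 - e k)‖) *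
          (((f.M 0 0 * conj (f.M 1 0)).im +
          (f.M 0 1 * conj (f.M 1 0) - conj (f.M 0 0) * f.M 1 1).im * z.1.re +
          (f.M 0 1 * conj (f.M 1 0) - conj (f.M 0 0) * f.M 1 1).re * z.1.im +
          (f.M 0 1 * conj (f.M 1 1)).im * ‖z.1‖ ^ 2) *
          ((f.M 0 0 * conj (f.M 1 0)).im +
          (f.M 0 1 * conj (f.M 1 0) - conj (f.M 0 0) * f.M 1 1).im * z.2.re +
          (f.M 0 1 * conj (f.M 1 0) - conj (f.M 0 0) * f.M 1 1).re * z.2.im +
          (f.M 0 1 * conj (f.M 1 1)).im * ‖z.2‖ ^ 2))) := by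
        ext z
        rw [← im_coeff, ← im_coeff, Complex.re_ofReal_mul]
        have h6 : ∀ A B : ℂ, (A * (conj B - B)).re = 2 * (A.im * B.im) := by
          intro A B
          simp only [Complex.mul_re, Complex.sub_re, Complex.sub_im, Complex.conj_re,
            Complex.conj_im]
          ring
        rw [h6]
        ring
      rw [h5, integral_const_mul]
      have h7 := hE h e (f.M 0 0 * conj (f.M 1 0)).im
        (f.M 0 1 * conj (f.M 1 0) - conj (f.M 0 0) * f.M 1 1).im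
        (f.M 0 1 * conj (f.M 1 0) - conj (f.M 0 0) * f.M 1 1).re
        (f.M 0 1 * conj (f.M 1 1)).im he (coeff_ne hf) (by
          obtain ⟨j1, j2⟩ := Pm_comb he (f.M 0) (f.M 1)
          have j3 : (f.M * Pm e * f.M.conjTranspose) 0 1 =
              ∑ a, ∑ b, f.M 0 a * conj (f.M 1 b) * Pm e a b := by
            simp only [Matrix.mul_apply, Matrix.conjTranspose_apply, Fin.sum_univ_two,
              Complex.star_def]
            ring
          rw [j3, j2] at hP
          have j4 := Complex.imCLM.integral_comp_comm j1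
          simp only [Complex.imCLM_apply] at j4
          rw [← j4] at hP
          have j5 : (fun x : ℂ => (((2 / ‖∏ k, (x - e k)‖ : ℝ) : ℂ) *
              ((f.M 0 0 + f.M 0 1 * x) * conj (f.M 1 0 + f.M 1 1 * x))).im) = fun x : ℂ =>
              2 * (((f.M 0 0 * conj (f.M 1 0)).im +
              (f.M 0 1 * conj (f.M 1 0) - conj (f.M 0 0) * f.M 1 1).im * x.re +
              (f.M 0 1 * conj (f.M 1 0) - conj (f.M 0 0) * f.M 1 1).re * x.im +
              (f.M 0 1 * conj (f.M 1 1)).im * ‖x‖ ^ 2) / ‖∏ k, (x - e k)‖) := by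
            ext x
            rw [← im_coeff, Complex.im_ofReal_mul]
            simp only [Matrix.mulVec, dotProduct, Fin.sum_univ_two, Matrix.cons_val_zero,
              Matrix.cons_val_one, mul_one]
            ring
          rw [j5, integral_const_mul] at hP
          linarith)
      intro h8
      linarith
  · -- the trivial chain
    have hreg : ∀ I J, (triv he F G (a := 0) (by simp) (Complex.exp_ne_zero 1)).reg I J =
        con (zc (cm a b)) (zc (cm c d)) (fun i j k l =>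
          (f.M * Pm e * f.M.conjTranspose) i j * (f.M * Pm e * f.M.conjTranspose) k l) I J := by
      intro I J
      rw [reg_triv h, hF, hG, push_M, push_M, con_mul]
      congr 1
      ext i j k l
      exact tr_mul _ _ _ _ _ _ _
    refine ⟨(triv he F G (a := 0) (by simp) (Complex.exp_ne_zero 1)).reg,
      Submodule.subset_span ⟨_, rfl⟩, reg_mem _, ?_, ?_⟩
    · refine hsupp _ fun x hx I J hIJ => ?_
      obtain ⟨r1, r2⟩ := hrow x hx
      rw [hreg, con_row _ _ _ I J x r1 r2 hIJ]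
    · show (alt a b c d (triv he F G (a := 0) (by simp) (Complex.exp_ne_zero 1)).reg).re ≠ 0
      have h1 : (triv he F G (a := 0) (by simp) (Complex.exp_ne_zero 1)).reg = Matrix.of
          (con (zc (cm a b)) (zc (cm c d)) (fun i j k l =>
          (f.M * Pm e * f.M.conjTranspose) i j * (f.M * Pm e * f.M.conjTranspose) k l)) := by
        ext I J
        exact hreg I J
      rw [h1, alt_triv hab hac had hbc hbd hcd]
      have h2 : (f.M * Pm e * f.M.conjTranspose) 1 0 =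
          conj ((f.M * Pm e * f.M.conjTranspose) 0 1) := by
        simp only [Matrix.mul_apply, Matrix.conjTranspose_apply, Fin.sum_univ_two,
          Complex.star_def, map_add, map_mul, Pm_herm, Complex.conj_conj]
        ring
      rw [h2]
      set w := (f.M * Pm e * f.M.conjTranspose) 0 1
      have h3 : (w * conj w - w * w).re = 2 * w.im ^ 2 := by
        simp only [Complex.mul_re, Complex.sub_re, Complex.conj_re,
            Complex.conj_im]
        ring
      rw [h3]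
      have : w.im ^ 2 ≠ 0 := pow_ne_zero _ hP
      intro h4
      apply this
      linarith

end Pool.Agent.H840.KP
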