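import Pool.Agent.H840.KP.One
import Pool.Agent.H840.KP.Clo
set_option autoImplicit false

/-!
# Powers of elliptic curves: assembly
-/

open Complex Filter Topology MeasureTheory Set

open scoped ComplexConjugate

namespace Pool.Agent.H840.KP

/-- `H22` as a real subspace. -/
def H22s (ι : Type) : Submodule ℝ (Matrix (ι × ι) (ι × ι) ℂ) where
  carrier := H22 ι
  zero_mem' := ⟨Matrix.isHermitian_zero, fun i j J => by simp⟩
  add_mem' := by
    rintro a b ⟨ha, ha'⟩ ⟨hb, hb'⟩
    refine ⟨ha.add hb, fun i j J => ?_⟩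
    rw [Matrix.add_apply, Matrix.add_apply, ha' i j J, hb' i j J]
    ring
  smul_mem' := by
    rintro r a ⟨ha, ha'⟩
    refine ⟨?_, fun i j J => ?_⟩
    · unfold Matrix.IsHermitian at ha ⊢
      rw [Matrix.conjTranspose_smul, ha, star_trivial]
    · rw [Matrix.smul_apply, Matrix.smul_apply, ha' i j J, smul_neg]

theorem H22s_closed (ι : Type) : IsClosed (H22s ι : Set (Matrix (ι × ι) (ι × ι) ℂ)) := by
  have h1 : (H22s ι : Set (Matrix (ι × ι) (ι × ι) ℂ)) = {Z | Z.conjTranspose = Z} ∩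
      ⋂ i, ⋂ j, ⋂ J, {Z | Z (i, j) J = -Z (j, i) J} := by
    ext Z
    simp only [mem_inter_iff, mem_iInter, mem_setOf_eq]
    rfl
  rw [h1]
  refine IsClosed.inter (isClosed_eq continuous_id.matrix_conjTranspose continuous_id) ?_
  refine isClosed_iInter fun i => isClosed_iInter fun j => isClosed_iInter fun J => ?_
  exact isClosed_eq (continuous_id.matrix_elem _ _) (continuous_id.matrix_elem _ _).neg

theorem powE_main (h : S_INT2) (hE : S_ENE) (hL : S_LIN) (Λ : AddSubgroup ℂ)
    (hspan : Submodule.span ℝ (Λ : Set ℂ) = ⊤) (n : ℕ) :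
    closure (Submodule.span ℚ {Z : Matrix (Fin n × Fin n) (Fin n × Fin n) ℂ |
      ∃ D : PChain (powE Λ n), D.reg = Z} :
        Set (Matrix (Fin n × Fin n) (Fin n × Fin n) ℂ)) = H22 (Fin n) := by
  refine closure_span_eq (H22s (Fin n)) (H22s_closed _) ?_ ?_
  · rintro _ ⟨D, rfl⟩
    exact reg_mem D
  · intro Z hZ
    exact hL n (WW Λ n) (fun a c α γ w => hyp1 h Λ hspan a c α γ w)
      (fun a b c d hab hac had hbc hbd hcd => hyp2 h hE Λ hspan a b c d hab hac had hbc hbd hcd)
      Z hZ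

end Pool.Agent.H840.KP
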