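import Pool.Agent.H840.KP.Mor
set_option autoImplicit false

/-!
# Expansion of the regulator
-/

open Complex Filter Topology MeasureTheory Set

open scoped ComplexConjugate

namespace Pool.Agent.H840.KP

open Pool.Agent.H840.AS

/-- Tensors with four indices. -/
abbrev T4 : Type := Fin 2 → Fin 2 → Fin 2 → Fin 2 → ℂ

/-- The monomials. -/
noncomputable def mon (i j k l : Fin 2) (z : ℂ × ℂ) : ℂ :=
  (z.1 ^ (i : ℕ) * conj z.1 ^ (j : ℕ)) * (z.2 ^ (k : ℕ) * conj z.2 ^ (l : ℕ))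

/-- The contraction of a tensor. -/
noncomputable def con {ι : Type} (P Q : Matrix ι (Fin 2) ℂ) (T : T4) (I J : ι × ι) : ℂ :=
  ∑ i, ∑ j, ∑ k, ∑ l, (P I.1 i * Q I.2 k - P I.2 i * Q I.1 k) *
    conj (P J.1 j * Q J.2 l - P J.2 j * Q J.1 l) * T i j k l

theorem wd_mul {ι : Type} (P Q : Matrix ι (Fin 2) ℂ) (z : ℂ × ℂ) (I J : ι × ι) :
    wd (P.mulVec ![1, z.1]) (Q.mulVec ![1, z.2]) I *
      conj (wd (P.mulVec ![1, z.1]) (Q.mulVec ![1, z.2]) J) =
    con P Q (fun i j k l => mon i j k l z) I J := by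
  simp only [wd, con, mon, Matrix.mulVec, dotProduct, Fin.sum_univ_two, Matrix.cons_val_zero,
    Matrix.cons_val_one, map_add, map_mul, map_sub, Fin.val_zero, Fin.val_one, pow_zero,
    pow_one, mul_one, one_mul]
  ring

theorem integral_sum4 {α : Type*} [MeasurableSpace α] {μ : Measure α} (C : T4)
    (f : Fin 2 → Fin 2 → Fin 2 → Fin 2 → α → ℂ) (hf : ∀ i j k l, Integrable (f i j k l) μ) :
    ∫ z, ∑ i, ∑ j, ∑ k, ∑ l, C i j k l * f i j k l z ∂μ =
      ∑ i, ∑ j, ∑ k, ∑ l, C i j k l * ∫ z, f i j k l z ∂μ := by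
  have h1 : ∀ i j k l, Integrable (fun z => C i j k l * f i j k l z) μ :=
    fun i j k l => (hf i j k l).const_mul _
  have h2 : ∀ i j k, Integrable (fun z => ∑ l, C i j k l * f i j k l z) μ :=
    fun i j k => integrable_finsetSum _ fun l _ => h1 i j k l
  have h3 : ∀ i j, Integrable (fun z => ∑ k, ∑ l, C i j k l * f i j k l z) μ :=
    fun i j => integrable_finsetSum _ fun k _ => h2 i j k
  have h4 : ∀ i, Integrable (fun z => ∑ j, ∑ k, ∑ l, C i j k l * f i j k l z) μ :=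
    fun i => integrable_finsetSum _ fun j _ => h3 i j
  rw [integral_finsetSum _ fun i _ => h4 i]
  refine Finset.sum_congr rfl fun i _ => ?_
  rw [integral_finsetSum _ fun j _ => h3 i j]
  refine Finset.sum_congr rfl fun j _ => ?_
  rw [integral_finsetSum _ fun k _ => h2 i j k]
  refine Finset.sum_congr rfl fun k _ => ?_
  rw [integral_finsetSum _ fun l _ => h1 i j k l]
  refine Finset.sum_congr rfl fun l _ => ?_
  rw [integral_const_mul]

theorem integral_con {ι : Type} (P Q : Matrix ι (Fin 2) ℂ) (K : ℂ × ℂ → ℂ)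
    (hK : ∀ i j k l, Integrable fun z => K z * mon i j k l z) (I J : ι × ι) :
    ∫ z, K z * (wd (P.mulVec ![1, z.1]) (Q.mulVec ![1, z.2]) I *
      conj (wd (P.mulVec ![1, z.1]) (Q.mulVec ![1, z.2]) J)) =
    con P Q (fun i j k l => ∫ z, K z * mon i j k l z) I J := by
  unfold con
  rw [← integral_sum4 _ _ hK]
  congr 1
  ext z
  rw [wd_mul]
  unfold con
  simp only [Finset.mul_sum]
  refine Finset.sum_congr rfl fun i _ => Finset.sum_congr rfl fun j _ =>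
    Finset.sum_congr rfl fun k _ => Finset.sum_congr rfl fun l _ => ?_
  ring

/-- The double integrals. -/
noncomputable def X0 (e : Fin 5 → ℂ) : T4 := fun i j k l => ∫ z : ℂ × ℂ,
  ((Real.log ‖z.1 - z.2‖ / (‖∏ k, (z.1 - e k)‖ * ‖∏ k, (z.2 - e k)‖) : ℝ) : ℂ) * mon i j k l z

/-- The matrix of the integrals for the constant function `exp 1`. -/
noncomputable def Pm (e : Fin 5 → ℂ) : Matrix (Fin 2) (Fin 2) ℂ := Rm e 0 (Complex.exp 1)

theorem int_X0 (h : S_INT2) {e : Fin 5 → ℂ} (he : Function.Injective e) (i j k l : Fin 2) :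
    Integrable fun z : ℂ × ℂ => ((Real.log ‖z.1 - z.2‖ /
      (‖∏ k, (z.1 - e k)‖ * ‖∏ k, (z.2 - e k)‖) : ℝ) : ℂ) * mon i j k l z :=
  h e i j k l he (p_le i) (p_le j) (p_le k) (p_le l)

theorem log_Pm (e : Fin 5 → ℂ) (x : ℂ) :
    Real.log ‖Complex.exp 1 * ∏ k, (x - e k) ^ (0 : Fin 5 → ℤ) k‖ = 1 := by
  simp [Complex.norm_exp]

theorem int_Rm {e : Fin 5 → ℂ} (he : Function.Injective e) {a : Fin 5 → ℤ} (ha : ∑ k, a k = 0)
    {c : ℂ} (hc : c ≠ 0) (i j : Fin 2) : Integrable fun x : ℂ =>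
      ((2 * Real.log ‖c * ∏ k, (x - e k) ^ a k‖ / ‖∏ k, (x - e k)‖ : ℝ) : ℂ) *
        (x ^ (i : ℕ) * conj x ^ (j : ℕ)) :=
  (Pool.Agent.H671.CNT.main e a c i j he ha hc (p_le i) (p_le j)).1

theorem ae_ne (a : ℂ) : ∀ᵐ z : ℂ × ℂ, z.1 ≠ a :=
  Measure.quasiMeasurePreserving_fst.ae (Measure.ae_ne volume a)

theorem ae_ne' (a : ℂ) : ∀ᵐ z : ℂ × ℂ, z.2 ≠ a :=
  Measure.quasiMeasurePreserving_snd.ae (Measure.ae_ne volume a)

theorem ae_diag : ∀ᵐ z : ℂ × ℂ, z.1 ≠ z.2 := by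
  have hm : MeasurableSet {z : ℂ × ℂ | z.1 ≠ z.2} :=
    (isClosed_eq continuous_fst continuous_snd).isOpen_compl.measurableSet
  refine (Measure.ae_prod_iff_ae_ae (p := fun z : ℂ × ℂ => z.1 ≠ z.2) hm).2 ?_
  refine Eventually.of_forall fun x => ?_
  filter_upwards [Measure.ae_ne volume x] with y hy using fun h => hy h.symm

/-- The tensor of the integrals of the logarithm of one function. -/
noncomputable def Tt (e : Fin 5 → ℂ) (a : Fin 5 → ℤ) (c : ℂ) (r : ℤ) : T4 := fun i j k l =>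
  Rm e a c i j * Pm e k l + (4 * r : ℂ) * X0 e i j k l

theorem term_eq (h : S_INT2) {e : Fin 5 → ℂ} (he : Function.Injective e) {a : Fin 5 → ℤ}
    (ha : ∑ k, a k = 0) {c : ℂ} (hc : c ≠ 0) (r : ℤ) {ι : Type} (P Q : Matrix ι (Fin 2) ℂ)
    (I J : ι × ι) :
    ∫ z : ℂ × ℂ, ((4 * Real.log ‖c * (∏ j, (z.1 - e j) ^ a j) * (z.1 - z.2) ^ r‖ /
      (‖∏ j, (z.1 - e j)‖ * ‖∏ j, (z.2 - e j)‖) : ℝ) : ℂ) *
      (wd (P.mulVec ![1, z.1]) (Q.mulVec ![1, z.2]) I *
        conj (wd (P.mulVec ![1, z.1]) (Q.mulVec ![1, z.2]) J)) =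
    con P Q (Tt e a c r) I J := by
  -- the two parts of the kernel
  have h1 : ∀ᵐ z : ℂ × ℂ, ((4 * Real.log ‖c * (∏ j, (z.1 - e j) ^ a j) * (z.1 - z.2) ^ r‖ /
      (‖∏ j, (z.1 - e j)‖ * ‖∏ j, (z.2 - e j)‖) : ℝ) : ℂ) =
      ((2 * Real.log ‖c * ∏ k, (z.1 - e k) ^ a k‖ / ‖∏ k, (z.1 - e k)‖ : ℝ) : ℂ) *
      ((2 * Real.log ‖Complex.exp 1 * ∏ k, (z.2 - e k) ^ (0 : Fin 5 → ℤ) k‖ /
        ‖∏ k, (z.2 - e k)‖ : ℝ) : ℂ) + (4 * r : ℂ) *
      ((Real.log ‖z.1 - z.2‖ / (‖∏ k, (z.1 - e k)‖ * ‖∏ k, (z.2 - e k)‖) : ℝ) : ℂ) := by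
    filter_upwards [ae_diag, ae_all_iff.2 fun k => ae_ne (e k)] with z hz hk
    have h2 : ‖c * ∏ j, (z.1 - e j) ^ a j‖ ≠ 0 := by
      refine norm_ne_zero_iff.2 (mul_ne_zero hc (Finset.prod_ne_zero_iff.2 fun j _ =>
        zpow_ne_zero _ (sub_ne_zero.2 (hk j))))
    have h3 : ‖z.1 - z.2‖ ≠ 0 := norm_ne_zero_iff.2 (sub_ne_zero.2 hz)
    rw [log_Pm, norm_mul (c * _), norm_zpow, Real.log_mul h2 (zpow_ne_zero _ h3), Real.log_zpow]
    push_cast
    ring
  set K1 : ℂ × ℂ → ℂ := fun z =>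
    ((2 * Real.log ‖c * ∏ k, (z.1 - e k) ^ a k‖ / ‖∏ k, (z.1 - e k)‖ : ℝ) : ℂ) *
      ((2 * Real.log ‖Complex.exp 1 * ∏ k, (z.2 - e k) ^ (0 : Fin 5 → ℤ) k‖ /
        ‖∏ k, (z.2 - e k)‖ : ℝ) : ℂ) with hK1
  set K2 : ℂ × ℂ → ℂ := fun z =>
    ((Real.log ‖z.1 - z.2‖ / (‖∏ k, (z.1 - e k)‖ * ‖∏ k, (z.2 - e k)‖) : ℝ) : ℂ) with hK2
  have e1 : ∀ i j k l, (fun z => K1 z * mon i j k l z) = fun z : ℂ × ℂ =>
      (((2 * Real.log ‖c * ∏ k, (z.1 - e k) ^ a k‖ / ‖∏ k, (z.1 - e k)‖ : ℝ) : ℂ) *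
        (z.1 ^ (i : ℕ) * conj z.1 ^ (j : ℕ))) *
      (((2 * Real.log ‖Complex.exp 1 * ∏ k, (z.2 - e k) ^ (0 : Fin 5 → ℤ) k‖ /
        ‖∏ k, (z.2 - e k)‖ : ℝ) : ℂ) * (z.2 ^ (k : ℕ) * conj z.2 ^ (l : ℕ))) := by
    intro i j k l
    ext z
    rw [hK1, mon]
    ring
  have i1 : ∀ i j k l, Integrable fun z => K1 z * mon i j k l z := by
    intro i j k l
    rw [e1]
    exact (int_Rm he ha hc i j).mul_prod
      (int_Rm he (a := 0) (by simp) (Complex.exp_ne_zero 1) k l)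
  have v1 : ∀ i j k l, ∫ z, K1 z * mon i j k l z = Rm e a c i j * Pm e k l := by
    intro i j k l
    rw [e1]
    exact integral_prod_mul
      (f := fun x : ℂ => ((2 * Real.log ‖c * ∏ k, (x - e k) ^ a k‖ / ‖∏ k, (x - e k)‖ : ℝ) : ℂ) *
        (x ^ (i : ℕ) * conj x ^ (j : ℕ)))
      (g := fun x : ℂ => ((2 * Real.log ‖Complex.exp 1 * ∏ k, (x - e k) ^ (0 : Fin 5 → ℤ) k‖ /
        ‖∏ k, (x - e k)‖ : ℝ) : ℂ) * (x ^ (k : ℕ) * conj x ^ (l : ℕ)))
  have i2 : ∀ i j k l, Integrable fun z => K2 z * mon i j k l z := int_X0 h he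
  have e3 : ∀ i j k l, (fun z => (K1 z + (4 * r : ℂ) * K2 z) * mon i j k l z) =
      fun z => K1 z * mon i j k l z + (4 * r : ℂ) * (K2 z * mon i j k l z) := by
    intro i j k l
    ext z
    ring
  have i3 : ∀ i j k l, Integrable fun z => (K1 z + (4 * r : ℂ) * K2 z) * mon i j k l z := by
    intro i j k l
    rw [e3]
    exact (i1 i j k l).add ((i2 i j k l).const_mul _)
  have h4 : ∫ z : ℂ × ℂ, ((4 * Real.log ‖c * (∏ j, (z.1 - e j) ^ a j) * (z.1 - z.2) ^ r‖ /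
      (‖∏ j, (z.1 - e j)‖ * ‖∏ j, (z.2 - e j)‖) : ℝ) : ℂ) *
      (wd (P.mulVec ![1, z.1]) (Q.mulVec ![1, z.2]) I *
        conj (wd (P.mulVec ![1, z.1]) (Q.mulVec ![1, z.2]) J)) =
      ∫ z, (K1 z + (4 * r : ℂ) * K2 z) * (wd (P.mulVec ![1, z.1]) (Q.mulVec ![1, z.2]) I *
        conj (wd (P.mulVec ![1, z.1]) (Q.mulVec ![1, z.2]) J)) := by
    refine integral_congr_ae ?_
    filter_upwards [h1] with z hz
    rw [hz]
  rw [h4, integral_con P Q _ i3]
  congr 1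
  ext i j k l
  rw [e3, integral_add (i1 i j k l) ((i2 i j k l).const_mul _), integral_const_mul, v1]
  rfl

theorem reg_eq' (h : S_INT2) {ι : Type} {L : AddSubgroup (ι → ℂ)} (D : PChain L) (I J : ι × ι) :
    D.reg I J = ∑ k, con (D.φ k).M (D.ψ k).M (Tt D.e (D.a k) (D.c k) (D.r k)) I J := by
  unfold PChain.reg
  rw [Matrix.of_apply]
  exact Finset.sum_congr rfl fun k _ => term_eq h D.inj (D.sum_a k) (D.c_ne k) (D.r k) _ _ I J

theorem wd_swap {ι : Type} (u v : ι → ℂ) (i j : ι) : wd u v (i, j) = -wd u v (j, i) := by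
  simp only [wd]; ring

theorem reg_mem {ι : Type} {L : AddSubgroup (ι → ℂ)} (D : PChain L) : D.reg ∈ H22 ι := by
  constructor
  · ext I J
    rw [Matrix.conjTranspose_apply]
    unfold PChain.reg
    simp only [Matrix.of_apply, Complex.star_def, map_sum]
    refine Finset.sum_congr rfl fun k _ => ?_
    rw [← integral_conj]
    congr 1
    ext z
    simp only [map_mul, Complex.conj_ofReal, Complex.conj_conj]
    ring
  · intro i j J
    unfold PChain.reg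
    simp only [Matrix.of_apply]
    rw [← Finset.sum_neg_distrib]
    refine Finset.sum_congr rfl fun k _ => ?_
    rw [← integral_neg]
    congr 1
    ext z
    rw [wd_swap _ _ i j]
    ring

/-- The transformation of tensors. -/
noncomputable def tr (M : Matrix (Fin 2) (Fin 2) ℂ) (T : T4) : T4 := fun i j k l =>
  ∑ a, ∑ b, ∑ c, ∑ d, M i a * conj (M j b) * M k c * conj (M l d) * T a b c d

theorem con_mul {ι : Type} (G G' : Matrix ι (Fin 2) ℂ) (M : Matrix (Fin 2) (Fin 2) ℂ) (T : T4)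
    (I J : ι × ι) : con (G * M) (G' * M) T I J = con G G' (tr M T) I J := by
  simp only [con, tr, Matrix.mul_apply, Fin.sum_univ_two, map_add, map_mul, map_sub]
  ring

theorem con_add {ι : Type} (P Q : Matrix ι (Fin 2) ℂ) (T T' : T4) (I J : ι × ι) :
    con P Q (T + T') I J = con P Q T I J + con P Q T' I J := by
  simp only [con, Pi.add_apply, mul_add, Finset.sum_add_distrib]

theorem con_smul {ι : Type} (P Q : Matrix ι (Fin 2) ℂ) (c : ℂ) (T : T4) (I J : ι × ι) :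
    con P Q (fun i j k l => c * T i j k l) I J = c * con P Q T I J := by
  simp only [con, Finset.mul_sum]
  refine Finset.sum_congr rfl fun i _ => Finset.sum_congr rfl fun j _ =>
    Finset.sum_congr rfl fun k _ => Finset.sum_congr rfl fun l _ => ?_
  ring

theorem mon_swap (i j k l : Fin 2) (z : ℂ × ℂ) : mon i j k l z.swap = mon k l i j z := by
  simp only [mon, Prod.fst_swap, Prod.snd_swap]
  ring

theorem mon_conj (i j k l : Fin 2) (z : ℂ × ℂ) : conj (mon i j k l z) = mon j i l k z := by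
  simp only [mon, map_mul, map_pow, Complex.conj_conj]
  ring

theorem X0_swap (e : Fin 5 → ℂ) (i j k l : Fin 2) : X0 e k l i j = X0 e i j k l := by
  have h1 := integral_prod_swap (μ := (volume : Measure ℂ)) (ν := (volume : Measure ℂ))
    (fun z : ℂ × ℂ => ((Real.log ‖z.1 - z.2‖ / (‖∏ k, (z.1 - e k)‖ * ‖∏ k, (z.2 - e k)‖) : ℝ) : ℂ) *
      mon k l i j z)
  unfold X0
  rw [Measure.volume_eq_prod, ← h1]
  congr 1
  ext z
  rw [mon_swap, Prod.fst_swap, Prod.snd_swap, norm_sub_rev, mul_comm ‖_‖ ‖_‖]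

theorem X0_conj (e : Fin 5 → ℂ) (i j k l : Fin 2) : conj (X0 e i j k l) = X0 e j i l k := by
  unfold X0
  rw [← integral_conj]
  congr 1
  ext z
  rw [map_mul, Complex.conj_ofReal, mon_conj]

/-- The chain with constant exponents zero of `x p - x q`. -/
noncomputable def triv {e : Fin 5 → ℂ} (he : Function.Injective e) {ι : Type}
    {L : AddSubgroup (ι → ℂ)} (F G : Mor e L) {a : Fin 5 → ℤ} (ha : ∑ k, a k = 0) {c : ℂ}
    (hc : c ≠ 0) : PChain L where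
  e := e
  inj := he
  m := 1
  φ := fun _ => F
  ψ := fun _ => G
  c := fun _ => c
  c_ne := fun _ => hc
  a := fun _ => a
  sum_a := fun _ => ha
  r := fun _ => 0
  bdry := by intro θ _ _; simp

/-- The chain for which the divisors cancel. -/
noncomputable def kap {e : Fin 5 → ℂ} (he : Function.Injective e) {ι : Type}
    {L : AddSubgroup (ι → ℂ)} (F G S D : Mor e L) (hS : S.φ = F.φ + G.φ) (hD : D.φ = F.φ - G.φ) :
    PChain L where
  e := e
  inj := he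
  m := 4
  φ := ![S, F, F, G]
  ψ := ![D, G, F, G]
  c := fun _ => 1
  c_ne := fun _ => one_ne_zero
  a := fun _ _ => 0
  sum_a := fun _ => by simp
  r := ![1, 2, -1, -1]
  bdry := by
    intro θ h0 _
    have h1 : S.φ + D.φ = F.φ + F.φ := by rw [hS, hD]; abel
    have h2 : S.φ - D.φ = G.φ + G.φ := by rw [hS, hD]; abel
    rw [Fin.sum_univ_four]
    simp only [Matrix.cons_val_zero, Matrix.cons_val_one, Matrix.cons_val]
    rw [h1, h2, hS, hD, sub_self, sub_self, h0]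
    ring

theorem reg_triv (h : S_INT2) {e : Fin 5 → ℂ} (he : Function.Injective e) {ι : Type}
    {L : AddSubgroup (ι → ℂ)} (F G : Mor e L) {a : Fin 5 → ℤ} (ha : ∑ k, a k = 0) {c : ℂ}
    (hc : c ≠ 0) (I J : ι × ι) : (triv he F G ha hc).reg I J =
      con F.M G.M (fun i j k l => Rm e a c i j * Pm e k l) I J := by
  rw [reg_eq' h]
  show ∑ k : Fin 1, con F.M G.M (Tt e a c 0) I J = _
  rw [Fin.sum_univ_one]
  congr 1
  ext i j k l
  simp [Tt]

theorem Rm_zero_one (e : Fin 5 → ℂ) : Rm e 0 1 = 0 := by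
  ext i j
  simp [Rm]

theorem reg_kap (h : S_INT2) {e : Fin 5 → ℂ} (he : Function.Injective e) {ι : Type}
    {L : AddSubgroup (ι → ℂ)} (F G S D : Mor e L) (hS : S.φ = F.φ + G.φ) (hD : D.φ = F.φ - G.φ)
    (I J : ι × ι) : (kap he F G S D hS hD).reg I J =
      4 * (con S.M D.M (X0 e) I J + 2 * con F.M G.M (X0 e) I J - con F.M F.M (X0 e) I J -
        con G.M G.M (X0 e) I J) := by
  have h1 : ∀ r : ℤ, Tt e (fun _ => 0) 1 r = fun i j k l => (4 * r : ℂ) * X0 e i j k l := by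
    intro r
    ext i j k l
    have : Rm e (fun _ => 0) 1 = 0 := Rm_zero_one e
    simp [Tt, this]
  rw [reg_eq' h]
  show ∑ k : Fin 4, con ((![S, F, F, G] : Fin 4 → Mor e L) k).M
    ((![D, G, F, G] : Fin 4 → Mor e L) k).M (Tt e (fun _ => 0) 1 ((![1, 2, -1, -1] : Fin 4 → ℤ) k))
      I J = _
  rw [Fin.sum_univ_four]
  simp only [h1, con_smul, Matrix.cons_val_zero, Matrix.cons_val_one, Matrix.cons_val]
  push_cast
  ring

end Pool.Agent.H840.KP
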