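import Pool.Agent.H840.KP.Stm
import Pool.Agent.H840.KP.Defs2
set_option autoImplicit false

/-!
# Statement for the product of the squares of two elliptic curves
-/

open scoped ComplexConjugate

namespace Pool.Agent.H840.KP

/-- LIN2.  Write `1, 2, 3, 4` for the indices `(0,0), (1,0), (0,1), (1,1)` (so `1, 2` have the
second component `0`, and `3, 4` have the second component `1`), and `F ζ i j k l` for the
Hermitian form with the entries `ζ` at `((i,j),(k,l))` (and its images under antisymmetry and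
Hermitian symmetry; see `FF`, `hh`, `EE` in `Pool/Agent/H840/KP/Lin.lean`).

Paper proof.  As in `Lin.lean` (`hG`, `hF1`) the hypothesis gives
`F ζ a b c d + F ζ a d c b ∈ W` for all `a`, `c` and all `b, d` with the same second component;
in particular (`b = d`) `F ζ a b c b ∈ W` for all `a, b, c`, which are all forms with a common
index in the two pairs.  For different indices: `b, d ∈ {1, 2}`, `a, c ∈ {3, 4}` gives
`F ζ 3 1 4 2 + F ζ 3 2 4 1 ∈ W`, that is `F ζ 1 3 2 4 + F (conj ζ) 1 4 2 3 ∈ W`, and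
`b, d ∈ {3, 4}`, `a, c ∈ {1, 2}` gives `F ζ 1 3 2 4 + F ζ 1 4 2 3 ∈ W`.  Hence
`F (i t) 1 4 2 3 ∈ W` and `F (i t) 1 3 2 4 ∈ W` for real `t`.  If `Z ∈ H22` and `cp Z = 0` then
`Z (1,2) (3,4) = 0` (component `0 1 0 1` of `cp Z`), `Re Z (1,4) (2,3) = 0` (component `0 0 1 1`
up to the order, use `Z (1,4) (3,2) + Z (3,2) (1,4) = 0`) and `Re Z (1,3) (2,4) = 0` (second
component of `cp Z`).  By the decomposition of `Z` as the sum over the indices of the forms
`F (Z (i,j) (k,l)) i j k l / 8` (`decomp` in `Lin.lean`) it is in `W`. -/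
def S_LIN2 : Prop :=
  ∀ W : Submodule ℝ (Matrix ((Fin 2 × Fin 2) × (Fin 2 × Fin 2))
      ((Fin 2 × Fin 2) × (Fin 2 × Fin 2)) ℂ),
    (∀ (a c : Fin 2 × Fin 2) (α γ : ℂ) (i : Fin 2) (w : Fin 2 → ℤ),
      rk (wd (Pi.single a α + Pi.single c γ)
        (fun p => if p.2 = i then (w p.1 : ℂ) else 0)) ∈ W) →
    ∀ Z ∈ H22 (Fin 2 × Fin 2), cp Z = 0 → Z ∈ W

end Pool.Agent.H840.KP
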