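import Pool.Agent.H840.KP.Fin
import Pool.Agent.H840.KP.Stm2
set_option autoImplicit false

/-!
# The product of the squares of two elliptic curves
-/

open Complex Filter Topology MeasureTheory Set Matrix

open scoped ComplexConjugate

namespace Pool.Agent.H840.KP

open Pool.Agent.H840.AS

theorem rterm_eq {e e' : Fin 5 → ℂ} (he : Function.Injective e) (he' : Function.Injective e')
    {a : Fin 5 → ℤ} (ha : ∑ k, a k = 0) {c : ℂ} (hc : c ≠ 0) {ι : Type}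
    (P Q : Matrix ι (Fin 2) ℂ) (I J : ι × ι) :
    ∫ z : ℂ × ℂ, ((4 * Real.log ‖c * ∏ j, (z.1 - e j) ^ a j‖ /
      (‖∏ j, (z.1 - e j)‖ * ‖∏ j, (z.2 - e' j)‖) : ℝ) : ℂ) *
      (wd (P.mulVec ![1, z.1]) (Q.mulVec ![1, z.2]) I *
        conj (wd (P.mulVec ![1, z.1]) (Q.mulVec ![1, z.2]) J)) =
    con P Q (fun i j k l => Rm e a c i j * Pm e' k l) I J := by
  set K1 : ℂ × ℂ → ℂ := fun z => ((4 * Real.log ‖c * ∏ j, (z.1 - e j) ^ a j‖ /
      (‖∏ j, (z.1 - e j)‖ * ‖∏ j, (z.2 - e' j)‖) : ℝ) : ℂ) with hK1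
  have e1 : ∀ i j k l, (fun z => K1 z * mon i j k l z) = fun z : ℂ × ℂ =>
      (((2 * Real.log ‖c * ∏ k, (z.1 - e k) ^ a k‖ / ‖∏ k, (z.1 - e k)‖ : ℝ) : ℂ) *
        (z.1 ^ (i : ℕ) * conj z.1 ^ (j : ℕ))) *
      (((2 / ‖∏ k, (z.2 - e' k)‖ : ℝ) : ℂ) * (z.2 ^ (k : ℕ) * conj z.2 ^ (l : ℕ))) := by
    intro i j k l
    ext z
    rw [hK1, mon]
    push_cast
    ring
  have i1 : ∀ i j k l, Integrable fun z => K1 z * mon i j k l z := by
    intro i j k l
    rw [e1]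
    exact (int_Rm he ha hc i j).mul_prod (int_Pm he' k l)
  rw [integral_con P Q K1 i1]
  congr 1
  ext i j k l
  rw [e1, Pm_eq]
  exact integral_prod_mul
      (f := fun x : ℂ => ((2 * Real.log ‖c * ∏ k, (x - e k) ^ a k‖ / ‖∏ k, (x - e k)‖ : ℝ) : ℂ) *
        (x ^ (i : ℕ) * conj x ^ (j : ℕ)))
      (g := fun x : ℂ => ((2 / ‖∏ k, (x - e' k)‖ : ℝ) : ℂ) * (x ^ (k : ℕ) * conj x ^ (l : ℕ)))

theorem rreg_eq {ι : Type} {L : AddSubgroup (ι → ℂ)} (D : RChain L) (I J : ι × ι) :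
    D.reg I J = ∑ k, con (D.φ k).M (D.ψ k).M
      (fun i j p l => Rm (D.e k) (D.a k) (D.c k) i j * Pm (D.e' k) p l) I J := by
  unfold RChain.reg
  rw [Matrix.of_apply]
  exact Finset.sum_congr rfl fun k _ => rterm_eq (D.inj k) (D.inj' k) (D.sum_a k) (D.c_ne k) _ _ I J

theorem rreg_mem {ι : Type} {L : AddSubgroup (ι → ℂ)} (D : RChain L) : D.reg ∈ H22 ι := by
  constructor
  · ext I J
    rw [Matrix.conjTranspose_apply]
    unfold RChain.reg
    simp only [Matrix.of_apply, Complex.star_def, map_sum]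
    refine Finset.sum_congr rfl fun k _ => ?_
    rw [← integral_conj]
    congr 1
    ext z
    simp only [map_mul, Complex.conj_ofReal, Complex.conj_conj]
    ring
  · intro i j J
    unfold RChain.reg
    simp only [Matrix.of_apply]
    rw [← Finset.sum_neg_distrib]
    refine Finset.sum_congr rfl fun k _ => ?_
    rw [← integral_neg]
    congr 1
    ext z
    rw [wd_swap _ _ i j]
    ring

/-- One surface. -/
noncomputable def rtriv {e e' : Fin 5 → ℂ} (he : Function.Injective e)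
    (he' : Function.Injective e') {ι : Type}
    {L : AddSubgroup (ι → ℂ)} (F : Mor e L) (G : Mor e' L) {a : Fin 5 → ℤ} (ha : ∑ k, a k = 0)
    {c : ℂ} (hc : c ≠ 0) : RChain L where
  m := 1
  e := fun _ => e
  e' := fun _ => e'
  inj := fun _ => he
  inj' := fun _ => he'
  φ := fun _ => F
  ψ := fun _ => G
  c := fun _ => c
  c_ne := fun _ => hc
  a := fun _ => a
  sum_a := fun _ => ha

theorem reg_rtriv {e e' : Fin 5 → ℂ} (he : Function.Injective e)
    (he' : Function.Injective e') {ι : Type}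
    {L : AddSubgroup (ι → ℂ)} (F : Mor e L) (G : Mor e' L) {a : Fin 5 → ℤ} (ha : ∑ k, a k = 0)
    {c : ℂ} (hc : c ≠ 0) (I J : ι × ι) : (rtriv he he' F G ha hc).reg I J =
      con F.M G.M (fun i j k l => Rm e a c i j * Pm e' k l) I J := by
  rw [rreg_eq]
  show ∑ k : Fin 1, con F.M G.M (fun i j k l => Rm e a c i j * Pm e' k l) I J = _
  rw [Fin.sum_univ_one]

theorem con_mul2 {ι : Type} (G G' : Matrix ι (Fin 2) ℂ) (M M' A B : Matrix (Fin 2) (Fin 2) ℂ)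
    (I J : ι × ι) : con (G * M) (G' * M') (fun i j k l => A i j * B k l) I J =
      con G G' (fun i j k l => (M * A * M.conjTranspose) i j *
        (M' * B * M'.conjTranspose) k l) I J := by
  simp only [con, Matrix.mul_apply, Fin.sum_univ_two, map_add, map_mul, map_sub,
    Matrix.conjTranspose_apply, Complex.star_def]
  ring

/-- The matrix with columns `e_a`, `e_b`. -/
def cq (a b : Fin 2 × Fin 2) : Matrix (Fin 2 × Fin 2) (Fin 2) ℂ :=
  Matrix.of fun p j => if j = 0 then (if p = a then 1 else 0) else (if p = b then 1 else 0)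

/-- The direction `w` in the square of the elliptic curve number `i`. -/
def wq (i : Fin 2) (w : Fin 2 → ℤ) (p : Fin 2 × Fin 2) : ℂ := if p.2 = i then (w p.1 : ℂ) else 0

/-- The matrix with the first column `wq`. -/
def wqm (i : Fin 2) (w : Fin 2 → ℤ) : Matrix (Fin 2 × Fin 2) (Fin 2) ℂ :=
  Matrix.of fun p j => if j = 0 then wq i w p else 0

theorem cq_mem (Λ : Fin 2 → AddSubgroup ℂ) (a b : Fin 2 × Fin 2) :
    ∀ v ∈ prE ![Λ a.2, Λ b.2], (cq a b).mulVec v ∈ sqA (prE Λ) := by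
  intro v hv r i
  have h0 : v 0 ∈ Λ a.2 := hv 0
  have h1 : v 1 ∈ Λ b.2 := hv 1
  show (cq a b).mulVec v (r, i) ∈ Λ i
  simp only [Matrix.mulVec, dotProduct, Fin.sum_univ_two, cq, Matrix.of_apply]
  refine add_mem ?_ ?_
  · by_cases h : (r, i) = a
    · subst h; simpa using h0
    · simp [h]
  · by_cases h : (r, i) = b
    · subst h; simpa using h1
    · simp [h]

theorem wqm_mem (Λ : Fin 2 → AddSubgroup ℂ) (i : Fin 2) (w : Fin 2 → ℤ) :
    ∀ v ∈ prE ![Λ i, Λ i], (wqm i w).mulVec v ∈ sqA (prE Λ) := by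
  intro v hv r i'
  have h0 : v 0 ∈ Λ i := hv 0
  show (wqm i w).mulVec v (r, i') ∈ Λ i'
  simp only [Matrix.mulVec, dotProduct, Fin.sum_univ_two, wqm, Matrix.of_apply, wq]
  by_cases h : i' = i
  · subst h
    simp only [if_true, one_ne_zero, if_false, zero_mul, add_zero]
    rw [← zsmul_eq_mul]
    exact zsmul_mem h0 _
  · simp [h]

/-- The matrix of the product of two elliptic curves. -/
theorem diag_data2 {s t : ℂ} (hs : 0 < s.im) (ht : 0 < t.im) :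
    (!![s, 0; 0, t] : Matrix (Fin 2) (Fin 2) ℂ).IsSymm ∧
    ((!![s, 0; 0, t] : Matrix (Fin 2) (Fin 2) ℂ).map Complex.im).PosDef := by
  constructor
  · unfold Matrix.IsSymm
    ext i j
    fin_cases i <;> fin_cases j <;> simp
  · refine Pool.Agent.H722.GRP.posDef_two _ ?_ ?_ ?_
    · simp
    · simpa using hs
    · simpa using mul_pos hs ht

/-- The product of two elliptic curves and a product with a standard lattice. -/
theorem exists_lat (Λ Λ' : AddSubgroup ℂ) (h : Submodule.span ℝ (Λ : Set ℂ) = ⊤)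
    (h' : Submodule.span ℝ (Λ' : Set ℂ) = ⊤) :
    ∃ τ g : Matrix (Fin 2) (Fin 2) ℂ, τ.IsSymm ∧ (τ.map Complex.im).PosDef ∧ g.det ≠ 0 ∧
      ∀ v ∈ Lat τ, g.mulVec v ∈ prE ![Λ, Λ'] := by
  obtain ⟨ω, s, h0, hω, hs, h1⟩ := exists_tau Λ h
  obtain ⟨ω', t, h0', hω', ht, h1'⟩ := exists_tau Λ' h'
  obtain ⟨h2, h3⟩ := diag_data2 h1 h1'
  refine ⟨_, !![ω, 0; 0, ω'], h2, h3, ?_, ?_⟩
  · rw [Matrix.det_fin_two_of]
    simpa using ⟨h0, h0'⟩
  · rintro v ⟨a, b, hv⟩ i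
    have hv0 := hv 0
    have hv1 := hv 1
    simp only [Fin.sum_univ_two, Matrix.of_apply, Matrix.cons_val_zero, Matrix.cons_val_one,
      Matrix.cons_val', Matrix.cons_val_fin_one, zero_mul, add_zero, zero_add] at hv0 hv1
    fin_cases i
    · show (!![ω, 0; 0, ω'] : Matrix (Fin 2) (Fin 2) ℂ).mulVec v 0 ∈ Λ
      have e1 : (!![ω, 0; 0, ω'] : Matrix (Fin 2) (Fin 2) ℂ).mulVec v 0 =
          a 0 • ω + b 0 • (ω * s) := by
        simp [Matrix.mulVec, dotProduct, Fin.sum_univ_two, hv0]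
        ring
      rw [e1]
      exact add_mem (zsmul_mem hω _) (zsmul_mem hs _)
    · show (!![ω, 0; 0, ω'] : Matrix (Fin 2) (Fin 2) ℂ).mulVec v 1 ∈ Λ'
      have e1 : (!![ω, 0; 0, ω'] : Matrix (Fin 2) (Fin 2) ℂ).mulVec v 1 =
          a 1 • ω' + b 1 • (ω' * t) := by
        simp [Matrix.mulVec, dotProduct, Fin.sum_univ_two, hv1]
        ring
      rw [e1]
      exact add_mem (zsmul_mem hω' _) (zsmul_mem ht _)

theorem herm_prE (Λ Λ' : AddSubgroup ℂ) (h : Submodule.span ℝ (Λ : Set ℂ) = ⊤)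
    (h' : Submodule.span ℝ (Λ' : Set ℂ) = ⊤) {Z : Matrix (Fin 2) (Fin 2) ℂ}
    (hZ : Z.IsHermitian) : Z ∈ Sp0 (prE ![Λ, Λ']) := by
  obtain ⟨τ, g, h1, h2, hg, h3⟩ := exists_lat Λ Λ' h h'
  have hu : IsUnit g.det := isUnit_iff_ne_zero.2 hg
  have h5 : Z = g * (g⁻¹ * Z * g⁻¹.conjTranspose) * g.conjTranspose := by
    have h4 : g⁻¹.conjTranspose * g.conjTranspose = 1 := by
      rw [← Matrix.conjTranspose_mul, Matrix.mul_nonsing_inv _ hu, Matrix.conjTranspose_one]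
    rw [Matrix.mul_assoc, Matrix.mul_assoc (g⁻¹ * Z), h4, Matrix.mul_one, ← Matrix.mul_assoc,
      Matrix.mul_nonsing_inv _ hu, Matrix.one_mul]
  rw [h5]
  refine Sp0_push _ _ g h3 _ ?_
  exact hermitian_mem0 h1 h2 (Matrix.isHermitian_mul_mul_conjTranspose _ hZ)

theorem exists_prE (Λ : AddSubgroup ℂ) (h : Submodule.span ℝ (Λ : Set ℂ) = ⊤) :
    ∃ (e : Fin 5 → ℂ) (_ : Function.Injective e) (f : Mor e (prE ![Λ, Λ])), f.M 0 ≠ 0 := by
  obtain ⟨τ, g, h1, h2, hg, h3⟩ := exists_lat Λ Λ h h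
  obtain ⟨e, he, f, hf⟩ := exists_mor h1 h2
  refine ⟨e, he, f.push _ h3, fun h0 => ?_⟩
  have h4 : (f.push _ h3).M.det = 0 := by
    rw [Matrix.det_fin_two, h0]
    simp
  rw [push_M, Matrix.det_mul] at h4
  exact mul_ne_zero hg hf h4

/-- The real span of the regulators. -/
noncomputable def WT (L : AddSubgroup (Fin 2 × Fin 2 → ℂ)) :
    Submodule ℝ (Matrix ((Fin 2 × Fin 2) × (Fin 2 × Fin 2)) ((Fin 2 × Fin 2) × (Fin 2 × Fin 2)) ℂ) :=
  Submodule.span ℝ ({Z | ∃ D : PChain L, D.reg = Z} ∪ {Z | ∃ D : RChain L, D.reg = Z})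

/-- A linear map. -/
noncomputable def Psq (a c : Fin 2 × Fin 2) (v : Fin 2 × Fin 2 → ℂ) :
    Matrix (Fin 2) (Fin 2) ℂ →ₗ[ℝ]
      Matrix ((Fin 2 × Fin 2) × (Fin 2 × Fin 2)) ((Fin 2 × Fin 2) × (Fin 2 × Fin 2)) ℂ where
  toFun A := Matrix.of fun I J => ∑ i, ∑ j, A i j *
    (wd (fun x => cq a c x i) v I * conj (wd (fun x => cq a c x j) v J))
  map_add' A B := by
    ext I J
    simp only [Matrix.of_apply, Matrix.add_apply, add_mul, Finset.sum_add_distrib]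
  map_smul' r A := by
    ext I J
    simp only [Matrix.of_apply, Matrix.smul_apply, RingHom.id_apply, Finset.smul_sum,
      smul_mul_assoc]

theorem Psq_apply (a c : Fin 2 × Fin 2) (v : Fin 2 × Fin 2 → ℂ) (A : Matrix (Fin 2) (Fin 2) ℂ)
    (I J : (Fin 2 × Fin 2) × (Fin 2 × Fin 2)) : Psq a c v A I J = ∑ i, ∑ j, A i j *
    (wd (fun x => cq a c x i) v I * conj (wd (fun x => cq a c x j) v J)) := rfl

theorem con_wq (a c : Fin 2 × Fin 2) (i : Fin 2) (w : Fin 2 → ℤ)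
    (A B : Matrix (Fin 2) (Fin 2) ℂ) (I J : (Fin 2 × Fin 2) × (Fin 2 × Fin 2)) :
    con (cq a c) (wqm i w) (fun i j k l => A i j * B k l) I J =
      B 0 0 * Psq a c (wq i w) A I J := by
  rw [Psq_apply]
  have h0 : ∀ p, wqm i w p 0 = wq i w p := fun p => by simp [wqm]
  have h1 : ∀ p, wqm i w p 1 = 0 := fun p => by simp [wqm]
  simp only [con, Fin.sum_univ_two, wd, h0, h1, mul_zero, sub_zero, map_sub, map_mul, map_zero,
    zero_mul, add_zero]
  ring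

theorem Psq_mem (Λ : Fin 2 → AddSubgroup ℂ) (h : ∀ i, Submodule.span ℝ (Λ i : Set ℂ) = ⊤)
    (a c : Fin 2 × Fin 2) (i : Fin 2) (w : Fin 2 → ℤ) {R : Matrix (Fin 2) (Fin 2) ℂ}
    (hR : R ∈ Sp0 (prE ![Λ a.2, Λ c.2])) : Psq a c (wq i w) R ∈ WT (sqA (prE Λ)) := by
  obtain ⟨e', he', g, hg⟩ := exists_prE (Λ i) (h i)
  have h1 : Sp0 (prE ![Λ a.2, Λ c.2]) ≤ (WT (sqA (prE Λ))).comap (Psq a c (wq i w)) := by
    unfold Sp0
    rw [Submodule.span_le]
    rintro _ ⟨e, he, f, a', ha', c', hc', rfl⟩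
    show Psq a c (wq i w) (f.M * Rm e a' c' * f.M.conjTranspose) ∈ WT (sqA (prE Λ))
    obtain ⟨ρ, hρ, h2⟩ := Pm_pos he' (g.M 0) hg
    have h3 : (g.M * Pm e' * g.M.conjTranspose) 0 0 = ρ := by
      rw [← h2]
      simp only [Matrix.mul_apply, Matrix.conjTranspose_apply, Fin.sum_univ_two,
        Complex.star_def]
      ring
    have h4 : (rtriv he he' (f.push (cq a c) (cq_mem Λ a c)) (g.push (wqm i w) (wqm_mem Λ i w))
        ha' hc').reg = ρ • Psq a c (wq i w) (f.M * Rm e a' c' * f.M.conjTranspose) := by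
      ext I J
      rw [reg_rtriv he he' _ _ ha' hc', push_M, push_M, con_mul2, con_wq, h3, Matrix.smul_apply,
        Complex.real_smul]
    have h6 : Psq a c (wq i w) (f.M * Rm e a' c' * f.M.conjTranspose) = ρ⁻¹ •
        (rtriv he he' (f.push (cq a c) (cq_mem Λ a c)) (g.push (wqm i w) (wqm_mem Λ i w))
        ha' hc').reg := by
      rw [h4, smul_smul, inv_mul_cancel₀ hρ.ne', one_smul]
    rw [h6]
    exact Submodule.smul_mem _ _ (Submodule.subset_span (Or.inr ⟨_, rfl⟩))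
  exact h1 hR

theorem wd_cq (a c : Fin 2 × Fin 2) (α γ : ℂ) (u : Fin 2 × Fin 2 → ℂ)
    (I : (Fin 2 × Fin 2) × (Fin 2 × Fin 2)) : wd (Pi.single a α + Pi.single c γ) u I =
      α * wd (fun x => cq a c x 0) u I + γ * wd (fun x => cq a c x 1) u I := by
  have k0 : ∀ x, cq a c x 0 = if x = a then 1 else 0 := by
    intro x; simp [cq]
  have k1 : ∀ x, cq a c x 1 = if x = c then 1 else 0 := by
    intro x; simp [cq]
  have s1 : ∀ (b : Fin 2 × Fin 2) (β : ℂ) (x : Fin 2 × Fin 2),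
      (Pi.single b β : Fin 2 × Fin 2 → ℂ) x = β * (if x = b then 1 else 0) := by
    intro b β x
    rw [Pi.single_apply]
    split_ifs <;> simp
  simp only [wd, Pi.add_apply, s1, k0, k1]
  ring

theorem rk_cq (a c : Fin 2 × Fin 2) (α γ : ℂ) (u : Fin 2 × Fin 2 → ℂ) :
    rk (wd (Pi.single a α + Pi.single c γ) u) =
      Psq a c u (Matrix.of fun i j => (![α, γ] : Fin 2 → ℂ) i *
        conj ((![α, γ] : Fin 2 → ℂ) j)) := by
  ext I J
  unfold rk
  rw [Psq_apply, Matrix.of_apply, wd_cq, wd_cq]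
  simp only [Fin.sum_univ_two, Matrix.of_apply, Matrix.cons_val_zero, Matrix.cons_val_one,
    map_add, map_mul]
  ring

theorem hypA (Λ : Fin 2 → AddSubgroup ℂ) (h : ∀ i, Submodule.span ℝ (Λ i : Set ℂ) = ⊤)
    (a c : Fin 2 × Fin 2) (α γ : ℂ) (i : Fin 2) (w : Fin 2 → ℤ) :
    rk (wd (Pi.single a α + Pi.single c γ)
      (fun p => if p.2 = i then (w p.1 : ℂ) else 0)) ∈ WT (sqA (prE Λ)) := by
  have h1 : (Matrix.of fun i j => (![α, γ] : Fin 2 → ℂ) i *
        conj ((![α, γ] : Fin 2 → ℂ) j) : Matrix (Fin 2) (Fin 2) ℂ).IsHermitian := by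
    ext i j
    simp only [Matrix.conjTranspose_apply, Matrix.of_apply, Complex.star_def, map_mul,
      Complex.conj_conj]
    ring
  have h2 := Psq_mem Λ h a c i w (herm_prE (Λ a.2) (Λ c.2) (h _) (h _) h1)
  rw [rk_cq]
  exact h2

/-- `cp` as a linear map. -/
noncomputable def cpL :
    Matrix ((Fin 2 × Fin 2) × (Fin 2 × Fin 2)) ((Fin 2 × Fin 2) × (Fin 2 × Fin 2)) ℂ →ₗ[ℝ] Ten where
  toFun := cp
  map_add' A B := by
    refine Prod.ext ?_ ?_
    · funext i j k l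
      simp only [cp, Matrix.add_apply, Prod.fst_add, Pi.add_apply]
      ring
    · simp only [cp, Matrix.add_apply, Prod.snd_add, Complex.add_re]
  map_smul' r A := by
    refine Prod.ext ?_ ?_
    · funext i j k l
      simp only [cp, Matrix.smul_apply, Prod.smul_fst, Pi.smul_apply, RingHom.id_apply, smul_add]
    · simp only [cp, Matrix.smul_apply, Prod.smul_snd, RingHom.id_apply, Complex.smul_re]

theorem two_main (h : S_INT2) (hC : S_CNT2) (hE : S_ENE) (hS : S_SGX) (hI : S_INV) (hP : S_PER)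
    (hG : S_GRP2) (hL : S_LIN2) (Λ : Fin 2 → AddSubgroup ℂ)
    (hΛ : ∀ i, Submodule.span ℝ (Λ i : Set ℂ) = ⊤) :
    closure (Submodule.span ℚ ({Z | ∃ D : PChain (sqA (prE Λ)), D.reg = Z} ∪
      {Z | ∃ D : RChain (sqA (prE Λ)), D.reg = Z}) :
      Set (Matrix ((Fin 2 × Fin 2) × (Fin 2 × Fin 2)) ((Fin 2 × Fin 2) × (Fin 2 × Fin 2)) ℂ)) =
    H22 (Fin 2 × Fin 2) := by
  refine closure_span_eq (H22s (Fin 2 × Fin 2)) (H22s_closed _) ?_ ?_
  · rintro _ (⟨D, rfl⟩ | ⟨D, rfl⟩)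
    · exact reg_mem D
    · exact rreg_mem D
  · intro Z hZ
    show Z ∈ WT (sqA (prE Λ))
    obtain ⟨τ, g, h1, h2, hg, h3⟩ := exists_lat (Λ 0) (Λ 1) (hΛ 0) (hΛ 1)
    have hpr : prE ![Λ 0, Λ 1] = prE Λ := by
      congr 1
      ext i
      fin_cases i <;> rfl
    rw [hpr] at h3
    have hu : IsUnit g.det := isUnit_iff_ne_zero.2 hg
    have h4 : cp Z = act g (act g⁻¹ (cp Z)) := by
      rw [← Pool.Agent.H722.GRP2.act_mul, Matrix.mul_nonsing_inv _ hu,
        Pool.Agent.H722.GRP2.act_one]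
    have h5 : cp Z ∈ CC (prE Λ) := by
      rw [h4]
      exact SS_le h _ (SS_push _ _ g h3 _ (SS_full h hC hE hS hI hP hG τ h1 h2 _
        (Pool.Agent.H722.GRP2.act_TenH g⁻¹ (cp Z) (cp_mem hZ))))
    have h6 : CC (prE Λ) ≤ ((WT (sqA (prE Λ))) ⊓ (H22s (Fin 2 × Fin 2))).map cpL := by
      unfold CC
      rw [Submodule.span_le]
      rintro _ ⟨D, rfl⟩
      exact ⟨D.reg, ⟨Submodule.subset_span (Or.inl ⟨D, rfl⟩), reg_mem D⟩, rfl⟩
    obtain ⟨Z', ⟨hZ'1, hZ'2⟩, hZ'3⟩ := h6 h5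
    have h7 : Z - Z' ∈ WT (sqA (prE Λ)) := by
      refine hL _ (hypA Λ hΛ) _ ((H22s (Fin 2 × Fin 2)).sub_mem hZ hZ'2) ?_
      have h8 : cpL (Z - Z') = cpL Z - cpL Z' := map_sub _ _ _
      have h9 : cpL Z' = cpL Z := hZ'3
      rw [h9, sub_self] at h8
      exact h8
    have h10 := add_mem h7 hZ'1
    rwa [sub_add_cancel] at h10

end Pool.Agent.H840.KP
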