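import Pool.Agent.H840.KP.One
import Pool.Agent.H722.GRP2.Main
set_option autoImplicit false

/-!
# Squares of abelian surfaces: special elements
-/

open Complex Filter Topology MeasureTheory Set

open scoped ComplexConjugate

namespace Pool.Agent.H840.KP

open Pool.Agent.H840.AS

/-- The special element. -/
noncomputable def e1 : Ten := (fun i j k l => 2 * (ee i k * ee j l), 1)

/-- The special elements. -/
def spec (e : Fin 5 → ℂ) : Set Ten :=
  {t | t = (X0 e, 0) ∨ t = e1 ∨ ∃ (a : Fin 5 → ℤ) (c : ℂ), ∑ k, a k = 0 ∧ c ≠ 0 ∧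
    t = (s2 (Rm e a c) (Pm e), 0)}

/-- The real span of the images of the special elements. -/
noncomputable def SS (Λ : AddSubgroup (Fin 2 → ℂ)) : Submodule ℝ Ten :=
  Submodule.span ℝ {Z | ∃ (e : Fin 5 → ℂ) (_ : Function.Injective e) (f : Mor e Λ) (t : Ten),
    t ∈ spec e ∧ Z = act f.M t}

theorem SS_push (Λ' Λ : AddSubgroup (Fin 2 → ℂ)) (g : Matrix (Fin 2) (Fin 2) ℂ)
    (hg : ∀ v ∈ Λ', g.mulVec v ∈ Λ) : ∀ Z ∈ SS Λ', act g Z ∈ SS Λ := by
  intro Z hZ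
  refine Submodule.span_induction (p := fun Z _ => act g Z ∈ SS Λ) ?_ ?_ ?_ ?_ hZ
  · rintro _ ⟨e, he, f, t, ht, rfl⟩
    rw [← Pool.Agent.H722.GRP2.act_mul]
    exact Submodule.subset_span ⟨e, he, f.push g hg, t, ht, rfl⟩
  · have h1 := Pool.Agent.H722.GRP2.act_rsmul g 0 0
    rw [zero_smul, zero_smul] at h1
    rw [h1]
    exact zero_mem _
  · intro a b _ _ ha hb
    rw [Pool.Agent.H722.GRP2.act_add]
    exact add_mem ha hb
  · intro r a _ ha
    rw [Pool.Agent.H722.GRP2.act_rsmul]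
    exact Submodule.smul_mem _ r ha

/-- The real span of the components of the regulators. -/
noncomputable def CC (Λ : AddSubgroup (Fin 2 → ℂ)) : Submodule ℝ Ten :=
  Submodule.span ℝ {Z | ∃ D : PChain (sqA Λ), cp D.reg = Z}

/-- The inclusions of the two factors. -/
def gr (r : Fin 2) : Matrix (Fin 2 × Fin 2) (Fin 2) ℂ :=
  Matrix.of fun p j => if p.1 = r ∧ p.2 = j then 1 else 0

theorem gr_mulVec (r : Fin 2) (v : Fin 2 → ℂ) (p : Fin 2 × Fin 2) :
    (gr r).mulVec v p = if p.1 = r then v p.2 else 0 := by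
  obtain ⟨a, b⟩ := p
  fin_cases r <;> fin_cases a <;> fin_cases b <;>
    simp [gr, Matrix.mulVec, dotProduct]

theorem gr_mem (Λ : AddSubgroup (Fin 2 → ℂ)) (r : Fin 2) : ∀ v ∈ Λ, (gr r).mulVec v ∈ sqA Λ := by
  intro v hv s
  simp only [gr_mulVec]
  by_cases h : s = r
  · simp only [h, if_true]
    exact hv
  · simp only [h, if_false]
    exact zero_mem Λ

theorem gr_add (Λ : AddSubgroup (Fin 2 → ℂ)) : ∀ v ∈ Λ, (gr 0 + gr 1).mulVec v ∈ sqA Λ := by
  intro v hv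
  rw [Matrix.add_mulVec]
  exact add_mem (gr_mem Λ 0 v hv) (gr_mem Λ 1 v hv)

theorem gr_sub (Λ : AddSubgroup (Fin 2 → ℂ)) : ∀ v ∈ Λ, (gr 0 - gr 1).mulVec v ∈ sqA Λ := by
  intro v hv
  rw [Matrix.sub_mulVec]
  exact sub_mem (gr_mem Λ 0 v hv) (gr_mem Λ 1 v hv)

section con

variable (T : T4) (i j k l : Fin 2)

theorem con01 : con (gr 0) (gr 1) T ((0, i), (1, k)) ((0, j), (1, l)) = T i j k l := by
  fin_cases i <;> fin_cases j <;> fin_cases k <;> fin_cases l <;>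
    simp [con, gr, Fin.sum_univ_two]

theorem con00 : con (gr 0) (gr 0) T ((0, i), (1, k)) ((0, j), (1, l)) = 0 := by
  fin_cases i <;> fin_cases j <;> fin_cases k <;> fin_cases l <;>
    simp [con, gr, Fin.sum_univ_two]

theorem con11 : con (gr 1) (gr 1) T ((0, i), (1, k)) ((0, j), (1, l)) = 0 := by
  fin_cases i <;> fin_cases j <;> fin_cases k <;> fin_cases l <;>
    simp [con, gr, Fin.sum_univ_two]

theorem conpp : con (gr 0 + gr 1) (gr 0 + gr 1) T ((0, i), (1, k)) ((0, j), (1, l)) =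
    T i j k l - T i l k j - T k j i l + T k l i j := by
  fin_cases i <;> fin_cases j <;> fin_cases k <;> fin_cases l <;>
    simp [con, gr, Fin.sum_univ_two] <;> ring

theorem conpm : con (gr 0 + gr 1) (gr 0 - gr 1) T ((0, i), (1, k)) ((0, j), (1, l)) =
    T i j k l + T i l k j + T k j i l + T k l i j := by
  fin_cases i <;> fin_cases j <;> fin_cases k <;> fin_cases l <;>
    simp [con, gr, Fin.sum_univ_two] <;> ring

theorem con01' : con (gr 0) (gr 1) T ((0, 0), (0, 1)) ((1, 0), (1, 1)) = 0 := by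
  simp [con, gr, Fin.sum_univ_two]

theorem con00' : con (gr 0) (gr 0) T ((0, 0), (0, 1)) ((1, 0), (1, 1)) = 0 := by
  simp [con, gr, Fin.sum_univ_two]

theorem con11' : con (gr 1) (gr 1) T ((0, 0), (0, 1)) ((1, 0), (1, 1)) = 0 := by
  simp [con, gr, Fin.sum_univ_two]

theorem conpp' : con (gr 0 + gr 1) (gr 0 + gr 1) T ((0, 0), (0, 1)) ((1, 0), (1, 1)) =
    T 0 0 1 1 - T 0 1 1 0 - T 1 0 0 1 + T 1 1 0 0 := by
  simp [con, gr, Fin.sum_univ_two]
  ring

theorem conpm' : con (gr 0 + gr 1) (gr 0 - gr 1) T ((0, 0), (0, 1)) ((1, 0), (1, 1)) =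
    -(T 0 0 1 1 - T 0 1 1 0 - T 1 0 0 1 + T 1 1 0 0) := by
  simp [con, gr, Fin.sum_univ_two]
  ring

end con

theorem tr_fun (M R P : Matrix (Fin 2) (Fin 2) ℂ) : tr M (fun i j k l => R i j * P k l) =
    fun i j k l => (M * R * M.conjTranspose) i j * (M * P * M.conjTranspose) k l := by
  ext i j k l
  exact tr_mul _ _ _ _ _ _ _

theorem cp_triv (h : S_INT2) {e : Fin 5 → ℂ} (he : Function.Injective e)
    {Λ : AddSubgroup (Fin 2 → ℂ)} (f : Mor e Λ) {a : Fin 5 → ℤ} (ha : ∑ k, a k = 0) {c : ℂ}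
    (hc : c ≠ 0) :
    cp (triv he (f.push (gr 0) (gr_mem Λ 0)) (f.push (gr 1) (gr_mem Λ 1)) ha hc).reg =
      act f.M (s2 (Rm e a c) (Pm e), 0) := by
  have h1 := Pool.Agent.H722.GRP2.act_q f.M (Rm e a c) (Pm e)
  have h2 : (Pool.Agent.H722.GRP2.q (Rm e a c) (Pm e)) = (s2 (Rm e a c) (Pm e), 0) := rfl
  rw [h2] at h1
  rw [h1]
  unfold cp Pool.Agent.H722.GRP2.q
  refine Prod.ext ?_ ?_
  · funext i j k l
    simp only [reg_triv h, push_M, con_mul, tr_fun, con01, s2]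
    ring
  · simp only [reg_triv h, push_M, con_mul, con01', Complex.zero_re]

theorem act_e1 (M : Matrix (Fin 2) (Fin 2) ℂ) : act M e1 = (‖M.det‖ ^ 2) • e1 := by
  refine Prod.ext ?_ ?_
  · funext i j k l
    have h1 : ((‖M.det‖ ^ 2) • e1).1 i j k l = ((‖M.det‖ ^ 2 : ℝ) : ℂ) * (2 * (ee i k * ee j l)) := by
      simp only [e1, Prod.smul_fst, Pi.smul_apply, Complex.real_smul]
    rw [h1, ← Complex.normSq_eq_norm_sq, ← Complex.mul_conj, Matrix.det_fin_two]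
    fin_cases i <;> fin_cases j <;> fin_cases k <;> fin_cases l <;>
      simp [act, e1, ee, Fin.sum_univ_two] <;> ring
  · rfl

theorem Pm_det {e : Fin 5 → ℂ} (he : Function.Injective e) :
    ∃ ρ : ℝ, 0 < ρ ∧ (Pm e).det = ρ := by
  obtain ⟨p, hp, h1⟩ := Pm_pos he ![1, 0] (by
    intro h; have := congrFun h 0; simp at this)
  simp only [Fin.sum_univ_two, Matrix.cons_val_zero, Matrix.cons_val_one, map_one, map_zero,
    one_mul, mul_zero, zero_mul, add_zero, mul_one] at h1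
  have hne : Pm e 0 0 ≠ 0 := by
    rw [h1]; exact_mod_cast hp.ne'
  obtain ⟨q, hq, h2⟩ := Pm_pos he ![-Pm e 1 0, Pm e 0 0] (by
    intro h
    have h3 := congrFun h 1
    exact hne h3)
  simp only [Fin.sum_univ_two, Matrix.cons_val_zero, Matrix.cons_val_one, map_neg, Pm_herm] at h2
  refine ⟨q / p, div_pos hq hp, ?_⟩
  have hpc : (p : ℂ) ≠ 0 := by exact_mod_cast hp.ne'
  rw [Matrix.det_fin_two]
  push_cast
  rw [eq_div_iff hpc, ← h2, ← h1]
  ring

theorem cp_delta (h : S_INT2) {e : Fin 5 → ℂ} (he : Function.Injective e)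
    {Λ : AddSubgroup (Fin 2 → ℂ)} (f : Mor e Λ) {ρ : ℝ} (hρ : (Pm e).det = ρ) :
    cp (triv he (f.push (gr 0 + gr 1) (gr_add Λ)) (f.push (gr 0 + gr 1) (gr_add Λ)) (a := 0)
      (by simp) (Complex.exp_ne_zero 1)).reg = (2 * ρ) • act f.M e1 := by
  have h3 : Rm e 0 (Complex.exp 1) = Pm e := rfl
  have h4 : (f.M * Pm e * f.M.conjTranspose).det = ((‖f.M.det‖ ^ 2 * ρ : ℝ) : ℂ) := by
    rw [Matrix.det_mul, Matrix.det_mul, Matrix.det_conjTranspose, hρ]
    push_cast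
    have h5 := Complex.mul_conj f.M.det
    rw [Complex.normSq_eq_norm_sq] at h5
    push_cast at h5
    rw [← h5, Complex.star_def]
    ring
  set P := f.M * Pm e * f.M.conjTranspose with hP
  rw [Matrix.det_fin_two] at h4
  rw [act_e1]
  unfold cp
  refine Prod.ext ?_ ?_
  · funext i j k l
    simp only [reg_triv h, push_M, con_mul, tr_fun, conpp, h3, ← hP]
    have h1 : ((2 * ρ) • (‖f.M.det‖ ^ 2) • e1).1 i j k l =
        2 * ((‖f.M.det‖ ^ 2 * ρ : ℝ) : ℂ) * (2 * (ee i k * ee j l)) := by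
      simp only [e1, Prod.smul_fst, Pi.smul_apply, Complex.real_smul]
      push_cast
      ring
    rw [h1, ← h4]
    fin_cases i <;> fin_cases j <;> fin_cases k <;> fin_cases l <;>
      simp [ee] <;> ring
  · simp only [reg_triv h, push_M, con_mul, tr_fun, conpp', h3, ← hP]
    have h1 : ((2 * ρ) • (‖f.M.det‖ ^ 2) • e1).2 = 2 * (‖f.M.det‖ ^ 2 * ρ) := by
      simp only [e1, Prod.smul_snd, smul_eq_mul]
      ring
    rw [h1]
    have h2 : P 0 0 * P 1 1 - P 0 1 * P 1 0 - P 1 0 * P 0 1 + P 1 1 * P 0 0 =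
        2 * ((‖f.M.det‖ ^ 2 * ρ : ℝ) : ℂ) := by
      rw [← h4]; ring
    rw [h2]
    have h5 : (2 : ℂ) * ((‖f.M.det‖ ^ 2 * ρ : ℝ) : ℂ) = ((2 * (‖f.M.det‖ ^ 2 * ρ) : ℝ) : ℂ) := by
      push_cast; ring
    rw [h5, Complex.ofReal_re]

/-- The antisymmetric part. -/
theorem tr_anti (M : Matrix (Fin 2) (Fin 2) ℂ) (X : T4) (hX : ∀ i j k l, X k l i j = X i j k l)
    (i j k l : Fin 2) : tr M X i l k j = tr M X i j k l -
      ee i k * ee j l * (M.det * conj M.det) * (X 0 0 1 1 - X 0 1 1 0) := by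
  have e1 := hX 0 0 0 1
  have e2 := hX 0 0 1 0
  have e3 := hX 0 0 1 1
  have e4 := hX 0 1 1 0
  have e5 := hX 0 1 1 1
  have e6 := hX 1 0 1 1
  rw [Matrix.det_fin_two]
  fin_cases i <;> fin_cases j <;> fin_cases k <;> fin_cases l <;>
    simp only [tr, ee, Fin.sum_univ_two, e1, e2, e3, e4, e5, e6, Matrix.of_apply,
      Matrix.cons_val_zero, Matrix.cons_val_one, Matrix.cons_val', Matrix.cons_val_fin_one,
      map_sub, map_mul, Fin.zero_eta, Fin.mk_one] <;> ring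

theorem tr_swap (M : Matrix (Fin 2) (Fin 2) ℂ) (X : T4) (hX : ∀ i j k l, X k l i j = X i j k l)
    (i j k l : Fin 2) : tr M X k l i j = tr M X i j k l := by
  simp only [tr, Fin.sum_univ_two, hX 0 0 0 1, hX 0 0 1 0, hX 0 0 1 1, hX 0 1 1 0, hX 0 1 1 1,
    hX 1 0 1 1]
  ring

theorem X0_real (e : Fin 5 → ℂ) : X0 e 0 0 1 1 - X0 e 0 1 1 0 =
    ((X0 e 0 0 1 1 - X0 e 0 1 1 0).re : ℂ) := by
  refine (Complex.conj_eq_iff_re.1 ?_).symm
  rw [map_sub, X0_conj, X0_conj, X0_swap e 0 1 1 0]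

theorem cp_kap (h : S_INT2) {e : Fin 5 → ℂ} (he : Function.Injective e)
    {Λ : AddSubgroup (Fin 2 → ℂ)} (f : Mor e Λ) :
    cp (kap he (f.push (gr 0) (gr_mem Λ 0)) (f.push (gr 1) (gr_mem Λ 1))
      (f.push (gr 0 + gr 1) (gr_add Λ)) (f.push (gr 0 - gr 1) (gr_sub Λ))
      (push_add f _ _ _ _ _) (push_sub f _ _ _ _ _)).reg =
      (48 : ℝ) • act f.M (X0 e, 0) -
        (8 * (X0 e 0 0 1 1 - X0 e 0 1 1 0).re) • act f.M e1 := by
  have hw := X0_real e
  set w : ℝ := (X0 e 0 0 1 1 - X0 e 0 1 1 0).re with hw'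
  have hd : f.M.det * conj f.M.det = ((‖f.M.det‖ ^ 2 : ℝ) : ℂ) := by
    rw [Complex.mul_conj, Complex.normSq_eq_norm_sq]
  have hs := tr_swap f.M (X0 e) (fun i j k l => X0_swap e i j k l)
  have ht : ∀ i j k l, tr f.M (X0 e) i l k j = tr f.M (X0 e) i j k l -
      ee i k * ee j l * (((‖f.M.det‖ ^ 2 : ℝ) : ℂ) * w) := by
    intro i j k l
    rw [tr_anti f.M (X0 e) (fun i j k l => X0_swap e i j k l), hd, hw]
    ring
  rw [act_e1]
  unfold cp
  refine Prod.ext ?_ ?_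
  · funext i j k l
    simp only [reg_kap h, push_M, con_mul, con01, con00, con11, conpm]
    have h1 : ((48 : ℝ) • act f.M (X0 e, 0) - (8 * w) • (‖f.M.det‖ ^ 2) • e1).1 i j k l =
        48 * tr f.M (X0 e) i j k l -
          (8 * w) * ((‖f.M.det‖ ^ 2 : ℝ) : ℂ) * (2 * (ee i k * ee j l)) := by
      simp only [e1, Prod.fst_sub, Prod.smul_fst, Pi.sub_apply, Pi.smul_apply, Complex.real_smul,
        act, tr]
      push_cast
      ring
    rw [h1, hs i j k l, hs i l k j, ht i j k l]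
    ring
  · simp only [reg_kap h, push_M, con_mul, con01', con00', con11', conpm']
    have h1 : ((48 : ℝ) • act f.M (X0 e, 0) - (8 * w) • (‖f.M.det‖ ^ 2) • e1).2 =
        -(8 * w * ‖f.M.det‖ ^ 2) := by
      simp only [e1, Prod.snd_sub, Prod.smul_snd, smul_eq_mul, act]
      ring
    have h2 := ht 0 0 1 1
    have h3 : ee 0 1 * ee 0 1 = 1 := by simp [ee]
    rw [h3, one_mul] at h2
    rw [h1, hs 0 0 1 1, hs 0 1 1 0, h2]
    have h4 : 4 * (-(tr f.M (X0 e) 0 0 1 1 - (tr f.M (X0 e) 0 0 1 1 -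
        ((‖f.M.det‖ ^ 2 : ℝ) : ℂ) * w) - (tr f.M (X0 e) 0 0 1 1 -
        ((‖f.M.det‖ ^ 2 : ℝ) : ℂ) * w) + tr f.M (X0 e) 0 0 1 1) + 2 * 0 - 0 - 0) =
        ((-(8 * w * ‖f.M.det‖ ^ 2) : ℝ) : ℂ) := by
      push_cast
      ring
    rw [h4, Complex.ofReal_re]

theorem SS_le (h : S_INT2) (Λ : AddSubgroup (Fin 2 → ℂ)) : SS Λ ≤ CC Λ := by
  unfold SS
  rw [Submodule.span_le]
  rintro _ ⟨e, he, f, t, ht, rfl⟩
  obtain ⟨ρ, hρ, hρ'⟩ := Pm_det he
  have h2 : act f.M e1 ∈ CC Λ := by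
    have h3 := cp_delta h he f hρ'
    have h4 : act f.M e1 = (2 * ρ)⁻¹ • ((2 * ρ) • act f.M e1) := by
      rw [smul_smul, inv_mul_cancel₀ (by positivity), one_smul]
    rw [h4, ← h3]
    exact Submodule.smul_mem _ _ (Submodule.subset_span ⟨_, rfl⟩)
  rcases ht with rfl | rfl | ⟨a, c, ha, hc, rfl⟩
  · have h3 := cp_kap h he f
    have h4 : act f.M (X0 e, 0) = (48 : ℝ)⁻¹ • (((48 : ℝ) • act f.M (X0 e, 0) -
        (8 * (X0 e 0 0 1 1 - X0 e 0 1 1 0).re) • act f.M e1) +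
        (8 * (X0 e 0 0 1 1 - X0 e 0 1 1 0).re) • act f.M e1) := by
      rw [sub_add_cancel, smul_smul, inv_mul_cancel₀ (by norm_num), one_smul]
    rw [h4, ← h3]
    exact Submodule.smul_mem _ _ (add_mem (Submodule.subset_span ⟨_, rfl⟩)
      (Submodule.smul_mem _ _ h2))
  · exact h2
  · rw [← cp_triv h he f ha hc]
    exact Submodule.subset_span ⟨_, rfl⟩

end Pool.Agent.H840.KP
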