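import Pool.Agent.H840.KP.Two
import Pool.Agent.H840.KP.E0
import Pool.Agent.H840.KP.Dat
import Pool.Agent.H840.KP.OneM
set_option autoImplicit false

/-!
# Squares of abelian surfaces: assembly
-/

open Complex Filter Topology MeasureTheory Set Matrix

open scoped ComplexConjugate

namespace Pool.Agent.H840.KP

open Pool.Agent.H840.AS

/-- The local statement. -/
theorem locT (t : (Fin 5 → ℂ) → Ten) (ht : ∀ e, t e ∈ spec e) (hc : ContinuousAt t e0) :
    ∀ V ∈ 𝓝 (act (Mt e0) (t e0)), ∀ᶠ τ in 𝓝 (Tm e0), τ.IsSymm → ∃ Z ∈ SS (Lat τ), Z ∈ V := by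
  intro V hV
  have h1 : ContinuousAt (fun e => act (Mt e) (t e)) e0 := by
    have h2 : ContinuousAt (fun e => (Mt e, t e)) e0 :=
      (continuousAt_Mt Pool.Agent.H840.AS.Der.der near_e0 data_e0.1).prodMk hc
    exact ContinuousAt.comp (f := fun e => (Mt e, t e))
      (g := fun p : Matrix (Fin 2) (Fin 2) ℂ × Ten => act p.1 p.2)
      (Pool.Agent.H722.GRP2.act_cont.continuousAt) h2
  have h3 : ∀ᶠ e in 𝓝 e0, act (Mt e) (t e) ∈ V := h1 hV
  filter_upwards [exists_near h3] with τ hτ hsym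
  obtain ⟨e, he, hd, rfl, hV'⟩ := hτ hsym
  exact ⟨_, Submodule.subset_span ⟨e, he.inj, jac he hd, t e, ht e, rfl⟩, hV'⟩

theorem act_unit (g : Matrix (Fin 2) (Fin 2) ℂ) (Z : Ten) : act (-I • g) Z = act g Z := by
  have hI : I * I = -1 := I_mul_I
  have h4 : I ^ 4 = 1 := I_pow_four
  refine Prod.ext ?_ ?_
  · funext i j k l
    simp only [act, Fin.sum_univ_two, Matrix.smul_apply, smul_eq_mul, map_mul, map_neg,
      Complex.conj_I]
    ring_nf
    rw [h4]
    ring
  · simp only [act, Matrix.det_smul, norm_mul, norm_pow, norm_neg, Complex.norm_I, one_pow,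
      one_mul]

/-- The local statement in the form needed. -/
theorem locS {m : Matrix (Fin 2) (Fin 2) ℝ} {lam : ℝ} (hM : Mt e0 = -I • toC m)
    (hT : Tm e0 = I • toC ((lam • (m * !![1, 0; 0, Real.sqrt 2])) *
      (lam • (m * !![1, 0; 0, Real.sqrt 2]))ᵀ)) (t : (Fin 5 → ℂ) → Ten)
    (ht : ∀ e, t e ∈ spec e) (hc : ContinuousAt t e0) (Z₀ : Ten) (κ : ℝ)
    (hZ : act (toC (lam • !![1, 0; 0, Real.sqrt 2])) Z₀ = κ • t e0) :
    ∀ V ∈ 𝓝 (act (toC (lam • (m * !![1, 0; 0, Real.sqrt 2]))) Z₀),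
      ∀ᶠ τ in 𝓝 (Complex.I • toC ((lam • (m * !![1, 0; 0, Real.sqrt 2])) *
        (lam • (m * !![1, 0; 0, Real.sqrt 2])).transpose)),
        τ.IsSymm → ∃ Z ∈ SS (Lat τ), Z ∈ V := by
  intro V hV
  have h1 : act (toC (lam • (m * !![1, 0; 0, Real.sqrt 2]))) Z₀ = κ • act (Mt e0) (t e0) := by
    have h2 : toC (lam • (m * !![1, 0; 0, Real.sqrt 2])) =
        toC m * toC (lam • !![1, 0; 0, Real.sqrt 2]) := by
      rw [← Matrix.mul_smul, Pool.Agent.H840.AS.toC_mul]
    rw [h2, Pool.Agent.H722.GRP2.act_mul, hZ, Pool.Agent.H722.GRP2.act_rsmul, hM, act_unit]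
  rw [h1] at hV
  have hcont : Continuous fun x : Ten => κ • x := continuous_const_smul κ
  have h3 : (fun x : Ten => κ • x) ⁻¹' V ∈ 𝓝 (act (Mt e0) (t e0)) := hcont.continuousAt hV
  have h4 := locT t ht hc _ h3
  rw [← hT]
  filter_upwards [h4] with τ hτ hsym
  obtain ⟨Z, hZ1, hZ2⟩ := hτ hsym
  exact ⟨κ • Z, Submodule.smul_mem _ _ hZ1, hZ2⟩

/-- The diagonal entries. -/
noncomputable def dl (lam : ℝ) (i : Fin 2) : ℝ := lam * (![1, Real.sqrt 2] : Fin 2 → ℝ) i

theorem act_diag (lam : ℝ) (Z : Ten) (i j k l : Fin 2) :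
    (act (toC (lam • !![1, 0; 0, Real.sqrt 2])) Z).1 i j k l =
      ((dl lam i * dl lam j * dl lam k * dl lam l : ℝ) : ℂ) * Z.1 i j k l := by
  fin_cases i <;> fin_cases j <;> fin_cases k <;> fin_cases l <;>
    simp [act, toC, dl, Fin.sum_univ_two]

/-- The normalised tensor. -/
noncomputable def Xn (i j k l : Fin 2) : ℝ :=
  (X0 e0 i j k l).re / (dl 1 i * dl 1 j * dl 1 k * dl 1 l)

theorem dl_pos (i : Fin 2) : 0 < dl 1 i := by
  have : 0 < Real.sqrt 2 := Real.sqrt_pos.2 (by norm_num)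
  fin_cases i <;> simp [dl, this]

theorem continuousAt_X0 (h : S_CNT2) : ContinuousAt X0 e0 := by
  refine continuousAt_pi.2 fun i => continuousAt_pi.2 fun j => continuousAt_pi.2 fun k =>
    continuousAt_pi.2 fun l => ?_
  exact h e0 i j k l Pool.Agent.H840.AS.Sgn.e0_inj (p_le i) (p_le j) (p_le k) (p_le l)

theorem continuousAt_s2 {a : Fin 5 → ℤ} (ha : ∑ k, a k = 0) {c : ℂ} (hc : c ≠ 0) :
    ContinuousAt (fun e => ((s2 (Rm e a c) (Pm e), 0) : Ten)) e0 := by
  have h1 := continuousAt_Rm Pool.Agent.H671.CNT.main near_e0 ha hc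
  have h2 := continuousAt_Rm Pool.Agent.H671.CNT.main near_e0 (n := 0) (by simp)
    (Complex.exp_ne_zero 1)
  have h1' : ∀ i j, ContinuousAt (fun e => Rm e a c i j) e0 := fun i j =>
    continuousAt_pi.1 (continuousAt_pi.1 h1 i) j
  have h2' : ∀ i j, ContinuousAt (fun e => Pm e i j) e0 := fun i j =>
    continuousAt_pi.1 (continuousAt_pi.1 h2 i) j
  refine ContinuousAt.prodMk ?_ continuousAt_const
  refine continuousAt_pi.2 fun i => continuousAt_pi.2 fun j => continuousAt_pi.2 fun k =>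
    continuousAt_pi.2 fun l => ?_
  unfold s2
  exact ((h1' i j).mul (h2' k l)).add ((h2' i j).mul (h1' k l))

theorem SS_full (h : S_INT2) (hC : S_CNT2) (hE : S_ENE) (hS : S_SGX) (hI : S_INV) (hP : S_PER)
    (hG : S_GRP2) (τ : Matrix (Fin 2) (Fin 2) ℂ) (h1 : τ.IsSymm)
    (h2 : (τ.map Complex.im).PosDef) : ∀ Z ∈ TenH, Z ∈ SS (Lat τ) := by
  obtain ⟨m, lam, hl, hm, hM, hT⟩ := data2 hP
  obtain ⟨p, hp, hPm⟩ := Pm_e0 hI
  obtain ⟨⟨r, hr, hR⟩, -⟩ := Pool.Agent.H840.AS.Sgn.main Pool.Agent.H671.CNT.main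
  have hs2 : Real.sqrt 2 * Real.sqrt 2 = 2 := Real.mul_self_sqrt (by norm_num)
  have hs0 : 0 < Real.sqrt 2 := Real.sqrt_pos.2 (by norm_num)
  have hs2c : ((Real.sqrt 2 : ℝ) : ℂ) * ((Real.sqrt 2 : ℝ) : ℂ) = 2 := by exact_mod_cast hs2
  have hd0 : dl 1 0 = 1 := by simp [dl]
  have hd1 : dl 1 1 = Real.sqrt 2 := by simp [dl]
  have hl0 : dl lam 0 = lam := by simp [dl]
  have hl1 : dl lam 1 = lam * Real.sqrt 2 := by simp [dl]
  refine hG SS SS_push (lam • (m * !![1, 0; 0, Real.sqrt 2])) Xn ?_ ?_ ?_ ?_ ?_ ?_ ?_ τ h1 h2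
  · rw [Matrix.det_smul, Matrix.det_mul, Matrix.det_fin_two_of]
    have : (1 * Real.sqrt 2 - 0 * 0) ≠ 0 := by simpa using hs0.ne'
    exact mul_ne_zero (pow_ne_zero _ hl.ne') (mul_ne_zero hm this)
  · intro i j k l
    unfold Xn
    rw [X0_swap e0 i j k l]
    congr 1
    ring
  · intro i j k l
    unfold Xn
    rw [← X0_conj e0 i j k l, Complex.conj_re]
    congr 1
    ring
  · intro i j k l hodd
    unfold Xn
    rw [X0_odd hodd, Complex.zero_re, zero_div]
  · unfold Xn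
    refine div_ne_zero (X0_1010 h hS).ne ?_
    have h3 := dl_pos 0
    have h4 := dl_pos 1
    positivity
  · have h3 := trace_neg h hE hI
    unfold Xn
    rw [hd0, hd1]
    have h4 : Real.sqrt 2 * Real.sqrt 2 * Real.sqrt 2 * Real.sqrt 2 = 4 := by
      rw [hs2, mul_assoc, hs2]; norm_num
    have h5 : 1 * Real.sqrt 2 * Real.sqrt 2 * 1 = 2 := by rw [one_mul, mul_one, hs2]
    have h6 : 1 * 1 * Real.sqrt 2 * Real.sqrt 2 = 2 := by rw [one_mul, one_mul, hs2]
    rw [h4, h5, h6]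
    intro h7
    linarith
  · intro Z₀ hZ₀
    simp only [mem_insert_iff, mem_singleton_iff] at hZ₀
    rcases hZ₀ with rfl | rfl | rfl | rfl
    · refine locS hM hT (fun e => (s2 (Rm e 0 (Complex.exp 1)) (Pm e), 0))
        (fun e => Or.inr (Or.inr ⟨0, _, by simp, Complex.exp_ne_zero 1, rfl⟩))
        (continuousAt_s2 (by simp) (Complex.exp_ne_zero 1)) _ (lam ^ 4 / p ^ 2) ?_
      have hR' : Rm e0 0 (Complex.exp 1) = toC !![p, 0; 0, 2 * p] := hPm
      have hpc : (p : ℂ) ≠ 0 := by exact_mod_cast hp.ne'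
      refine Prod.ext ?_ ?_
      · funext i j k l
        rw [act_diag]
        simp only [Prod.smul_fst, Pi.smul_apply, Complex.real_smul, hPm, hR']
        fin_cases i <;> fin_cases j <;> fin_cases k <;> fin_cases l <;>
          simp [s2, toC, hl0, hl1] <;> field_simp <;>
          first
            | ring1
            | linear_combination (lam ^ 4 : ℂ) * hs2c
            | linear_combination (lam ^ 4 : ℂ) * (((Real.sqrt 2 : ℝ) : ℂ) *
                ((Real.sqrt 2 : ℝ) : ℂ) + 2) * hs2c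
      · simp [act]
    · refine locS hM hT (fun e => (s2 (Rm e ![0, -1, 0, 1, 0] 1) (Pm e), 0))
        (fun e => Or.inr (Or.inr ⟨![0, -1, 0, 1, 0], 1, by decide, one_ne_zero, rfl⟩))
        (continuousAt_s2 (by decide) one_ne_zero) _ (lam ^ 4 * Real.sqrt 2 / (r * p)) ?_
      have hpc : (p : ℂ) ≠ 0 := by exact_mod_cast hp.ne'
      have hrc : (r : ℂ) ≠ 0 := by exact_mod_cast hr.ne
      refine Prod.ext ?_ ?_
      · funext i j k l
        rw [act_diag]
        simp only [Prod.smul_fst, Pi.smul_apply, Complex.real_smul, hPm, hR]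
        fin_cases i <;> fin_cases j <;> fin_cases k <;> fin_cases l <;>
          simp [s2, toC, hl0, hl1] <;> field_simp <;>
          first
            | ring1
            | linear_combination (lam ^ 4 * ((Real.sqrt 2 : ℝ) : ℂ)) * hs2c
            | linear_combination (lam ^ 4 : ℂ) * hs2c
      · simp [act]
    · refine locS hM hT (fun e => (X0 e, 0)) (fun e => Or.inl rfl)
        ((continuousAt_X0 hC).prodMk continuousAt_const) _ (lam ^ 4) ?_
      refine Prod.ext ?_ ?_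
      · funext i j k l
        rw [act_diag]
        simp only [Prod.smul_fst, Pi.smul_apply, Complex.real_smul]
        rw [X0_re i j k l, ← Complex.ofReal_mul, ← Complex.ofReal_mul]
        congr 1
        have h3 : ∀ i, dl lam i = lam * dl 1 i := by intro i; simp [dl]
        rw [h3 i, h3 j, h3 k, h3 l]
        unfold Xn
        have a1 := (dl_pos i).ne'
        have a2 := (dl_pos j).ne'
        have a3 := (dl_pos k).ne'
        have a4 := (dl_pos l).ne'
        field_simp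
      · simp [act]
    · refine locS hM hT (fun e => e1) (fun e => Or.inr (Or.inl rfl)) continuousAt_const _
        (‖(toC (lam • !![1, 0; 0, Real.sqrt 2])).det‖ ^ 2) ?_
      exact act_e1 _

end Pool.Agent.H840.KP
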